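import Mathlib

/-!
The Neil algebra on the closed unit disc: the uniform closure of the polynomials without linear
term.  Its characters are the point evaluations and its invertible elements are exponentials.
-/

set_option autoImplicit false

open Set Filter Topology

namespace Pool.Agent.P.MP_dbea21_an

/-- the closed unit disc -/
abbrev D : Type := Metric.closedBall (0 : ℂ) 1

/-- the coordinate function -/
def z : C(D, ℂ) := ⟨Subtype.val, continuous_subtype_val⟩

@[simp] theorem z_apply (s : D) : z s = s := rfl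

theorem norm_le_one (s : D) : ‖(s : ℂ)‖ ≤ 1 := mem_closedBall_zero_iff.1 s.2

/-- the Neil algebra -/
noncomputable def A : Subalgebra ℂ C(D, ℂ) :=
  (Algebra.adjoin ℂ {z ^ 2, z ^ 3}).topologicalClosure

theorem A_closed : IsClosed (A : Set C(D, ℂ)) := Subalgebra.isClosed_topologicalClosure _

theorem z2_mem : z ^ 2 ∈ A :=
  Subalgebra.le_topologicalClosure _ (Algebra.subset_adjoin (by simp))

theorem z3_mem : z ^ 3 ∈ A :=
  Subalgebra.le_topologicalClosure _ (Algebra.subset_adjoin (by simp))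

theorem exists_two_three {n : ℕ} (hn : n ≠ 1) : ∃ a b, n = 2 * a + 3 * b := by
  rcases Nat.even_or_odd' n with ⟨k, rfl | rfl⟩
  · exact ⟨k, 0, by omega⟩
  · exact ⟨k - 1, 1, by omega⟩

theorem zpow_mem {n : ℕ} (hn : n ≠ 1) : z ^ n ∈ A := by
  obtain ⟨a, b, rfl⟩ := exists_two_three hn
  rw [pow_add, pow_mul, pow_mul]
  exact A.mul_mem (A.pow_mem z2_mem a) (A.pow_mem z3_mem b)

/-- linear induction principle -/
theorem A_induction (M : Submodule ℂ C(D, ℂ)) (hM : IsClosed (M : Set C(D, ℂ)))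
    (h : ∀ n : ℕ, n ≠ 1 → z ^ n ∈ M) {f : C(D, ℂ)} (hf : f ∈ A) : f ∈ M := by
  have h1 : (Algebra.adjoin ℂ {z ^ 2, z ^ 3} : Set C(D, ℂ)) ⊆ M := by
    intro g hg
    have hg' : g ∈ Subalgebra.toSubmodule (Algebra.adjoin ℂ {z ^ 2, z ^ 3}) := hg
    rw [Algebra.adjoin_eq_span] at hg'
    refine (Submodule.span_le.2 ?_) hg'
    intro x hx
    have : ∃ n : ℕ, n ≠ 1 ∧ x = z ^ n := by
      induction hx using Submonoid.closure_induction with
      | mem x hx =>
        rcases hx with rfl | rfl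
        · exact ⟨2, by omega, rfl⟩
        · exact ⟨3, by omega, rfl⟩
      | one => exact ⟨0, by omega, by simp⟩
      | mul x y _ _ hx hy =>
        obtain ⟨n, hn, rfl⟩ := hx
        obtain ⟨m, hm, rfl⟩ := hy
        exact ⟨n + m, by omega, by rw [pow_add]⟩
    obtain ⟨n, hn, rfl⟩ := this
    exact h n hn
  exact closure_minimal h1 hM hf

theorem characters (φ : A →ₐ[ℂ] ℂ) (hφ : Continuous φ) :
    ∃! s : D, ∀ f : A, φ f = (f : C(D, ℂ)) s := by
  set a := φ ⟨z ^ 2, z2_mem⟩ with ha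
  set b := φ ⟨z ^ 3, z3_mem⟩ with hb
  have hab : a ^ 3 = b ^ 2 := by
    rw [ha, hb, ← map_pow, ← map_pow]
    congr 1
    ext1
    simp only [SubmonoidClass.mk_pow]
    ring
  have hna : ‖a‖ ≤ 1 := by
    by_contra hlt
    push Not at hlt
    have ha0 : a ≠ 0 := by
      rintro h0
      rw [h0, norm_zero] at hlt
      linarith
    have h1 : ‖z ^ 2‖ ≤ 1 := by
      rw [ContinuousMap.norm_le _ zero_le_one]
      intro s
      simp only [ContinuousMap.pow_apply, z_apply, norm_pow]
      exact pow_le_one₀ (norm_nonneg _) (norm_le_one s)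
    have h2 : ‖a⁻¹ • z ^ 2‖ < 1 := by
      rw [norm_smul, norm_inv]
      calc _ ≤ ‖a‖⁻¹ * 1 := by gcongr
        _ < 1 := by rw [mul_one]; exact inv_lt_one_of_one_lt₀ hlt
    have h3 := tendsto_pow_atTop_nhds_zero_of_norm_lt_one h2
    have h4 : Tendsto (fun n : ℕ => (a⁻¹ • (⟨z ^ 2, z2_mem⟩ : A)) ^ n) atTop (𝓝 0) :=
      tendsto_subtype_rng.2 h3
    have h5 := (hφ.tendsto 0).comp h4
    have h6 : (φ ∘ fun n : ℕ => (a⁻¹ • (⟨z ^ 2, z2_mem⟩ : A)) ^ n) = fun _ => 1 := by
      funext n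
      simp only [Function.comp, map_pow, map_smul, ← ha, smul_eq_mul, inv_mul_cancel₀ ha0, one_pow]
    rw [h6, map_zero] at h5
    exact one_ne_zero (tendsto_nhds_unique tendsto_const_nhds h5)
  obtain ⟨s, hs2, hs3⟩ : ∃ s : ℂ, s ^ 2 = a ∧ s ^ 3 = b := by
    by_cases h0 : a = 0
    · have : b = 0 := by
        rw [h0] at hab
        exact pow_eq_zero_iff (two_ne_zero) |>.1 (by rw [← hab]; simp)
      exact ⟨0, by simp [h0], by simp [this]⟩
    · refine ⟨b / a, ?_, ?_⟩
      · field_simp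
        linear_combination -hab
      · field_simp
        linear_combination (-b) * hab
  have hs : s ∈ Metric.closedBall (0 : ℂ) 1 := by
    rw [mem_closedBall_zero_iff]
    rw [← hs2, norm_pow] at hna
    nlinarith [norm_nonneg s]
  refine ⟨⟨s, hs⟩, ?_, ?_⟩
  · rintro ⟨f, hf⟩
    let M : Submodule ℂ A := LinearMap.eqLocus φ.toLinearMap
      ((ContinuousMap.evalCLM ℂ (⟨s, hs⟩ : D)).toLinearMap ∘ₗ A.val.toLinearMap)
    have hM : IsClosed (M : Set A) :=
      isClosed_eq hφ ((continuous_eval_const (⟨s, hs⟩ : D)).comp continuous_subtype_val)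
    have hM' : IsClosed ((M.map A.val.toLinearMap : Submodule ℂ C(D, ℂ)) : Set C(D, ℂ)) :=
      A_closed.isClosedEmbedding_subtypeVal.isClosedMap _ hM
    have := A_induction _ hM' (fun n hn => ?_) hf
    · obtain ⟨g, hg, hgf⟩ := this
      have : g = ⟨f, hf⟩ := Subtype.ext hgf
      subst this
      exact hg
    · refine ⟨⟨z ^ n, zpow_mem hn⟩, ?_, rfl⟩
      obtain ⟨i, j, rfl⟩ := exists_two_three hn
      have : (⟨z ^ (2 * i + 3 * j), zpow_mem hn⟩ : A) =
          ⟨z ^ 2, z2_mem⟩ ^ i * ⟨z ^ 3, z3_mem⟩ ^ j := by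
        ext1
        simp [pow_add, pow_mul]
      change φ _ = (z ^ (2 * i + 3 * j)) ⟨s, hs⟩
      rw [this, map_mul, map_pow, map_pow, ← ha, ← hb, ← hs2, ← hs3]
      simp [pow_add, pow_mul]
  · rintro ⟨t, ht⟩ h
    have h2 : a = t ^ 2 := h ⟨z ^ 2, z2_mem⟩
    have h3 : b = t ^ 3 := h ⟨z ^ 3, z3_mem⟩
    apply Subtype.ext
    change t = s
    by_cases h0 : s = 0
    · have : t ^ 2 = 0 := by rw [← h2, ← hs2, h0]; simp
      rw [h0]
      exact pow_eq_zero_iff two_ne_zero |>.1 this
    · have : s ^ 2 * (t - s) = 0 := by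
        linear_combination (hs2.trans h2) * t - (hs3.trans h3)
      rcases mul_eq_zero.1 this with h | h
      · exact absurd (pow_eq_zero_iff two_ne_zero |>.1 h) h0
      · exact sub_eq_zero.1 h

/-- being the exponential of an element of `A` -/
def IsExp (u : C(D, ℂ)) : Prop := ∃ f ∈ A, ∀ s, u s = Complex.exp (f s)

theorem IsExp.mul {u v : C(D, ℂ)} (hu : IsExp u) (hv : IsExp v) : IsExp (u * v) := by
  obtain ⟨f, hf, hu⟩ := hu
  obtain ⟨g, hg, hv⟩ := hv
  exact ⟨f + g, A.add_mem hf hg, fun s => by simp [hu, hv, Complex.exp_add]⟩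

theorem isExp_of_norm_lt {g : C(D, ℂ)} (hg : g ∈ A) (h : ‖1 - g‖ < 1) : IsExp g := by
  set x : C(D, ℂ) := 1 - g with hx
  have hxA : x ∈ A := A.sub_mem A.one_mem hg
  have hsum : Summable (fun n : ℕ => ((n : ℂ)⁻¹) • x ^ n) := by
    refine Summable.of_norm_bounded (summable_geometric_of_lt_one (norm_nonneg x) h) fun n => ?_
    rw [norm_smul]
    rcases Nat.eq_zero_or_pos n with rfl | hn
    · simp
    · have h1 : ‖(n : ℂ)⁻¹‖ ≤ 1 := by
        rw [norm_inv, Complex.norm_natCast]
        exact inv_le_one_of_one_le₀ (by exact_mod_cast hn)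
      calc _ ≤ 1 * ‖x‖ ^ n :=
            mul_le_mul h1 (norm_pow_le' x hn) (norm_nonneg _) zero_le_one
        _ = _ := one_mul _
  refine ⟨-∑' n : ℕ, ((n : ℂ)⁻¹) • x ^ n, A.neg_mem ?_, fun s => ?_⟩
  · refine A_closed.mem_of_tendsto hsum.hasSum (Eventually.of_forall fun t => ?_)
    exact A.sum_mem fun n _ => A.smul_mem (A.pow_mem hxA n) _
  · have hs : ‖x s‖ < 1 := (ContinuousMap.norm_coe_le_norm x s).trans_lt h
    have h1 := Complex.hasSum_taylorSeries_neg_log hs
    have h2 := (ContinuousMap.evalCLM ℂ s).hasSum hsum.hasSum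
    have h3 : (∑' n : ℕ, ((n : ℂ)⁻¹) • x ^ n) s = -Complex.log (1 - x s) := by
      refine HasSum.unique h2 ?_
      convert h1 using 2 with n
      simp [div_eq_inv_mul]
    have h4 : 1 - x s = g s := by simp [hx]
    have h5 : g s ≠ 0 := by
      intro h0
      rw [← h4, sub_eq_zero] at h0
      rw [← h0] at hs
      simp at hs
    simp only [ContinuousMap.neg_apply, h3, neg_neg, h4]
    exact (Complex.exp_log h5).symm

/-- dilation of the disc -/
noncomputable def dil : C(unitInterval × D, D) :=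
  ⟨fun p => ⟨((p.1 : ℝ) : ℂ) * p.2, by
      rw [mem_closedBall_zero_iff, norm_mul, Complex.norm_real, Real.norm_of_nonneg p.1.2.1]
      exact mul_le_one₀ p.1.2.2 (norm_nonneg _) (norm_le_one _)⟩,
    by fun_prop⟩

/-- `f (t z)` -/
noncomputable def dl (f : C(D, ℂ)) (t : unitInterval) : C(D, ℂ) := (f.comp dil).curry t

theorem dl_apply (f : C(D, ℂ)) (t : unitInterval) (s : D) : dl f t s = f (dil (t, s)) := rfl

theorem dl_continuous (f : C(D, ℂ)) : Continuous (dl f) := (f.comp dil).curry.continuous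

theorem dl_mem {f : C(D, ℂ)} (hf : f ∈ A) (t : unitInterval) : dl f t ∈ A := by
  let L := ContinuousMap.compRightAlgHom ℂ ℂ (dil.curry t)
  have hL : Continuous L := ContinuousMap.compRightAlgHom_continuous ℂ ℂ _
  refine A_induction (A.toSubmodule.comap L.toLinearMap) (A_closed.preimage hL) (fun n hn => ?_) hf
  have : L (z ^ n) = (((t : ℝ) : ℂ) ^ n) • z ^ n := by
    ext s
    change (z ^ n) (dil (t, s)) = _
    simp [dil, mul_pow]
  change L (z ^ n) ∈ A
  rw [this]
  exact A.smul_mem (zpow_mem hn) _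

theorem isExp_of_unit {u v : C(D, ℂ)} (hu : u ∈ A) (hv : v ∈ A) (huv : u * v = 1) : IsExp u := by
  have hmul : ∀ t, dl u t * dl v t = 1 := by
    intro t
    ext s
    have := congrArg (fun f : C(D, ℂ) => f (dil (t, s))) huv
    simpa [dl_apply] using this
  have key : ∀ t t' : unitInterval, IsExp (dl u t) → IsExp (dl u t') := by
    intro t t'
    refine PreconnectedSpace.induction₂' (fun t t' => IsExp (dl u t) → IsExp (dl u t')) ?_
      ⟨fun _ _ _ h1 h2 h => h2 (h1 h)⟩ t t'
    intro x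
    have c1 : Continuous fun y => ‖1 - dl u y * dl v x‖ :=
      (continuous_const.sub ((dl_continuous u).mul continuous_const)).norm
    have c2 : Continuous fun y => ‖1 - dl u x * dl v y‖ :=
      (continuous_const.sub (continuous_const.mul (dl_continuous v))).norm
    have e1 : ∀ᶠ y in 𝓝 x, ‖1 - dl u y * dl v x‖ < 1 :=
      c1.continuousAt.eventually_lt continuousAt_const (by simp [hmul])
    have e2 : ∀ᶠ y in 𝓝 x, ‖1 - dl u x * dl v y‖ < 1 :=
      c2.continuousAt.eventually_lt continuousAt_const (by simp [hmul])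
    filter_upwards [e1, e2] with y h1 h2
    constructor
    · intro h
      have := (isExp_of_norm_lt (A.mul_mem (dl_mem hu y) (dl_mem hv x)) h1).mul h
      rwa [mul_assoc, mul_comm (dl v x), hmul, mul_one] at this
    · intro h
      have := (isExp_of_norm_lt (A.mul_mem (dl_mem hu x) (dl_mem hv y)) h2).mul h
      rwa [mul_assoc, mul_comm (dl v y), hmul, mul_one] at this
  have h1 : dl u 1 = u := by
    ext s
    rw [dl_apply]
    congr 1
    apply Subtype.ext
    simp [dil]
  rw [← h1]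
  refine key 0 1 ?_
  let o : D := ⟨0, by simp⟩
  have h0 : u o ≠ 0 := by
    have := congrArg (fun f : C(D, ℂ) => f o) huv
    simp only [ContinuousMap.mul_apply, ContinuousMap.one_apply] at this
    exact left_ne_zero_of_mul_eq_one this
  refine ⟨algebraMap ℂ _ (Complex.log (u o)), A.algebraMap_mem _, fun s => ?_⟩
  have : dil (0, s) = o := by
    apply Subtype.ext
    simp [dil, o]
  rw [dl_apply, this]
  simp [Complex.exp_log h0]

theorem units_exp (u : A) (hu : IsUnit u) :
    ∃ f : A, ∀ s, (u : C(D, ℂ)) s = Complex.exp ((f : C(D, ℂ)) s) := by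
  obtain ⟨v, hv⟩ := hu.exists_right_inv
  obtain ⟨f, hf, h⟩ := isExp_of_unit u.2 v.2 (congrArg Subtype.val hv)
  exact ⟨⟨f, hf⟩, h⟩

end Pool.Agent.P.MP_dbea21_an
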