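import Mathlib
import Pool.Agent.P.MP_dbea21_an.Alg

/-!
The measure `|z^3 - 1|^2 dm` on the unit circle and the Neil algebra.
-/

set_option autoImplicit false

open Set Filter Topology MeasureTheory AddCircle ComplexConjugate
open scoped NNReal ENNReal

namespace Pool.Agent.P.MP_dbea21_an

/-- the circle -/
abbrev T : Type := AddCircle (1 : ℝ)

/-- the monomials on the circle -/
noncomputable abbrev e (n : ℤ) : C(T, ℂ) := fourier n

theorem norm_e (n : ℤ) (x : T) : ‖e n x‖ = 1 := by
  rw [fourier_apply]; exact Circle.norm_coe _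

theorem e_mul (m n : ℤ) : e m * e n = e (m + n) := by
  ext x; simp only [ContinuousMap.mul_apply, fourier_add]

theorem e_zero : e 0 = 1 := by
  ext x; simp only [fourier_zero, ContinuousMap.one_apply]

theorem e_star (n : ℤ) : star (e n) = e (-n) := by
  ext x; simp only [ContinuousMap.star_apply, fourier_neg, RCLike.star_def]

theorem e_pow (n : ℤ) (j : ℕ) : e n ^ j = e (n * j) := by
  induction j with
  | zero => simp [e_zero]
  | succ j ih => rw [pow_succ, ih, e_mul]; congr 1; push_cast; ring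

/-- the embedding of the circle in the disc -/
noncomputable def c : C(T, D) :=
  ⟨fun x => ⟨e 1 x, mem_closedBall_zero_iff.2 (norm_e 1 x).le⟩, by fun_prop⟩

theorem c_injective : Function.Injective c := by
  intro x y h
  have h1 : e 1 x = e 1 y := congrArg (fun s : D => (s : ℂ)) h
  simp only [fourier_one] at h1
  exact AddCircle.injective_toCircle one_ne_zero (Subtype.ext h1)

theorem c_emb : MeasurableEmbedding c :=
  (c.continuous.isClosedEmbedding c_injective).measurableEmbedding

/-- restriction to the circle -/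
noncomputable def pull : C(D, ℂ) →ₐ[ℂ] C(T, ℂ) := ContinuousMap.compRightAlgHom ℂ ℂ c

theorem pull_apply (f : C(D, ℂ)) (x : T) : pull f x = f (c x) := rfl

theorem pull_continuous : Continuous pull := ContinuousMap.compRightAlgHom_continuous ℂ ℂ c

theorem pull_star (f : C(D, ℂ)) : pull (star f) = star (pull f) := rfl

theorem pull_z : pull z = e 1 := rfl

theorem pull_zpow (n : ℕ) : pull (z ^ n) = e n := by
  rw [map_pow, pull_z, e_pow, one_mul]

/-- normalized Lebesgue measure -/
noncomputable abbrev m : Measure T := haarAddCircle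

theorem integral_e (n : ℤ) (hn : n ≠ 0) : ∫ x, e n x ∂m = 0 :=
  integral_eq_zero_of_add_right_eq_neg (μ := haarAddCircle)
    (fourier_add_half_inv_index hn one_pos)

/-- the weight -/
noncomputable def w (x : T) : ℝ≥0 := ‖e 3 x - 1‖₊ ^ 2

theorem w_continuous : Continuous w := by unfold w; fun_prop

theorem w_coe (x : T) : (w x : ℝ) = ‖e 3 x - 1‖ ^ 2 := by simp [w]

/-- the weighted measure on the circle -/
noncomputable def μ' : Measure T := m.withDensity fun x => w x

theorem cont_integrable (ρ : Measure T) [IsFiniteMeasure ρ] {E : Type} [NormedAddCommGroup E]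
    {f : T → E} (hf : Continuous f) : Integrable f ρ :=
  hf.integrable_of_hasCompactSupport (HasCompactSupport.of_compactSpace f)

instance : IsFiniteMeasure μ' := by
  refine isFiniteMeasure_withDensity ?_
  have : Integrable (fun x => (w x : ℝ)) m :=
    cont_integrable m (NNReal.continuous_coe.comp w_continuous)
  exact ((hasFiniteIntegral_iff_ofNNReal).1 this.2).ne

theorem integral_μ' {E : Type} [NormedAddCommGroup E] [NormedSpace ℝ E] (f : T → E) :
    ∫ x, f x ∂μ' = ∫ x, w x • f x ∂m :=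
  integral_withDensity_eq_integral_smul w_continuous.measurable f

/-- the measure on the disc -/
noncomputable def μ : Measure D := μ'.map c

instance : IsFiniteMeasure μ := Measure.isFiniteMeasure_map _ _

theorem integral_μ {E : Type} [NormedAddCommGroup E] [NormedSpace ℝ E] (f : D → E) :
    ∫ s, f s ∂μ = ∫ x, f (c x) ∂μ' := c_emb.integral_map f

/-- `A + conj A` -/
def V : Submodule ℂ C(D, ℂ) where
  carrier := {h | ∃ f ∈ A, ∃ g ∈ A, h = f + star g}
  add_mem' := by
    rintro _ _ ⟨f, hf, g, hg, rfl⟩ ⟨f', hf', g', hg', rfl⟩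
    exact ⟨f + f', A.add_mem hf hf', g + g', A.add_mem hg hg', by rw [star_add]; abel⟩
  zero_mem' := ⟨0, A.zero_mem, 0, A.zero_mem, by simp⟩
  smul_mem' := by
    rintro a _ ⟨f, hf, g, hg, rfl⟩
    exact ⟨a • f, A.smul_mem hf a, star a • g, A.smul_mem hg _, by simp⟩

/-- its restriction to the circle -/
noncomputable def W : Submodule ℂ C(T, ℂ) := V.map pull.toLinearMap

theorem e_mem_W {n : ℤ} (h1 : n ≠ 1) (h2 : n ≠ -1) : e n ∈ W := by
  obtain ⟨k, rfl | rfl⟩ := Int.eq_nat_or_neg n
  · exact ⟨z ^ k, ⟨z ^ k, zpow_mem (by omega), 0, A.zero_mem, by simp⟩, pull_zpow k⟩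
  · refine ⟨star (z ^ k), ⟨0, A.zero_mem, z ^ k, zpow_mem (by omega), by simp⟩, ?_⟩
    change pull (star (z ^ k)) = _
    rw [pull_star, pull_zpow, e_star]

/-- geometric sums -/
noncomputable def S (k : ℕ) : C(T, ℂ) := ∑ j ∈ Finset.range k, e 3 ^ j

/-- Fejer kernel in the variable `z ^ 3` -/
noncomputable def G (k : ℕ) : C(T, ℂ) := (k : ℂ)⁻¹ • (S k * star (S k))

theorem e_mul_G (k : ℕ) (n : ℤ) : e n * G k =
    (k : ℂ)⁻¹ • ∑ i ∈ Finset.range k, ∑ j ∈ Finset.range k, e (n + 3 * i - 3 * j) := by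
  rw [G, mul_smul_comm, S, star_sum, Finset.sum_mul_sum, Finset.mul_sum]
  congr 1
  refine Finset.sum_congr rfl fun i _ => ?_
  rw [Finset.mul_sum]
  refine Finset.sum_congr rfl fun j _ => ?_
  rw [e_pow, e_pow, e_star, e_mul, e_mul]
  congr 1
  ring

theorem G_mem (k : ℕ) : G k ∈ W := by
  have := e_mul_G k 0
  rw [e_zero, one_mul] at this
  rw [this]
  exact W.smul_mem _ (W.sum_mem fun i _ => W.sum_mem fun j _ => e_mem_W (by omega) (by omega))

theorem e_mul_G_sub_mem {k : ℕ} (hk : k ≠ 0) {n : ℤ} (hn : n = 1 ∨ n = -1) :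
    e n * G k - e n ∈ W := by
  have h1 : e n = (k : ℂ)⁻¹ • ∑ i ∈ Finset.range k, ∑ j ∈ Finset.range k,
      (if i = j then e n else 0) := by
    have : ∀ i ∈ Finset.range k, ∑ j ∈ Finset.range k, (if i = j then e n else 0) = e n := by
      intro i hi
      rw [Finset.sum_ite_eq, if_pos hi]
    rw [Finset.sum_congr rfl this, Finset.sum_const, Finset.card_range, ← Nat.cast_smul_eq_nsmul ℂ,
      smul_smul, inv_mul_cancel₀ (by exact_mod_cast hk), one_smul]
  have h2 : e n * G k - e n = (k : ℂ)⁻¹ • ∑ i ∈ Finset.range k, ∑ j ∈ Finset.range k,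
      (e (n + 3 * i - 3 * j) - if i = j then e n else 0) := by
    simp only [Finset.sum_sub_distrib]
    rw [smul_sub, ← h1, e_mul_G]
  rw [h2]
  refine W.smul_mem _ (W.sum_mem fun i _ => ?_)
  refine W.sum_mem fun j _ => ?_
  split_ifs with h
  · subst h
    rw [add_sub_cancel_right, sub_self]
    exact W.zero_mem
  · rw [sub_zero]
    exact e_mem_W (by omega) (by omega)

theorem G_apply (k : ℕ) (x : T) : G k x = (((k : ℝ)⁻¹ * ‖S k x‖ ^ 2 : ℝ) : ℂ) := by
  simp only [G, ContinuousMap.smul_apply, ContinuousMap.mul_apply, ContinuousMap.star_apply,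
    RCLike.star_def, Complex.mul_conj', smul_eq_mul]
  push_cast
  rfl

theorem w_mul_G_le (k : ℕ) (x : T) : (w x : ℝ) * ‖G k x‖ ≤ 4 / k := by
  have h1 : S k x * (e 3 x - 1) = e 3 x ^ k - 1 := by
    simp only [S, ContinuousMap.sum_apply, ContinuousMap.pow_apply]
    exact geom_sum_mul _ _
  have h2 : ‖S k x‖ * ‖e 3 x - 1‖ ≤ 2 := by
    rw [← norm_mul, h1]
    refine (norm_sub_le _ _).trans ?_
    rw [norm_pow, norm_e, one_pow, norm_one]
    norm_num
  rw [G_apply, w_coe, Complex.norm_real, Real.norm_of_nonneg (by positivity)]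
  have h3 : (‖S k x‖ * ‖e 3 x - 1‖) ^ 2 ≤ 2 ^ 2 := by gcongr
  calc _ = (k : ℝ)⁻¹ * (‖S k x‖ * ‖e 3 x - 1‖) ^ 2 := by ring
    _ ≤ (k : ℝ)⁻¹ * 2 ^ 2 := by gcongr
    _ = _ := by ring

theorem integral_norm_G_le (k : ℕ) (f : C(T, ℂ)) {C : ℝ} (hC : ∀ x, ‖f x‖ ≤ C) :
    ∫ x, ‖(f * G k) x‖ ∂μ' ≤ C * (4 / k) := by
  rw [integral_μ']
  have hC0 : 0 ≤ C := (norm_nonneg _).trans (hC 0)
  calc _ ≤ ∫ _, C * (4 / k) ∂m := by
        refine integral_mono_of_nonneg (Eventually.of_forall fun x => ?_) (integrable_const _)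
          (Eventually.of_forall fun x => ?_)
        · exact smul_nonneg (w x).2 (norm_nonneg _)
        · simp only [ContinuousMap.mul_apply, norm_mul, NNReal.smul_def, smul_eq_mul]
          calc (w x : ℝ) * (‖f x‖ * ‖G k x‖) = ‖f x‖ * (w x * ‖G k x‖) := by ring
            _ ≤ C * (4 / k) :=
              mul_le_mul (hC x) (w_mul_G_le k x) (by positivity) hC0
    _ = _ := by simp

theorem closed_top (M : Submodule ℂ C(T, ℂ)) (hM : IsClosed (M : Set C(T, ℂ)))
    (h : ∀ n, e n ∈ M) (f : C(T, ℂ)) : f ∈ M := by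
  have h1 : Submodule.span ℂ (range (@fourier 1)) ≤ M :=
    Submodule.span_le.2 (range_subset_iff.2 h)
  have h2 := Submodule.topologicalClosure_minimal _ h1 hM
  rw [span_fourier_closure_eq_top] at h2
  exact h2 trivial

theorem norm_toLp {X : Type} [TopologicalSpace X] [CompactSpace X] [MeasurableSpace X]
    [BorelSpace X] (ρ : Measure X) [IsFiniteMeasure ρ] (f : C(X, ℂ)) :
    ‖ContinuousMap.toLp 1 ρ ℂ f‖ = ∫ x, ‖f x‖ ∂ρ := by
  rw [L1.norm_eq_integral_norm]
  refine integral_congr_ae ?_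
  filter_upwards [ContinuousMap.coeFn_toLp (p := 1) (𝕜 := ℂ) ρ f] with x hx
  rw [hx]

theorem tendsto_div (C : ℝ) : Tendsto (fun k : ℕ => C * (4 / (k : ℝ))) atTop (𝓝 0) := by
  simpa using (tendsto_const_div_atTop_nhds_zero_nat (4 : ℝ)).const_mul C

/-- `A + conj A` is dense in `L^1(μ)` -/
theorem extremal : Dense (ContinuousMap.toLp 1 μ ℂ '' (V : Set C(D, ℂ))) := by
  let Q : Submodule ℂ C(T, ℂ) :=
    ((W.map (ContinuousMap.toLp 1 μ' ℂ).toLinearMap).topologicalClosure).comap
      (ContinuousMap.toLp 1 μ' ℂ).toLinearMap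
  have hQ : IsClosed (Q : Set C(T, ℂ)) :=
    (Submodule.isClosed_topologicalClosure _).preimage (ContinuousMap.toLp 1 μ' ℂ).continuous
  have hQe : ∀ n, e n ∈ Q := by
    intro n
    by_cases hn : n = 1 ∨ n = -1
    · change ContinuousMap.toLp 1 μ' ℂ (e n) ∈ closure _
      rw [Metric.mem_closure_iff]
      intro ε hε
      obtain ⟨k, hk, hk0⟩ :=
        (((tendsto_div 1).eventually (gt_mem_nhds hε)).and (eventually_ne_atTop 0)).exists
      refine ⟨_, ⟨_, W.neg_mem (e_mul_G_sub_mem hk0 hn), rfl⟩, ?_⟩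
      rw [dist_eq_norm, ContinuousLinearMap.coe_coe, ← map_sub, norm_toLp]
      have : e n - -(e n * G k - e n) = e n * G k := by ring
      rw [this]
      exact (integral_norm_G_le k (e n) fun x => (norm_e n x).le).trans_lt hk
    · push Not at hn
      exact Submodule.le_topologicalClosure _ ⟨_, e_mem_W hn.1 hn.2, rfl⟩
  have key : ∀ g : C(D, ℂ), ContinuousMap.toLp 1 μ ℂ g ∈
      closure (ContinuousMap.toLp 1 μ ℂ '' (V : Set C(D, ℂ))) := by
    intro g
    have h1 : ContinuousMap.toLp 1 μ' ℂ (pull g) ∈ closure _ := closed_top Q hQ hQe (pull g)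
    rw [Metric.mem_closure_iff] at h1 ⊢
    intro ε hε
    obtain ⟨_, ⟨_, ⟨h, hh, rfl⟩, rfl⟩, hlt⟩ := h1 ε hε
    refine ⟨_, ⟨h, hh, rfl⟩, ?_⟩
    rw [dist_eq_norm, ContinuousLinearMap.coe_coe, ← map_sub, norm_toLp] at hlt
    rw [dist_eq_norm, ← map_sub, norm_toLp, integral_μ]
    exact hlt
  have hd := ContinuousMap.toLp_denseRange ℂ μ ℂ (p := 1) ENNReal.one_ne_top
  rw [← dense_closure]
  exact hd.mono (range_subset_iff.2 key)

theorem integral_star {X : Type} [TopologicalSpace X] [MeasurableSpace X] (ρ : Measure X)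
    (f : C(X, ℂ)) : ∫ x, (star f) x ∂ρ = conj (∫ x, f x ∂ρ) := by
  rw [← integral_conj]; rfl

/-- the only positive measure on the circle with the same moments -/
theorem unique_circle (ν : Measure T) [IsFiniteMeasure ν]
    (h : ∀ f ∈ W, ∫ x, f x ∂ν = ∫ x, f x ∂μ') : ν = μ' := by
  let I : ∀ (ρ : Measure T) [IsFiniteMeasure ρ], C(T, ℂ) →L[ℂ] ℂ := fun ρ _ =>
    (L1.integralCLM' ℂ).comp (ContinuousMap.toLp 1 ρ ℂ)
  have hI : ∀ (ρ : Measure T) [IsFiniteMeasure ρ] (f : C(T, ℂ)), I ρ f = ∫ x, f x ∂ρ := by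
    intro ρ _ f
    change L1.integralCLM' ℂ (ContinuousMap.toLp 1 ρ ℂ f) = _
    rw [← L1.integral_eq', L1.integral_eq_integral]
    exact integral_congr_ae (ContinuousMap.coeFn_toLp (p := 1) (𝕜 := ℂ) ρ f)
  let L : C(T, ℂ) →L[ℂ] ℂ := I ν - I μ'
  have hL : ∀ f, L f = ∫ x, f x ∂ν - ∫ x, f x ∂μ' := fun f => by
    rw [← hI, ← hI]; rfl
  have hW : ∀ f ∈ W, L f = 0 := fun f hf => by rw [hL, h f hf, sub_self]
  have hneg : L (e (-1)) = conj (L (e 1)) := by
    rw [← e_star, hL, hL, integral_star, integral_star, map_sub]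
  have hpos : ∀ a : ℂ, ‖a‖ = 1 → 0 ≤ (a * L (e 1)).re := by
    intro a ha
    let p : C(T, ℂ) := (2 : ℂ) • 1 + a • e 1 + conj a • e (-1)
    have hp : ∀ x, p x = ((2 + 2 * (a * e 1 x).re : ℝ) : ℂ) := by
      intro x
      have : conj a * e (-1) x = conj (a * e 1 x) := by rw [map_mul, fourier_neg]
      simp only [p, ContinuousMap.add_apply, ContinuousMap.smul_apply, ContinuousMap.one_apply,
        smul_eq_mul, mul_one]
      rw [this, add_assoc, Complex.add_conj]
      push_cast
      ring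
    have hre : ∀ x, |(a * e 1 x).re| ≤ 1 := fun x =>
      (Complex.abs_re_le_norm _).trans (by rw [norm_mul, ha, norm_e, one_mul])
    have hp4 : ∀ x, ‖p x‖ ≤ 4 := by
      intro x
      rw [hp, Complex.norm_real, Real.norm_eq_abs, abs_le]
      have := abs_le.1 (hre x)
      constructor <;> linarith [this.1, this.2]
    have hk : ∀ k : ℕ, k ≠ 0 → -(4 * (4 / (k : ℝ))) ≤ 2 * (a * L (e 1)).re := by
      intro k hk
      have h1 : L (p * G k) = ((2 * (a * L (e 1)).re : ℝ) : ℂ) := by
        have e1 : p * G k = (2 : ℂ) • G k + a • (e 1 * G k - e 1) +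
            conj a • (e (-1) * G k - e (-1)) + (a • e 1 + conj a • e (-1)) := by
          simp only [p, add_mul, smul_mul_assoc, one_mul, smul_sub]
          abel
        rw [e1]
        simp only [map_add, map_smul, hW _ (G_mem k), hW _ (e_mul_G_sub_mem hk (Or.inl rfl)),
          hW _ (e_mul_G_sub_mem hk (Or.inr rfl)), smul_eq_mul, mul_zero, zero_add, hneg]
        rw [← map_mul, Complex.add_conj]
      have h2 : 0 ≤ (∫ x, (p * G k) x ∂ν).re := by
        have : ∀ x, (p * G k) x =
            (((2 + 2 * (a * e 1 x).re) * ((k : ℝ)⁻¹ * ‖S k x‖ ^ 2) : ℝ) : ℂ) := by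
          intro x
          rw [ContinuousMap.mul_apply, hp, G_apply, ← Complex.ofReal_mul]
        simp only [this]
        rw [integral_complex_ofReal, Complex.ofReal_re]
        refine integral_nonneg fun x => ?_
        have := abs_le.1 (hre x)
        exact mul_nonneg (by linarith [this.1]) (by positivity)
      have h3 : (∫ x, (p * G k) x ∂μ').re ≤ 4 * (4 / (k : ℝ)) :=
        (Complex.re_le_norm _).trans ((norm_integral_le_integral_norm _).trans
          (integral_norm_G_le k p hp4))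
      have h4 := congrArg Complex.re (hL (p * G k))
      rw [h1, Complex.ofReal_re, Complex.sub_re] at h4
      linarith
    have := le_of_tendsto (tendsto_div 4).neg
      ((eventually_ne_atTop 0).mono hk)
    rw [neg_zero] at this
    linarith
  have h1 : L (e 1) = 0 := by
    have a1 := hpos 1 (by simp)
    have a2 := hpos (-1) (by simp)
    have a3 := hpos Complex.I (by simp)
    have a4 := hpos (-Complex.I) (by simp)
    simp only [one_mul, neg_mul, Complex.neg_re, Complex.mul_re, Complex.I_re, Complex.I_im,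
      zero_mul, zero_sub] at a1 a2 a3 a4
    apply Complex.ext <;> simp only [Complex.zero_re, Complex.zero_im] <;> linarith
  have hall : ∀ f, L f = 0 := by
    refine closed_top (LinearMap.ker L.toLinearMap) L.isClosed_ker fun n => ?_
    change L (e n) = 0
    by_cases hn1 : n = 1
    · rw [hn1, h1]
    by_cases hn2 : n = -1
    · rw [hn2, hneg, h1, map_zero]
    exact hW _ (e_mem_W hn1 hn2)
  refine ext_of_forall_integral_eq_of_IsFiniteMeasure fun f => ?_
  have := hall ⟨fun x => (f x : ℂ), by fun_prop⟩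
  rw [hL, sub_eq_zero] at this
  simp only [ContinuousMap.coe_mk] at this
  rw [integral_complex_ofReal, integral_complex_ofReal] at this
  exact_mod_cast this

theorem unique_disc (ν : Measure D) [IsFiniteMeasure ν] (hac : ν ≪ μ)
    (h : ∀ f ∈ A, ∫ s, f s ∂ν = ∫ s, f s ∂μ) : ν = μ := by
  have h0 : ν (range c)ᶜ = 0 := by
    apply hac
    rw [μ, c_emb.map_apply]
    simp
  have h1 : (ν.comap c).map c = ν := by
    rw [c_emb.map_comap]
    exact Measure.restrict_eq_self_of_ae_mem h0
  have : IsFiniteMeasure (ν.comap c) := ⟨by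
    rw [c_emb.comap_apply]; exact measure_lt_top _ _⟩
  have h2 : ν.comap c = μ' := by
    refine unique_circle _ ?_
    rintro _ ⟨_, ⟨f, hf, g, hg, rfl⟩, rfl⟩
    have e1 : ∀ (ρ : Measure D) [IsFiniteMeasure ρ], ∫ s, (f + star g) s ∂ρ =
        ∫ s, f s ∂ρ + conj (∫ s, g s ∂ρ) := by
      intro ρ _
      rw [← integral_star, ← integral_add]
      · rfl
      · exact f.continuous.integrable_of_hasCompactSupport (HasCompactSupport.of_compactSpace _)
      · exact (star g).continuous.integrable_of_hasCompactSupport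
          (HasCompactSupport.of_compactSpace _)
    have e2 : ∫ s, (f + star g) s ∂ν = ∫ s, (f + star g) s ∂μ := by
      rw [e1, e1, h f hf, h g hg]
    rw [← h1, c_emb.integral_map, integral_μ] at e2
    exact e2
  rw [← h1, h2, μ]

/-- the annihilating function -/
noncomputable def hh (s : D) : ℂ := ((s : ℂ) + conj (s : ℂ)) / ((‖(s : ℂ) ^ 3 - 1‖ ^ 2 : ℝ) : ℂ)

instance : Nontrivial T := by
  refine ⟨⟨0, ((1 / 2 : ℝ) : T), fun h => ?_⟩⟩
  have h1 := fourier_add_half_inv_index (T := 1) (n := 1) one_ne_zero one_pos 0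
  have h2 : (((1 : ℝ) / 2 / ((1 : ℤ) : ℝ) : ℝ) : T) = 0 := by
    rw [h]; norm_num
  rw [h2, add_zero, fourier_eval_zero] at h1
  norm_num at h1

theorem w_ne_zero : ∀ᵐ x ∂m, w x ≠ 0 := by
  have hfin : {u : T | 3 • u = 0}.Finite := AddCircle.finite_torsion 1 (by norm_num)
  have h0 : m {u : T | 3 • u = 0} = 0 := hfin.measure_zero m
  refine measure_mono_null (fun x hx => ?_) h0
  have hx' : w x = 0 := by simpa using hx
  have h1 : e 3 x = 1 := by
    have := w_coe x
    rw [hx'] at this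
    have h2 : ‖e 3 x - 1‖ = 0 := pow_eq_zero_iff two_ne_zero |>.1 this.symm
    exact sub_eq_zero.1 (norm_eq_zero.1 h2)
  rw [fourier_apply] at h1
  have h2 : toCircle ((3 : ℤ) • x) = toCircle (0 : T) := by
    rw [toCircle_zero]; exact Subtype.ext h1
  have h3 := AddCircle.injective_toCircle one_ne_zero h2
  exact_mod_cast h3

theorem w_smul_hh : ∀ᵐ x ∂m, w x • hh (c x) = (e 1 + e (-1)) x := by
  filter_upwards [w_ne_zero] with x hx
  have h1 : ((c x : D) : ℂ) = e 1 x := rfl
  have h2 : e 1 x ^ 3 = e 3 x := by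
    rw [← ContinuousMap.pow_apply, e_pow]; norm_num
  have h3 : ((w x : ℝ) : ℂ) ≠ 0 := by exact_mod_cast hx
  rw [hh, h1, h2, ← w_coe, NNReal.smul_def, Complex.real_smul, mul_div_cancel₀ _ h3,
    ContinuousMap.add_apply, fourier_neg]

theorem hh_integrable : Integrable hh μ := by
  rw [μ, c_emb.integrable_map_iff, μ', integrable_withDensity_iff_integrable_smul
    w_continuous.measurable]
  exact (cont_integrable m (e 1 + e (-1)).continuous).congr (w_smul_hh.mono fun x hx => hx.symm)

theorem integral_mul_hh (g : C(D, ℂ)) :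
    ∫ s, g s * hh s ∂μ = ∫ x, (pull g * (e 1 + e (-1))) x ∂m := by
  rw [integral_μ, integral_μ']
  refine integral_congr_ae ?_
  filter_upwards [w_smul_hh] with x hx
  rw [ContinuousMap.mul_apply, ← hx, pull_apply, mul_smul_comm]

theorem integral_e_mul (n : ℤ) : ∫ x, (e n * (e 1 + e (-1))) x ∂m =
    ∫ x, e (n + 1) x ∂m + ∫ x, e (n + -1) x ∂m := by
  rw [mul_add, e_mul, e_mul, ← integral_add (cont_integrable m (e _).continuous)
    (cont_integrable m (e _).continuous)]
  rfl

theorem hh_z : ∫ s, z s * hh s ∂μ = 1 := by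
  rw [integral_mul_hh, pull_z, integral_e_mul, integral_e _ (by norm_num)]
  simp

theorem hh_A {f : C(D, ℂ)} (hf : f ∈ A) : ∫ x, (pull f * (e 1 + e (-1))) x ∂m = 0 := by
  let I : C(T, ℂ) →L[ℂ] ℂ := (L1.integralCLM' ℂ).comp (ContinuousMap.toLp 1 m ℂ)
  have hI : ∀ (f : C(T, ℂ)), I f = ∫ x, f x ∂m := by
    intro f
    change L1.integralCLM' ℂ (ContinuousMap.toLp 1 m ℂ f) = _
    rw [← L1.integral_eq', L1.integral_eq_integral]
    exact integral_congr_ae (ContinuousMap.coeFn_toLp (p := 1) (𝕜 := ℂ) m f)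
  let J : C(D, ℂ) →ₗ[ℂ] ℂ :=
    I.toLinearMap ∘ₗ (LinearMap.mulRight ℂ (e 1 + e (-1))) ∘ₗ pull.toLinearMap
  have hJ : ∀ f, J f = ∫ x, (pull f * (e 1 + e (-1))) x ∂m := fun f => hI _
  have hJc : Continuous J := I.continuous.comp (pull_continuous.mul continuous_const)
  rw [← hJ]
  refine A_induction (LinearMap.ker J) (isClosed_eq hJc continuous_const) (fun n hn => ?_) hf
  rw [LinearMap.mem_ker, hJ, pull_zpow, integral_e_mul, integral_e _ (by omega),
    integral_e _ (by omega), add_zero]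

theorem hh_V {g : C(D, ℂ)} (hg : g ∈ V) : ∫ s, g s * hh s ∂μ = 0 := by
  obtain ⟨f, hf, g, hg, rfl⟩ := hg
  rw [integral_mul_hh, map_add, add_mul]
  have h1 : pull (star g) * (e 1 + e (-1)) = star (pull g * (e 1 + e (-1))) := by
    rw [pull_star, star_mul', star_add, e_star, e_star, neg_neg, add_comm]
  simp only [ContinuousMap.add_apply]
  rw [integral_add (cont_integrable m (map_continuous _)) (cont_integrable m (map_continuous _)),
    h1, integral_star, hh_A hf, hh_A hg]
  simp

end Pool.Agent.P.MP_dbea21_an
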