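import Mathlib

/-!
Representing measures: the abstract Hardy algebra as a double annihilator.
-/

open MeasureTheory Set Filter Topology

namespace Pool.Agent.P.MP_dbea21_an.Rep

variable {S : Type*} [MeasurableSpace S]

/-- Bounded measurable functions. -/
def Bd {E : Type} [NormedAddCommGroup E] [MeasurableSpace E] (F : S → E) : Prop :=
  Measurable F ∧ ∃ B : ℝ, ∀ x, ‖F x‖ ≤ B

theorem Bd.mul {F G : S → ℂ} (hF : Bd F) (hG : Bd G) : Bd fun x => F x * G x := by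
  obtain ⟨h1, B, h2⟩ := hF
  obtain ⟨h3, C, h4⟩ := hG
  refine ⟨h1.mul h3, B * C, fun x => ?_⟩
  rw [norm_mul]
  exact mul_le_mul (h2 x) (h4 x) (norm_nonneg _) ((norm_nonneg _).trans (h2 x))

theorem Bd.sub {F G : S → ℂ} (hF : Bd F) (hG : Bd G) : Bd fun x => F x - G x := by
  obtain ⟨h1, B, h2⟩ := hF
  obtain ⟨h3, C, h4⟩ := hG
  exact ⟨h1.sub h3, B + C, fun x => (norm_sub_le _ _).trans (add_le_add (h2 x) (h4 x))⟩

theorem Bd.conj {F : S → ℂ} (hF : Bd F) : Bd fun x => (starRingEnd ℂ) (F x) := by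
  obtain ⟨h1, B, h2⟩ := hF
  exact ⟨Complex.continuous_conj.measurable.comp h1, B, fun x => by
    rw [Complex.norm_conj]; exact h2 x⟩

theorem bd_const (c : ℂ) : Bd fun _ : S => c := ⟨measurable_const, ‖c‖, fun _ => le_rfl⟩

theorem Bd.ofReal {b : S → ℝ} (hb : Bd b) : Bd fun x => (b x : ℂ) := by
  obtain ⟨h1, B, h2⟩ := hb
  exact ⟨Complex.measurable_ofReal.comp h1, B, fun x => by rw [Complex.norm_real]; exact h2 x⟩

theorem Bd.int_mul {F k : S → ℂ} {m : Measure S} (hF : Bd F) (hk : Integrable k m) :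
    Integrable (fun x => F x * k x) m := by
  obtain ⟨h1, B, h2⟩ := hF
  exact hk.bdd_mul h1.aestronglyMeasurable (.of_forall h2)

theorem Bd.int_mul_real {F k : S → ℝ} {m : Measure S} (hF : Bd F) (hk : Integrable k m) :
    Integrable (fun x => F x * k x) m := by
  obtain ⟨h1, B, h2⟩ := hF
  exact hk.bdd_mul h1.aestronglyMeasurable (.of_forall h2)

theorem Bd.memLp {E : Type} [NormedAddCommGroup E] [MeasurableSpace E] [BorelSpace E]
    [SecondCountableTopology E] {F : S → E} (hF : Bd F) (m : Measure S) [IsFiniteMeasure m]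
    (p : ENNReal) : MemLp F p m := by
  obtain ⟨h1, B, h2⟩ := hF
  exact MemLp.of_bound h1.aestronglyMeasurable B (.of_forall h2)

theorem Bd.int {E : Type} [NormedAddCommGroup E] [MeasurableSpace E] [BorelSpace E]
    [SecondCountableTopology E] {F : S → E} (hF : Bd F) (m : Measure S) [IsFiniteMeasure m] :
    Integrable F m := memLp_one_iff_integrable.1 (hF.memLp m 1)

theorem int_sq {F : S → ℂ} {m : Measure S} (hF : MemLp F 2 m) :
    Integrable (fun x => ‖F x‖ ^ 2) m := hF.norm.integrable_sq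

/-- Uniform integrability of one function. -/
theorem ui {m : Measure S} [IsProbabilityMeasure m] {h : S → ℝ} (hh : Integrable h m) {η : ℝ}
    (hη : 0 < η) {B : ℝ} (hB : 0 < B) : ∃ δ : ℝ, 0 < δ ∧ ∀ r : S → ℝ, Measurable r →
      (∀ x, |r x| ≤ B) → ∫ x, r x ^ 2 ∂m ≤ δ → ∫ x, |r x| * |h x| ∂m ≤ η := by
  have h1 : Tendsto (fun n : ℕ => ∫ x, max (|h x| - n) 0 ∂m) atTop (𝓝 (∫ _x, (0 : ℝ) ∂m)) := by
    refine tendsto_integral_of_dominated_convergence (fun x => |h x|) (fun n => ?_) hh.abs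
      (fun n => .of_forall fun x => ?_) (.of_forall fun x => ?_)
    · exact ((hh.abs.sub (integrable_const _)).pos_part).aestronglyMeasurable
    · rw [Real.norm_eq_abs, abs_of_nonneg (le_max_right _ _)]
      exact max_le (by linarith [(Nat.cast_nonneg n : (0 : ℝ) ≤ n)]) (abs_nonneg _)
    · refine tendsto_const_nhds.congr' ?_
      filter_upwards [tendsto_natCast_atTop_atTop.eventually_ge_atTop |h x|] with n hn
      rw [max_eq_right (by linarith)]
  rw [integral_zero] at h1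
  obtain ⟨n, hn, hn1⟩ := ((h1.eventually (gt_mem_nhds (by positivity : 0 < η / (2 * B)))).and
    (eventually_ge_atTop 1)).exists
  have hn0 : (0 : ℝ) < n := by exact_mod_cast hn1
  refine ⟨η ^ 2 / (4 * n ^ 2), by positivity, fun r hr hb hδ => ?_⟩
  have br : Bd r := ⟨hr, B, hb⟩
  have i1 : Integrable (fun x => r x ^ 2) m := (br.memLp m 2).integrable_sq
  have i2 : Integrable (fun x => max (|h x| - n) 0) m := (hh.abs.sub (integrable_const _)).pos_part
  have i3 : Integrable (fun x => η / 4 + n ^ 2 / η * r x ^ 2) m :=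
    (integrable_const _).add (i1.const_mul _)
  have h2 : ∫ x, |r x| * |h x| ∂m
      ≤ ∫ x, ((η / 4 + n ^ 2 / η * r x ^ 2) + B * max (|h x| - n) 0) ∂m := by
    refine integral_mono_of_nonneg (.of_forall fun x => by positivity) (i3.add (i2.const_mul _))
      (.of_forall fun x => ?_)
    have e1 : |h x| ≤ n + max (|h x| - n) 0 := by linarith [le_max_left (|h x| - n) 0]
    have e2 : |r x| * n ≤ η / 4 + n ^ 2 / η * r x ^ 2 := by
      rw [← sq_abs (r x), ← sub_nonneg]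
      have : η / 4 + n ^ 2 / η * |r x| ^ 2 - |r x| * n = (η / 2 - n * |r x|) ^ 2 / η := by
        field_simp
        ring
      rw [this]
      positivity
    have e3 := mul_le_mul_of_nonneg_left e1 (abs_nonneg (r x))
    have e4 := mul_le_mul_of_nonneg_right (hb x) (le_max_right (|h x| - n) 0)
    simp only
    linarith
  rw [integral_add i3 (i2.const_mul _), integral_add (integrable_const _) (i1.const_mul _),
    integral_const_mul, integral_const_mul] at h2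
  simp only [integral_const, probReal_univ, one_smul] at h2
  have e5 : (n : ℝ) ^ 2 / η * ∫ x, r x ^ 2 ∂m ≤ η / 4 :=
    (mul_le_mul_of_nonneg_left hδ (by positivity)).trans (le_of_eq (by field_simp))
  have e6 : B * ∫ x, max (|h x| - n) 0 ∂m ≤ η / 2 :=
    (mul_le_mul_of_nonneg_left hn.le hB.le).trans (le_of_eq (by field_simp))
  linarith

/-- The same for an absolutely continuous measure. -/
theorem ui_meas {m ν : Measure S} [IsProbabilityMeasure m] [IsFiniteMeasure ν] (hν : ν ≪ m)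
    {η : ℝ} (hη : 0 < η) {B : ℝ} (hB : 0 < B) : ∃ δ : ℝ, 0 < δ ∧ ∀ r : S → ℝ, Measurable r →
      (∀ x, |r x| ≤ B) → ∫ x, r x ^ 2 ∂m ≤ δ → ∫ x, |r x| ∂ν ≤ η := by
  obtain ⟨δ, hδ, h⟩ := ui (Measure.integrable_toReal_rnDeriv (μ := ν) (ν := m)) hη hB
  refine ⟨δ, hδ, fun r hr hb h2 => le_trans (le_of_eq ?_) (h r hr hb h2)⟩
  rw [← integral_toReal_rnDeriv_mul hν]
  refine integral_congr_ae (.of_forall fun x => ?_)
  simp only [abs_of_nonneg (ENNReal.toReal_nonneg (a := ν.rnDeriv m x)), mul_comm]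

theorem sq_pt (z w : ℂ) {η : ℝ} (hη : 0 < η) :
    ‖w‖ ^ 2 ≤ (1 + η) * ‖z‖ ^ 2 + (1 + 1 / η) * ‖z - w‖ ^ 2 := by
  have h1 : ‖w‖ ≤ ‖z‖ + ‖z - w‖ := by
    have := norm_sub_le z (z - w)
    rwa [sub_sub_cancel] at this
  have h2 : ‖w‖ ^ 2 ≤ (‖z‖ + ‖z - w‖) ^ 2 := by gcongr
  have h3 : (1 + η) * ‖z‖ ^ 2 + (1 + 1 / η) * ‖z - w‖ ^ 2 - (‖z‖ + ‖z - w‖) ^ 2
      = (η * ‖z‖ - ‖z - w‖) ^ 2 / η := by
    field_simp
    ring
  have h4 : 0 ≤ (η * ‖z‖ - ‖z - w‖) ^ 2 / η := by positivity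
  linarith

theorem sq_le {m : Measure S} {b : S → ℝ} (hb : Measurable b) {B : ℝ} (h0 : ∀ x, 0 ≤ b x)
    (hB : ∀ x, b x ≤ B) {F G : S → ℂ} (hF : MemLp F 2 m) (hG : MemLp G 2 m) {η : ℝ}
    (hη : 0 < η) : ∫ x, b x * ‖G x‖ ^ 2 ∂m
      ≤ (1 + η) * ∫ x, b x * ‖F x‖ ^ 2 ∂m + (1 + 1 / η) * B * ∫ x, ‖F x - G x‖ ^ 2 ∂m := by
  have bb : Bd b := ⟨hb, B, fun x => by rw [Real.norm_eq_abs, abs_of_nonneg (h0 x)]; exact hB x⟩
  have i1 := bb.int_mul_real (int_sq hF)
  have i2 : Integrable (fun x => ‖F x - G x‖ ^ 2) m := int_sq (hF.sub hG)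
  rw [← integral_const_mul, ← integral_const_mul, ← integral_add (i1.const_mul _) (i2.const_mul _)]
  refine integral_mono (bb.int_mul_real (int_sq hG)) ((i1.const_mul _).add (i2.const_mul _))
    fun x => ?_
  have e1 := mul_le_mul_of_nonneg_left (sq_pt (F x) (G x) hη) (h0 x)
  have e2 : b x * ((1 + 1 / η) * ‖F x - G x‖ ^ 2) ≤ B * ((1 + 1 / η) * ‖F x - G x‖ ^ 2) :=
    mul_le_mul_of_nonneg_right (hB x) (by positivity)
  simp only
  linarith

/-- A limiting argument: first `δ → 0`, then `η → 0`. -/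
theorem lim_le {R Q K : ℝ}
    (h : ∀ η δ : ℝ, 0 < η → η ≤ 1 → 0 < δ → R ≤ (1 + η) * Q + K / η * δ) : R ≤ Q := by
  have h1 : ∀ η : ℝ, 0 < η → η ≤ 1 → R ≤ (1 + η) * Q := fun η hη h1 => by
    have t : Tendsto (fun δ : ℝ => (1 + η) * Q + K / η * δ) (𝓝[>] 0)
        (𝓝 ((1 + η) * Q + K / η * 0)) :=
      (by fun_prop : Continuous fun δ : ℝ => (1 + η) * Q + K / η * δ).continuousWithinAt
    rw [mul_zero, add_zero] at t
    exact ge_of_tendsto t (eventually_nhdsWithin_of_forall fun δ hδ => h η δ hη h1 hδ)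
  have t : Tendsto (fun η : ℝ => (1 + η) * Q) (𝓝[>] 0) (𝓝 ((1 + 0) * Q)) :=
    (by fun_prop : Continuous fun η : ℝ => (1 + η) * Q).continuousWithinAt
  rw [add_zero, one_mul] at t
  refine ge_of_tendsto t ?_
  filter_upwards [Ioc_mem_nhdsGT (zero_lt_one' ℝ)] with η hη using h1 η hη.1 hη.2

theorem one_add_le {η : ℝ} (h0 : 0 < η) (h1 : η ≤ 1) : 1 + 1 / η ≤ 2 / η := by
  have : 1 ≤ 1 / η := (one_le_div h0).2 h1
  have e : 2 / η = 1 / η + 1 / η := by ring
  linarith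

theorem le_sq_of_approx {m : Measure S} {b : S → ℝ} (hb : Measurable b) {B : ℝ}
    (h0 : ∀ x, 0 ≤ b x) (hB : ∀ x, b x ≤ B) (hB0 : 0 ≤ B) {F : S → ℂ} (hF : MemLp F 2 m) {R : ℝ}
    (h : ∀ δ : ℝ, 0 < δ → ∃ G : S → ℂ, MemLp G 2 m ∧ ∫ x, ‖F x - G x‖ ^ 2 ∂m ≤ δ ∧
      R ≤ ∫ x, b x * ‖G x‖ ^ 2 ∂m) : R ≤ ∫ x, b x * ‖F x‖ ^ 2 ∂m := by
  refine lim_le (K := 2 * B) fun η δ hη h1 hδ => ?_
  obtain ⟨G, hG, e1, e2⟩ := h δ hδ
  refine e2.trans ((sq_le hb h0 hB hF hG hη).trans (add_le_add le_rfl ?_))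
  calc (1 + 1 / η) * B * ∫ x, ‖F x - G x‖ ^ 2 ∂m ≤ 2 / η * B * δ :=
        mul_le_mul (mul_le_mul_of_nonneg_right (one_add_le hη h1) hB0) e1
          (integral_nonneg fun x => by positivity) (by positivity)
    _ = _ := by ring

variable [TopologicalSpace S] [CompactSpace S] [BorelSpace S]

theorem bd_cont {E : Type} [NormedAddCommGroup E] [MeasurableSpace E] [BorelSpace E]
    (f : C(S, E)) : Bd f := ⟨f.continuous.measurable, ‖f‖, f.norm_coe_le_norm⟩

/-- Integrable annihilators of `A`. -/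
def Ann (A : Subalgebra ℂ C(S, ℂ)) (m : Measure S) (k : S → ℂ) : Prop :=
  Integrable k m ∧ ∀ f ∈ A, ∫ x, f x * k x ∂m = 0

/-- The abstract Hardy algebra. -/
def InH (A : Subalgebra ℂ C(S, ℂ)) (m : Measure S) (F : S → ℂ) : Prop :=
  Bd F ∧ ∀ k, Ann A m k → ∫ x, F x * k x ∂m = 0

/-- `m` represents the point `s₀`. -/
def IsRep (A : Subalgebra ℂ C(S, ℂ)) (s₀ : S) (m : Measure S) : Prop :=
  ∀ f ∈ A, ∫ x, f x ∂m = f s₀

variable {A : Subalgebra ℂ C(S, ℂ)} {s₀ : S} {m ν σ : Measure S}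

theorem InH.of_mem {f : C(S, ℂ)} (hf : f ∈ A) : InH A m f := ⟨bd_cont f, fun _ hk => hk.2 f hf⟩

theorem InH.const (c : ℂ) : InH A m fun _ => c :=
  InH.of_mem (f := algebraMap ℂ C(S, ℂ) c) (A.algebraMap_mem c)

omit [CompactSpace S] [BorelSpace S] in
theorem InH.sub {F G : S → ℂ} (hF : InH A m F) (hG : InH A m G) : InH A m fun x => F x - G x := by
  refine ⟨hF.1.sub hG.1, fun k hk => ?_⟩
  simp only [sub_mul]
  rw [integral_sub (hF.1.int_mul hk.1) (hG.1.int_mul hk.1), hF.2 k hk, hG.2 k hk, sub_zero]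

theorem InH.ann {F k : S → ℂ} (hF : InH A m F) (hk : Ann A m k) : Ann A m fun x => F x * k x := by
  refine ⟨hF.1.int_mul hk.1, fun f hf => ?_⟩
  have h1 : Ann A m fun x => f x * k x := ⟨(bd_cont f).int_mul hk.1, fun g hg => by
    have := hk.2 (g * f) (A.mul_mem hg hf)
    simpa only [ContinuousMap.mul_apply, mul_assoc] using this⟩
  simpa only [mul_left_comm] using hF.2 _ h1

theorem InH.mul {F G : S → ℂ} (hF : InH A m F) (hG : InH A m G) : InH A m fun x => F x * G x :=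
  ⟨hF.1.mul hG.1, fun k hk => by simpa only [mul_assoc] using hF.2 _ (hG.ann hk)⟩

theorem InH.pow {F : S → ℂ} (hF : InH A m F) (n : ℕ) : InH A m fun x => F x ^ n := by
  induction n with
  | zero => simpa only [pow_zero] using InH.const 1
  | succ n ih => simpa only [pow_succ] using ih.mul hF

theorem InH.integral_mul [IsProbabilityMeasure m] (hm : IsRep A s₀ m) {F G : S → ℂ}
    (hF : InH A m F) (hG : InH A m G) : ∫ x, F x * G x ∂m = (∫ x, F x ∂m) * ∫ x, G x ∂m := by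
  have key : ∀ {F G : S → ℂ}, InH A m F → Bd G → (Ann A m fun x => G x - ∫ y, G y ∂m) →
      ∫ x, F x * G x ∂m = (∫ x, F x ∂m) * ∫ x, G x ∂m := fun {F G} hF hG h => by
    have := hF.2 _ h
    simp only [mul_sub] at this
    rwa [integral_sub (hF.1.int_mul (hG.int m)) ((hF.1.int m).mul_const _), integral_mul_const,
      sub_eq_zero] at this
  refine key hF hG.1 ⟨(hG.1.int m).sub (integrable_const _), fun f hf => ?_⟩
  have h1 := key hG (bd_cont f) ⟨((bd_cont f).int m).sub (integrable_const _), fun g hg => by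
    simp only [mul_sub]
    rw [integral_sub ((bd_cont g).int_mul ((bd_cont f).int m)) (((bd_cont g).int m).mul_const _),
      integral_mul_const, hm f hf, hm g hg]
    exact sub_eq_zero.2 (hm (g * f) (A.mul_mem hg hf))⟩
  simp only [mul_sub]
  rw [integral_sub ((bd_cont f).int_mul (hG.1.int m)) (((bd_cont f).int m).mul_const _),
    integral_mul_const, sub_eq_zero, mul_comm, ← h1]
  simp only [mul_comm]

theorem InH.integral_pow [IsProbabilityMeasure m] (hm : IsRep A s₀ m) {F : S → ℂ}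
    (hF : InH A m F) (n : ℕ) : ∫ x, F x ^ n ∂m = (∫ x, F x ∂m) ^ n := by
  induction n with
  | zero => simp
  | succ n ih => simp only [pow_succ]; rw [(hF.pow n).integral_mul hm hF, ih]

omit [CompactSpace S] [BorelSpace S] in
theorem InH.mono [IsFiniteMeasure m] [IsFiniteMeasure σ] (h : σ ≪ m) {F : S → ℂ}
    (hF : InH A m F) : InH A σ F := by
  refine ⟨hF.1, fun k hk => ?_⟩
  have h1 : Ann A m fun x => (σ.rnDeriv m x).toReal • k x :=
    ⟨(integrable_rnDeriv_smul_iff h).2 hk.1, fun f hf => by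
      simp only [mul_smul_comm]
      rw [integral_rnDeriv_smul h, hk.2 f hf]⟩
  have := hF.2 _ h1
  simp only [mul_smul_comm] at this
  rwa [integral_rnDeriv_smul h] at this

theorem InH.integral_eq [IsFiniteMeasure m] [IsFiniteMeasure ν] (h : ν ≪ m) (hm : IsRep A s₀ m)
    (hν : IsRep A s₀ ν) {F : S → ℂ} (hF : InH A m F) : ∫ x, F x ∂ν = ∫ x, F x ∂m := by
  have i1 : Integrable (fun x => (ν.rnDeriv m x).toReal • (1 : ℂ)) m :=
    (integrable_rnDeriv_smul_iff h).2 (integrable_const _)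
  have key : ∀ G : S → ℂ, Bd G → ∫ x, G x * ((ν.rnDeriv m x).toReal • (1 : ℂ) - 1) ∂m
      = ∫ x, G x ∂ν - ∫ x, G x ∂m := fun G hG => by
    simp only [mul_sub]
    rw [integral_sub (hG.int_mul i1) (hG.int_mul (integrable_const _))]
    simp only [mul_smul_comm, mul_one]
    rw [integral_rnDeriv_smul h]
  have := hF.2 _ ⟨i1.sub (integrable_const 1), fun f hf => by
    have := key f (bd_cont f)
    rw [hm f hf, hν f hf, sub_self] at this
    exact this⟩
  exact sub_eq_zero.1 ((key F hF.1).symm.trans this)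

omit [TopologicalSpace S] [CompactSpace S] [BorelSpace S] in
theorem norm_sq_L2 (v : Lp ℂ 2 m) : ‖v‖ ^ 2 = ∫ x, ‖v x‖ ^ 2 ∂m := by
  rw [← real_inner_self_eq_norm_sq, L2.inner_def]
  simp only [real_inner_self_eq_norm_sq]

theorem InH.approx [IsFiniteMeasure m] {F : S → ℂ} (hF : InH A m F) {δ : ℝ} (hδ : 0 < δ) :
    ∃ f ∈ A, ∫ x, ‖F x - f x‖ ^ 2 ∂m ≤ δ := by
  let K : Submodule ℂ (Lp ℂ 2 m) :=
    A.toSubmodule.map (ContinuousMap.toLp 2 m ℂ : C(S, ℂ) →L[ℂ] Lp ℂ 2 m).toLinearMap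
  have h1 : (hF.1.memLp m 2).toLp F ∈ K.topologicalClosure := by
    rw [← Submodule.orthogonal_orthogonal_eq_closure, Submodule.mem_orthogonal]
    intro y hy
    have h2 : Ann A m fun x => (starRingEnd ℂ) (y x) := by
      refine ⟨?_, fun f hf => ?_⟩
      · exact (Complex.conjCLE.toContinuousLinearMap.integrable_comp
          ((Lp.memLp y).integrable one_le_two))
      · have := (Submodule.mem_orthogonal' K y).1 hy _ ⟨f, hf, rfl⟩
        rw [L2.inner_def] at this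
        rw [← this]
        refine integral_congr_ae ?_
        filter_upwards [ContinuousMap.coeFn_toLp (p := 2) (𝕜 := ℂ) m f] with x hx
        rw [RCLike.inner_apply]
        exact congrArg (· * _) hx.symm
    rw [L2.inner_def]
    refine Eq.trans (integral_congr_ae ?_) (hF.2 _ h2)
    filter_upwards [(hF.1.memLp m 2).coeFn_toLp] with x hx
    rw [RCLike.inner_apply, hx]
  obtain ⟨_, ⟨f, hf, rfl⟩, hlt⟩ := Metric.mem_closure_iff.1 h1 (√δ) (Real.sqrt_pos.2 hδ)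
  refine ⟨f, hf, ?_⟩
  rw [dist_eq_norm] at hlt
  have h3 := (Real.lt_sqrt (norm_nonneg _)).1 hlt
  rw [norm_sq_L2] at h3
  refine le_trans (le_of_eq (integral_congr_ae ?_)) h3.le
  filter_upwards [Lp.coeFn_sub ((hF.1.memLp m 2).toLp F) (ContinuousMap.toLp 2 m ℂ f),
    (hF.1.memLp m 2).coeFn_toLp, ContinuousMap.coeFn_toLp (p := 2) (𝕜 := ℂ) m f] with x e1 e2 e3
  change _ = ‖((hF.1.memLp m 2).toLp F - ContinuousMap.toLp 2 m ℂ f) x‖ ^ 2
  rw [e1, Pi.sub_apply, e2, e3]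

/-- An `L²` inequality on `A` passes to the Hardy algebra. -/
theorem InH.transfer [IsProbabilityMeasure m] [IsFiniteMeasure ν] [IsFiniteMeasure σ] (h : ν ≪ m)
    (hσ : ∀ g : S → ℝ, Bd g → (∀ x, 0 ≤ g x) → ∫ x, g x ∂σ ≤ 2 * ∫ x, g x ∂m)
    (hle : ∀ f ∈ A, ∫ x, ‖f x‖ ^ 2 ∂ν ≤ ∫ x, ‖f x‖ ^ 2 ∂σ) {F : S → ℂ} (hF : InH A m F) :
    ∫ x, ‖F x‖ ^ 2 ∂ν ≤ ∫ x, ‖F x‖ ^ 2 ∂σ := by
  obtain ⟨hFm, B₀, hB₀⟩ := hF.1
  obtain ⟨B, hB, hB1⟩ : ∃ B : ℝ, (∀ x, ‖F x‖ ≤ B) ∧ 0 < B :=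
    ⟨max B₀ 1, fun x => (hB₀ x).trans (le_max_left _ _), lt_max_of_lt_right one_pos⟩
  refine le_of_forall_pos_le_add fun ε hε => ?_
  obtain ⟨δ₀, hδ₀, hui⟩ := ui_meas h hε (by positivity : 0 < B ^ 2)
  rw [← sub_le_iff_le_add]
  have := le_sq_of_approx (m := σ) (b := fun _ => 1) measurable_const (fun _ => zero_le_one)
    (fun _ => le_rfl) zero_le_one (hF.1.memLp σ 2) (R := ∫ x, ‖F x‖ ^ 2 ∂ν - ε) fun δ hδ => ?_
  · simpa only [one_mul] using this
  obtain ⟨f, hf, e1⟩ := hF.approx (lt_min (half_pos hδ) (by positivity : 0 < δ₀ / (4 * B ^ 2)))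
  have bf := hF.1.sub (bd_cont f)
  have bs : Bd fun x => ‖F x - f x‖ ^ 2 := by
    obtain ⟨h1, C, h2⟩ := bf
    exact ⟨h1.norm.pow_const 2, C ^ 2, fun x => by
      rw [norm_pow, norm_norm]; gcongr; exact h2 x⟩
  refine ⟨f, (bd_cont f).memLp σ 2, ?_, ?_⟩
  · have := hσ _ bs fun x => by positivity
    linarith [min_le_left (δ / 2) (δ₀ / (4 * B ^ 2))]
  · simp only [one_mul]
    refine le_trans ?_ (hle f hf)
    have hr : Measurable fun x => max (‖F x‖ ^ 2 - ‖f x‖ ^ 2) 0 :=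
      ((hFm.norm.pow_const 2).sub (f.continuous.measurable.norm.pow_const 2)).max measurable_const
    have hb : ∀ x, |max (‖F x‖ ^ 2 - ‖f x‖ ^ 2) 0| ≤ B ^ 2 := fun x => by
      rw [abs_of_nonneg (le_max_right _ _)]
      have : ‖F x‖ ^ 2 ≤ B ^ 2 := by gcongr; exact hB x
      exact max_le (by linarith [sq_nonneg ‖f x‖]) (by positivity)
    have br : Bd fun x => max (‖F x‖ ^ 2 - ‖f x‖ ^ 2) 0 := ⟨hr, _, hb⟩
    have e2 := hui _ hr hb (by
      calc ∫ x, max (‖F x‖ ^ 2 - ‖f x‖ ^ 2) 0 ^ 2 ∂m ≤ ∫ x, 4 * B ^ 2 * ‖F x - f x‖ ^ 2 ∂m := by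
            refine integral_mono (br.memLp m 2).integrable_sq ((bs.int m).const_mul _) fun x => ?_
            have e3 : max (‖F x‖ ^ 2 - ‖f x‖ ^ 2) 0 ≤ 2 * B * ‖F x - f x‖ := by
              refine max_le ?_ (by positivity)
              have e4 := norm_sub_norm_le (F x) (f x)
              have e5 := hB x
              rcases le_total ‖F x‖ ‖f x‖ with e6 | e6
              · have : ‖F x‖ ^ 2 ≤ ‖f x‖ ^ 2 := by gcongr
                have : 0 ≤ 2 * B * ‖F x - f x‖ := by positivity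
                linarith
              · nlinarith [norm_nonneg (f x), norm_nonneg (F x - f x)]
            calc max (‖F x‖ ^ 2 - ‖f x‖ ^ 2) 0 ^ 2 ≤ (2 * B * ‖F x - f x‖) ^ 2 := by
                  gcongr
              _ = _ := by ring
        _ ≤ δ₀ := by
            rw [integral_const_mul]
            exact (mul_le_mul_of_nonneg_left (e1.trans (min_le_right _ _)) (by positivity)).trans
              (le_of_eq (by field_simp)))
    have i1 := int_sq ((bd_cont f).memLp ν 2)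
    have e7 : ∫ x, ‖F x‖ ^ 2 ∂ν ≤ ∫ x, (‖f x‖ ^ 2 + |max (‖F x‖ ^ 2 - ‖f x‖ ^ 2) 0|) ∂ν :=
      integral_mono (int_sq (hF.1.memLp ν 2)) (i1.add (br.int ν).abs) fun x => by
        have := (le_max_left _ _).trans (le_abs_self (max (‖F x‖ ^ 2 - ‖f x‖ ^ 2) 0))
        simp only
        linarith
    rw [integral_add i1 (br.int ν).abs] at e7
    linarith

end Pool.Agent.P.MP_dbea21_an.Rep
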