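import Mathlib

/-!
Definitions used in the statement on representing measures.
-/

open MeasureTheory
open scoped ENNReal

namespace Pool.Agent.P.MP_dbea21_an.Rep

variable {S : Type*} [TopologicalSpace S] [MeasurableSpace S]

/-- The functions `f + conj g` with `f, g ∈ A`. -/
def sumSet (A : Set C(S, ℂ)) : Set (S → ℂ) :=
  {h | ∃ f ∈ A, ∃ g ∈ A, h = fun s => f s + starRingEnd ℂ (g s)}

/-- The set `K(μ)`: the closure, in the weak topology on finite positive measures, of the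
measures absolutely continuous with respect to `μ` and equivalent to `μ`. -/
def KSet [OpensMeasurableSpace S] (A : Set C(S, ℂ)) (μ : FiniteMeasure S) :
    Set (FiniteMeasure S) :=
  closure {ν : FiniteMeasure S | (ν : Measure S) ≪ (μ : Measure S) ∧
    ∀ f ∈ A, ∫ s, f s ∂(ν : Measure S) = ∫ s, f s ∂(μ : Measure S)}

/-- `V` is dense in `L^∞(σ)` for the weak topology induced by `L¹(σ)`: every basic weak-star
neighbourhood of every `φ ∈ L^∞(σ)` meets `V`. -/
def WeakStarDense (V : Set (S → ℂ)) (σ : Measure S) : Prop :=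
  ∀ φ : S → ℂ, MemLp φ ∞ σ → ∀ (n : ℕ) (h : Fin n → S → ℂ), (∀ i, Integrable (h i) σ) →
    ∀ ε : ℝ, 0 < ε → ∃ v ∈ V, ∀ i, ‖∫ s, (φ s - v s) * h i s ∂σ‖ < ε

/-- `∫ log |f| dμ` in `[-∞, ∞)`, as the integral of `log⁺ |f|` minus that of `log⁻ |f|`
(with `log 0 = -∞`). -/
noncomputable def logInt (μ : Measure S) (f : S → ℂ) : EReal :=
  ((∫⁻ s, (ENNReal.log ‖f s‖ₑ).toENNReal ∂μ : ℝ≥0∞) : EReal) -
    ((∫⁻ s, (-ENNReal.log ‖f s‖ₑ).toENNReal ∂μ : ℝ≥0∞) : EReal)

end Pool.Agent.P.MP_dbea21_an.Rep
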