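import Pool.Agent.P.MP_dbea21_an.RBasic

/-!
Duality: elements of the Hardy algebra with prescribed majorant.
-/

open MeasureTheory Set Filter Topology

namespace Pool.Agent.P.MP_dbea21_an.Rep

theorem iterate {X : Type*} [NormedAddCommGroup X] [NormedSpace ℂ X] [CompleteSpace X]
    {V N : Submodule ℂ X} (hV : IsClosed (V : Set X)) (hN : IsClosed (N : Set X))
    (h : ∀ (k : X) (ε : ℝ), 0 < ε → ∃ v ∈ V, ∃ n ∈ N, ‖v‖ ≤ ‖k‖ ∧ ‖k - (v + n)‖ ≤ ε)
    (k : X) {ε : ℝ} (hε : 0 < ε) : ∃ v ∈ V, k - v ∈ N ∧ ‖v‖ ≤ ‖k‖ + ε := by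
  choose! v hv n hn h1 h2 using h
  let b : ℕ → ℝ := fun j => ε / 2 / 2 ^ j
  have hb : ∀ j, 0 < b j := fun j => by positivity
  let e : ℕ → X := fun j => Nat.rec k (fun j x => x - (v x (b j) + n x (b j))) j
  have e1 : ∀ j, e (j + 1) = e j - (v (e j) (b j) + n (e j) (b j)) := fun j => rfl
  have e2 : ∀ j, ‖e (j + 1)‖ ≤ b j := fun j => h2 _ _ (hb j)
  have e3 : ∀ j, ‖v (e (j + 1)) (b (j + 1))‖ ≤ b j := fun j => (h1 _ _ (hb _)).trans (e2 j)
  have hs : HasSum b ε := hasSum_geometric_two' ε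
  have s1 : Summable fun j => ‖v (e (j + 1)) (b (j + 1))‖ :=
    Summable.of_nonneg_of_le (fun _ => norm_nonneg _) e3 hs.summable
  have s2 : Summable fun j => ‖v (e j) (b j)‖ := (summable_nat_add_iff 1).1 s1
  have t1 := s2.of_norm.hasSum.tendsto_sum_nat
  have t2 : Tendsto e atTop (𝓝 0) := by
    rw [← tendsto_add_atTop_iff_nat 1, tendsto_zero_iff_norm_tendsto_zero]
    exact squeeze_zero (fun _ => norm_nonneg _) e2 hs.summable.tendsto_atTop_zero
  refine ⟨∑' j, v (e j) (b j), ?_, ?_, ?_⟩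
  · exact hV.mem_of_tendsto t1 (.of_forall fun J => V.sum_mem fun j _ => hv _ _ (hb j))
  · have t3 := (tendsto_const_nhds (x := k)).sub t1 |>.sub t2
    rw [sub_zero] at t3
    refine hN.mem_of_tendsto t3 (.of_forall fun J => ?_)
    induction J with
    | zero => simp [e]
    | succ J ih =>
      have : k - ∑ i ∈ Finset.range (J + 1), v (e i) (b i) - e (J + 1)
          = k - ∑ i ∈ Finset.range J, v (e i) (b i) - e J + n (e J) (b J) := by
        rw [Finset.sum_range_succ, e1]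
        abel
      rw [this]
      exact N.add_mem ih (hn _ _ (hb J))
  · refine (norm_tsum_le_tsum_norm s2).trans ?_
    rw [s2.tsum_eq_zero_add]
    exact add_le_add (h1 _ _ (hb 0)) ((s1.tsum_le_tsum e3 hs.summable).trans hs.tsum_eq.le)

variable {S : Type*} [MeasurableSpace S] {m : Measure S}

theorem ae_le_of_test [IsFiniteMeasure m] {u : S → ℂ} (hm : Measurable u) (hu : MemLp u 2 m)
    {Z : Set S} (hZ : MeasurableSet Z) {r : ℝ} (hr : 0 ≤ r)
    (h : ∀ y : S → ℂ, MemLp y 2 m → (∀ x, x ∉ Z → y x = 0) →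
      ‖∫ x, u x * y x ∂m‖ ≤ r * ∫ x, ‖y x‖ ∂m) : ∀ᵐ x ∂m.restrict Z, ‖u x‖ ≤ r := by
  have hA : MeasurableSet (Z ∩ {t | r < ‖u t‖}) :=
    hZ.inter (measurableSet_lt measurable_const hm.norm)
  have hc : MemLp (fun x => (starRingEnd ℂ) (u x)) 2 m :=
    Complex.conjCLE.toContinuousLinearMap.comp_memLp' hu
  have h2 := h _ (hc.indicator hA) fun x hx => indicator_of_notMem (fun h => hx h.1) _
  have i1 : Integrable (indicator (Z ∩ {t | r < ‖u t‖}) fun t => ‖u t‖ ^ 2) m :=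
    (int_sq hu).indicator hA
  have i2 : Integrable (indicator (Z ∩ {t | r < ‖u t‖}) fun t => ‖u t‖) m :=
    (hu.integrable one_le_two).norm.indicator hA
  have e1 : ∫ t, u t * indicator (Z ∩ {t | r < ‖u t‖}) (fun x => (starRingEnd ℂ) (u x)) t ∂m =
      ((∫ t, indicator (Z ∩ {t | r < ‖u t‖}) (fun t => ‖u t‖ ^ 2) t ∂m : ℝ) : ℂ) := by
    rw [← integral_complex_ofReal]
    refine integral_congr_ae (.of_forall fun t => ?_)
    by_cases h : t ∈ Z ∩ {t | r < ‖u t‖}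
    · simp only [indicator_of_mem h, Complex.mul_conj', Complex.ofReal_pow]
    · simp only [indicator_of_notMem h, mul_zero, Complex.ofReal_zero]
  have e2 : ∫ t, ‖indicator (Z ∩ {t | r < ‖u t‖}) (fun x => (starRingEnd ℂ) (u x)) t‖ ∂m
      = ∫ t, indicator (Z ∩ {t | r < ‖u t‖}) (fun t => ‖u t‖) t ∂m := by
    refine integral_congr_ae (.of_forall fun t => ?_)
    by_cases h : t ∈ Z ∩ {t | r < ‖u t‖}
    · simp only [indicator_of_mem h, Complex.norm_conj]
    · simp only [indicator_of_notMem h, norm_zero]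
  rw [e1, e2, Complex.norm_real] at h2
  have h3 := (le_abs_self _).trans h2
  rw [← sub_nonpos, ← integral_const_mul, ← integral_sub i1 (i2.const_mul r)] at h3
  have h4 : ∀ t, 0 ≤ indicator (Z ∩ {t | r < ‖u t‖}) (fun t => ‖u t‖ ^ 2) t -
      r * indicator (Z ∩ {t | r < ‖u t‖}) (fun t => ‖u t‖) t := fun t => by
    by_cases h : t ∈ Z ∩ {t | r < ‖u t‖}
    · simp only [indicator_of_mem h]
      have : r < ‖u t‖ := h.2
      nlinarith
    · simp only [indicator_of_notMem h, mul_zero, sub_self, le_refl]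
  have h5 := (integral_eq_zero_iff_of_nonneg h4 (i1.sub (i2.const_mul r))).1
    (le_antisymm h3 (integral_nonneg h4))
  rw [ae_restrict_iff' hZ]
  filter_upwards [h5] with t ht hz
  by_contra h
  have h6 : t ∈ Z ∩ {t | r < ‖u t‖} := ⟨hz, not_le.1 h⟩
  simp only [indicator_of_mem h6, Pi.zero_apply] at ht
  have : r < ‖u t‖ := h6.2
  nlinarith

/-- Integration against a bounded function, as a functional on `L¹`. -/
theorem exists_pair {ψ : S → ℂ} (hψ : Bd ψ) (m : Measure S) :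
    ∃ Ψ : Lp ℂ 1 m →L[ℂ] ℂ, ∀ y, Ψ y = ∫ t, ψ t * y t ∂m := by
  have hint : ∀ y : Lp ℂ 1 m, Integrable (fun t => ψ t * y t) m := fun y =>
    hψ.int_mul (L1.integrable_coeFn y)
  obtain ⟨-, B, hB⟩ := hψ
  let Ψ : Lp ℂ 1 m →ₗ[ℂ] ℂ :=
    { toFun := fun y => ∫ t, ψ t * y t ∂m
      map_add' := fun y y' => by
        rw [← integral_add (hint y) (hint y')]
        exact integral_congr_ae ((Lp.coeFn_add y y').mono fun t ht => by
          simp only [ht, Pi.add_apply, mul_add])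
      map_smul' := fun c y => by
        rw [RingHom.id_apply, smul_eq_mul, ← integral_const_mul]
        exact integral_congr_ae ((Lp.coeFn_smul c y).mono fun t ht => by
          simp only [ht, Pi.smul_apply, smul_eq_mul, mul_left_comm]) }
  have hΨ : ∀ y, ‖Ψ y‖ ≤ B * ‖y‖ := fun y => by
    rw [L1.norm_eq_integral_norm, ← integral_const_mul]
    refine norm_integral_le_of_norm_le ((L1.integrable_coeFn y).norm.const_mul B)
      (.of_forall fun t => ?_)
    rw [norm_mul]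
    exact mul_le_mul_of_nonneg_right (hB t) (norm_nonneg _)
  exact ⟨Ψ.mkContinuous B hΨ, fun y => rfl⟩

theorem l1_dual [IsFiniteMeasure m] (Λ : Lp ℂ 1 m →L[ℂ] ℂ) {r : ℝ} (hr : 0 ≤ r)
    (hΛ : ∀ y, ‖Λ y‖ ≤ r * ‖y‖) : ∃ ψ : S → ℂ, Measurable ψ ∧ (∀ t, ‖ψ t‖ ≤ r) ∧
      ∀ y : Lp ℂ 1 m, Λ y = ∫ t, ψ t * y t ∂m := by
  let ι : Lp ℂ 2 m →ₗ[ℂ] Lp ℂ 1 m :=
    { toFun := fun y => ⟨y.1, Lp.antitone one_le_two y.2⟩
      map_add' := fun _ _ => rfl
      map_smul' := fun _ _ => rfl }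
  have hι : ∀ y, (ι y : S → ℂ) = y := fun _ => rfl
  have hb : ∀ y, ‖(Λ.toLinearMap ∘ₗ ι) y‖ ≤
      (r * (m univ ^ (1 / (1 : ENNReal).toReal - 1 / (2 : ENNReal).toReal)).toReal) * ‖y‖ :=
    fun y => by
    refine (hΛ (ι y)).trans ?_
    rw [mul_assoc]
    refine mul_le_mul_of_nonneg_left ?_ hr
    rw [Lp.norm_def, Lp.norm_def, hι, mul_comm, ← ENNReal.toReal_mul]
    refine ENNReal.toReal_mono (ENNReal.mul_ne_top (Lp.eLpNorm_ne_top y)
      (ENNReal.rpow_ne_top_of_nonneg (by norm_num) (measure_ne_top _ _))) ?_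
    exact eLpNorm_le_eLpNorm_mul_rpow_measure_univ one_le_two (Lp.aestronglyMeasurable y)
  obtain ⟨u, hu⟩ : ∃ u : Lp ℂ 2 m, ∀ y : Lp ℂ 2 m,
      Λ (ι y) = ∫ t, (starRingEnd ℂ) (u t) * y t ∂m := by
    refine ⟨(InnerProductSpace.toDual ℂ _).symm ((Λ.toLinearMap ∘ₗ ι).mkContinuous _ hb),
      fun y => ?_⟩
    have := InnerProductSpace.toDual_symm_apply (𝕜 := ℂ) (x := y)
      (y := (Λ.toLinearMap ∘ₗ ι).mkContinuous _ hb)
    rw [L2.inner_def] at this
    simp only [RCLike.inner_apply, mul_comm (y _)] at this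
    exact this.symm
  have hm : Measurable fun t => (starRingEnd ℂ) (u t) :=
    Complex.continuous_conj.measurable.comp (Lp.stronglyMeasurable u).measurable
  have hle : ∀ᵐ t ∂m, ‖(starRingEnd ℂ) (u t)‖ ≤ r := by
    have := ae_le_of_test hm (Complex.conjCLE.toContinuousLinearMap.comp_memLp' (Lp.memLp u))
      MeasurableSet.univ hr fun y hy _ => by
        have h2 := hΛ (ι (hy.toLp y))
        rw [hu, L1.norm_eq_integral_norm, hι,
          integral_congr_ae (g := fun t => (starRingEnd ℂ) (u t) * y t)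
            (hy.coeFn_toLp.mono fun t ht => by simp only [ht]),
          integral_congr_ae (f := fun t => ‖hy.toLp y t‖) (g := fun t => ‖y t‖)
            (hy.coeFn_toLp.mono fun t ht => by simp only [ht])] at h2
        exact h2
    rwa [Measure.restrict_univ] at this
  let ψ : S → ℂ := fun t => if ‖(starRingEnd ℂ) (u t)‖ ≤ r then (starRingEnd ℂ) (u t) else 0
  have hψm : Measurable ψ := Measurable.ite (measurableSet_le hm.norm measurable_const)
    hm measurable_const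
  have hψb : ∀ t, ‖ψ t‖ ≤ r := fun t => by
    simp only [ψ]
    split_ifs with h
    · exact h
    · simpa using hr
  obtain ⟨Ψ, hΨ⟩ := exists_pair ⟨hψm, r, hψb⟩ m
  refine ⟨ψ, hψm, hψb, fun y => ?_⟩
  rw [← hΨ]
  refine Lp.induction ENNReal.one_ne_top (fun y => Λ y = Ψ y)
    (fun c s hs hμ => ?_) (fun f g hf hg _ h1 h2 => by rw [map_add, map_add, h1, h2])
    (isClosed_eq Λ.continuous Ψ.continuous) y
  have e : (Lp.simpleFunc.indicatorConst 1 hs hμ.ne c : Lp ℂ 1 m) =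
      ι (indicatorConstLp 2 hs hμ.ne c) := by
    refine Lp.ext ?_
    rw [hι, Lp.simpleFunc.coe_indicatorConst]
    exact indicatorConstLp_coeFn.trans indicatorConstLp_coeFn.symm
  rw [e, hu, hΨ]
  refine integral_congr_ae (hle.mono fun t ht => ?_)
  simp only [ψ, if_pos ht, hι]

theorem integral_dens {E : Type} [NormedAddCommGroup E] [NormedSpace ℝ E] {ρ : S → ℝ}
    (hρ : AEMeasurable ρ m) (h0 : ∀ x, 0 ≤ ρ x) (g : S → E) :
    ∫ x, g x ∂(m.withDensity fun x => ENNReal.ofReal (ρ x)) = ∫ x, ρ x • g x ∂m := by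
  rw [integral_withDensity_eq_integral_toReal_smul₀ hρ.ennreal_ofReal
    (.of_forall fun _ => ENNReal.ofReal_lt_top)]
  simp only [ENNReal.toReal_ofReal (h0 _)]

theorem first_var {z : ℂ} {c : ℝ} (hc : 0 ≤ c)
    (h : ∀ t : ℂ, 0 ≤ 2 * (t * z).re + ‖t‖ ^ 2 * c) : z = 0 := by
  have h1 := h (((-(1 / (c + 1)) : ℝ) : ℂ) * (starRingEnd ℂ) z)
  rw [mul_assoc, Complex.conj_mul', norm_mul, Complex.norm_conj, Complex.norm_real,
    ← Complex.ofReal_pow, ← Complex.ofReal_mul, Complex.ofReal_re, mul_pow, Real.norm_eq_abs,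
    sq_abs] at h1
  have h2 : 2 * (-(1 / (c + 1)) * ‖z‖ ^ 2) + (-(1 / (c + 1))) ^ 2 * ‖z‖ ^ 2 * c
      = -((c + 2) / (c + 1) ^ 2 * ‖z‖ ^ 2) := by
    field_simp
    ring
  rw [h2] at h1
  by_contra hz
  have : 0 < (c + 2) / (c + 1) ^ 2 * ‖z‖ ^ 2 := by positivity
  linarith

variable [TopologicalSpace S] [CompactSpace S] [BorelSpace S] {A : Subalgebra ℂ C(S, ℂ)} {s₀ : S}

/-- A complex representing measure dominates a positive one. -/
theorem trick [IsFiniteMeasure m] {k : S → ℂ} (hk : Integrable k m) {a : S → ℝ}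
    (ha : Measurable a) {B : ℝ} (h0 : ∀ x, 0 ≤ a x) (hB : ∀ x, a x ≤ B)
    (h : ∀ f ∈ A, ∫ x, f x * (a x * k x) ∂m = f s₀) :
    ∃ ν : Measure S, IsProbabilityMeasure ν ∧ ν ≪ m ∧ IsRep A s₀ ν ∧
      1 ≤ (∫ x, ‖k x‖ ∂m) * ∫ x, a x ∂ν := by
  let ω : Measure S := m.withDensity fun x => ENNReal.ofReal ‖k x‖
  have : IsFiniteMeasure ω := isFiniteMeasure_withDensity_ofReal hk.norm.2
  have hω : ∀ g : S → ℝ, ∫ x, g x ∂ω = ∫ x, ‖k x‖ * g x ∂m :=
    integral_dens hk.norm.aemeasurable fun _ => norm_nonneg _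
  let T : C(S, ℂ) →L[ℂ] Lp ℂ 2 ω := ContinuousMap.toLp 2 ω ℂ
  have hT : ∀ g : C(S, ℂ), (T g : S → ℂ) =ᵐ[ω] g := fun g => ContinuousMap.coeFn_toLp ω g
  have hTn : ∀ g : C(S, ℂ), ‖T g‖ ^ 2 = ∫ x, ‖g x‖ ^ 2 ∂ω := fun g => by
    rw [norm_sq_L2]
    exact integral_congr_ae ((hT g).mono fun x hx => by simp only [hx])
  let D : Set C(S, ℂ) := {g | g ∈ A ∧ g s₀ = 1}
  have hD : Convex ℝ D := by
    rintro x ⟨hx, hx1⟩ y ⟨hy, hy1⟩ s t - - hst
    refine ⟨A.add_mem (A.smul_mem hx (s : ℂ)) (A.smul_mem hy (t : ℂ)), ?_⟩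
    simp only [ContinuousMap.add_apply, ContinuousMap.smul_apply, hx1, hy1, ← add_smul, hst,
      one_smul]
  have h1D : (1 : C(S, ℂ)) ∈ D := ⟨A.one_mem, rfl⟩
  have hC : Convex ℝ (closure (T '' D)) :=
    (hD.linear_image (T.toLinearMap.restrictScalars ℝ)).closure
  have hne : (closure (T '' D)).Nonempty := ⟨T 1, subset_closure ⟨1, h1D, rfl⟩⟩
  obtain ⟨v, hv, hmin⟩ := exists_norm_eq_iInf_of_complete_convex
    hne isClosed_closure.isComplete hC 0
  have hmin' : ∀ g ∈ D, ‖v‖ ^ 2 ≤ ∫ x, ‖g x‖ ^ 2 ∂ω := fun g hg => by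
    have := ciInf_le (f := fun w : closure (T '' D) => ‖(0 : Lp ℂ 2 ω) - w‖)
      ⟨0, by rintro _ ⟨w, rfl⟩; exact norm_nonneg _⟩ ⟨T g, subset_closure ⟨g, hg, rfl⟩⟩
    rw [← hmin, zero_sub, zero_sub, norm_neg, norm_neg] at this
    rw [← hTn]
    gcongr
  have key : ∀ (b : S → ℝ) (C R : ℝ), Measurable b → (∀ x, 0 ≤ b x) → (∀ x, b x ≤ C) →
      (∀ g ∈ D, R ≤ ∫ x, b x * ‖g x‖ ^ 2 ∂ω) → R ≤ ∫ x, b x * ‖v x‖ ^ 2 ∂ω :=
    fun b C R hb b0 bC hR => by
    refine le_sq_of_approx hb b0 bC ((b0 s₀).trans (bC s₀)) (Lp.memLp v) fun δ hδ => ?_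
    obtain ⟨_, ⟨g, hg, rfl⟩, hlt⟩ := Metric.mem_closure_iff.1 hv (√δ) (Real.sqrt_pos.2 hδ)
    refine ⟨g, (bd_cont g).memLp ω 2, ?_, hR g hg⟩
    rw [dist_eq_norm] at hlt
    have h3 := (Real.lt_sqrt (norm_nonneg _)).1 hlt
    rw [norm_sq_L2] at h3
    refine le_trans (le_of_eq (integral_congr_ae ?_)) h3.le
    filter_upwards [Lp.coeFn_sub v (T g), hT g] with x e1 e3
    rw [e1, Pi.sub_apply, e3]
  have iv : Integrable (fun x => ‖v x‖ ^ 2) ω := int_sq (Lp.memLp v)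
  have ba : Bd a := ⟨ha, B, fun x => by rw [Real.norm_eq_abs, abs_of_nonneg (h0 x)]; exact hB x⟩
  have k1 : 1 ≤ ∫ x, a x * ‖v x‖ ^ 2 ∂ω := key a B 1 ha h0 hB fun g hg => by
    have e := h (g * g) (A.mul_mem hg.1 hg.1)
    have e1 : (1 : ℝ) = ‖∫ x, (g * g) x * (a x * k x) ∂m‖ := by
      rw [e, ContinuousMap.mul_apply, hg.2, one_mul, norm_one]
    rw [e1, hω]
    refine (norm_integral_le_integral_norm _).trans (le_of_eq (integral_congr_ae
      (.of_forall fun x => ?_)))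
    simp only [ContinuousMap.mul_apply, norm_mul, Complex.norm_real, Real.norm_eq_abs,
      abs_of_nonneg (h0 x)]
    ring
  have k2 : ∀ f ∈ A, f s₀ = 0 → ∫ x, (‖v x‖ ^ 2 : ℝ) • f x ∂ω = 0 := fun f hf hf0 => by
    have j1 : Integrable (fun x => (‖v x‖ ^ 2 : ℝ) • f x) ω :=
      iv.smul_bdd ‖f‖ f.continuous.measurable.aestronglyMeasurable (.of_forall f.norm_coe_le_norm)
    have bf : Bd fun x => ‖f x‖ ^ 2 := bd_cont (⟨fun x => ‖f x‖ ^ 2, by fun_prop⟩ : C(S, ℝ))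
    have j2 := bf.int_mul_real iv
    refine first_var (c := ∫ x, ‖f x‖ ^ 2 * ‖v x‖ ^ 2 ∂ω) (integral_nonneg fun x => by positivity)
      fun t => ?_
    have e := key (fun x => ‖1 + t * f x‖ ^ 2) ((1 + ‖t‖ * ‖f‖) ^ 2) (‖v‖ ^ 2)
      (by fun_prop : Continuous fun x => ‖1 + t * f x‖ ^ 2).measurable (fun x => by positivity)
      (fun x => by
        have : ‖1 + t * f x‖ ≤ 1 + ‖t‖ * ‖f‖ := by
          refine (norm_add_le _ _).trans ?_
          rw [norm_one, norm_mul]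
          gcongr
          exact f.norm_coe_le_norm x
        gcongr)
      (fun g hg => by
        have := hmin' ((1 + t • f) * g) ⟨A.mul_mem (A.add_mem A.one_mem (A.smul_mem hf t)) hg.1,
          by simp [hg.2, hf0]⟩
        simpa only [ContinuousMap.mul_apply, ContinuousMap.add_apply, ContinuousMap.one_apply,
          ContinuousMap.smul_apply, smul_eq_mul, norm_mul, mul_pow] using this)
    have j3 : Integrable (fun x => 2 * (t * ((‖v x‖ ^ 2 : ℝ) • f x)).re) ω :=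
      (j1.const_mul t).re.const_mul 2
    have e2 : ∫ x, ‖1 + t * f x‖ ^ 2 * ‖v x‖ ^ 2 ∂ω = ∫ x, (‖v x‖ ^ 2 +
        (2 * (t * ((‖v x‖ ^ 2 : ℝ) • f x)).re + ‖t‖ ^ 2 * (‖f x‖ ^ 2 * ‖v x‖ ^ 2))) ∂ω := by
      refine integral_congr_ae (.of_forall fun x => ?_)
      have e3 : ‖1 + t * f x‖ ^ 2 = 1 + 2 * (t * f x).re + ‖t‖ ^ 2 * ‖f x‖ ^ 2 := by
        rw [← mul_pow, ← norm_mul, Complex.sq_norm, Complex.sq_norm, Complex.normSq_apply,
          Complex.normSq_apply]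
        simp only [Complex.add_re, Complex.add_im, Complex.one_re, Complex.one_im]
        ring
      simp only [e3, mul_smul_comm, Complex.smul_re, smul_eq_mul]
      ring
    have e4 : ∫ x, (t * ((‖v x‖ ^ 2 : ℝ) • f x)).re ∂ω
        = (t * ∫ x, (‖v x‖ ^ 2 : ℝ) • f x ∂ω).re := by
      rw [← integral_const_mul]
      exact integral_re (j1.const_mul t)
    have j4 : Integrable (fun x => 2 * (t * ((‖v x‖ ^ 2 : ℝ) • f x)).re
        + ‖t‖ ^ 2 * (‖f x‖ ^ 2 * ‖v x‖ ^ 2)) ω := j3.add (j2.const_mul _)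
    rw [e2, integral_add iv j4, integral_add j3 (j2.const_mul _),
      integral_const_mul, integral_const_mul, e4, ← norm_sq_L2] at e
    linarith
  have hd : 0 < ‖v‖ ^ 2 := by
    refine lt_of_le_of_ne (by positivity) fun hz => ?_
    have e : ∫ x, a x * ‖v x‖ ^ 2 ∂ω ≤ ∫ x, B * ‖v x‖ ^ 2 ∂ω :=
      integral_mono (ba.int_mul_real iv) (iv.const_mul B) fun x =>
        mul_le_mul_of_nonneg_right (hB x) (by positivity)
    rw [integral_const_mul, ← norm_sq_L2, ← hz, mul_zero] at e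
    linarith
  have hd1 : ‖v‖ ^ 2 ≤ ∫ x, ‖k x‖ ∂m := by
    have := hmin' 1 h1D
    rw [hω] at this
    simpa using this
  let ν : Measure S := ω.withDensity fun x => ENNReal.ofReal ((‖v‖ ^ 2)⁻¹ * ‖v x‖ ^ 2)
  have : IsFiniteMeasure ν := isFiniteMeasure_withDensity_ofReal (iv.const_mul _).2
  have hν : ∀ g : S → ℝ, ∫ x, g x ∂ν = (‖v‖ ^ 2)⁻¹ * ∫ x, g x * ‖v x‖ ^ 2 ∂ω := fun g => by
    rw [integral_dens (iv.const_mul _).aemeasurable fun _ => by positivity, ← integral_const_mul]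
    refine integral_congr_ae (.of_forall fun x => ?_)
    simp only [smul_eq_mul]
    ring
  have hp : IsProbabilityMeasure ν := by
    have := hν fun _ => 1
    simp only [one_mul, ← norm_sq_L2, inv_mul_cancel₀ hd.ne', integral_const, smul_eq_mul,
      mul_one] at this
    exact ⟨(ENNReal.toReal_eq_one_iff _).1 this⟩
  refine ⟨ν, hp, (withDensity_absolutelyContinuous _ _).trans (withDensity_absolutelyContinuous _ _),
    fun f hf => ?_, ?_⟩
  · have e := k2 (f - algebraMap ℂ _ (f s₀)) (A.sub_mem hf (A.algebraMap_mem _)) (by simp)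
    have e1 : ∫ x, (f x - f s₀) ∂ν = 0 := by
      rw [integral_dens (iv.const_mul _).aemeasurable fun _ => by positivity]
      simp only [mul_smul]
      rw [integral_smul]
      exact smul_eq_zero_of_right _ (by simpa using e)
    rw [integral_sub ((bd_cont f).int ν) (integrable_const _), sub_eq_zero] at e1
    simpa using e1
  · rw [hν]
    calc (1 : ℝ) ≤ ‖v‖ ^ 2 * ((‖v‖ ^ 2)⁻¹ * ∫ x, a x * ‖v x‖ ^ 2 ∂ω) := by
          rwa [mul_inv_cancel_left₀ hd.ne']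
      _ ≤ _ := mul_le_mul_of_nonneg_right hd1 (by positivity)

/-- The duality lemma. -/
theorem lemA [IsProbabilityMeasure m] (hm : IsRep A s₀ m) {Z : Set S} (hZ : MeasurableSet Z)
    {a : S → ℝ} (ha : Measurable a) {δ B : ℝ} (hδ : 0 < δ) (h0 : ∀ x, δ ≤ a x) (hB : ∀ x, a x ≤ B)
    (hI : ∀ G, InH A m G → ∀ r : ℝ, 0 ≤ r → (∀ᵐ x ∂m.restrict Z, ‖G x‖ * a x ≤ r) →
      ∀ᵐ x ∂m, ‖G x‖ * a x ≤ r) {c : ℝ} (hc0 : 0 ≤ c)
    (hc : ∀ ν : Measure S, IsProbabilityMeasure ν → ν ≪ m.restrict Z → IsRep A s₀ ν →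
      ∫ x, a x ∂ν ≤ c) :
    ∃ G, InH A m G ∧ (∀ x, ‖G x‖ * a x ≤ 1) ∧ ∃ r : ℝ, ∫ x, G x ∂m = r ∧ 1 ≤ r * c := by
  have ap : ∀ x, 0 < a x := fun x => hδ.trans_le (h0 x)
  have an : ∀ x, (a x : ℂ) ≠ 0 := fun x => Complex.ofReal_ne_zero.2 (ap x).ne'
  have ba : Bd fun x => (a x : ℂ) := Bd.ofReal
    ⟨ha, B, fun x => by rw [Real.norm_eq_abs, abs_of_pos (ap x)]; exact hB x⟩
  have bi : Bd fun x => (a x : ℂ)⁻¹ := ⟨ba.1.inv, δ⁻¹, fun x => by
    rw [norm_inv, Complex.norm_real, Real.norm_eq_abs, abs_of_pos (ap x)]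
    exact inv_anti₀ hδ (h0 x)⟩
  choose P hP using fun f : A => exists_pair ((bd_cont f.1).mul ba) m
  let N : Submodule ℂ (Lp ℂ 1 m) := ⨅ f : A, (P f).ker
  have memN : ∀ y, y ∈ N ↔ ∀ f : A, P f y = 0 := fun y => by
    simp only [N, Submodule.mem_iInf, LinearMap.mem_ker, ContinuousLinearMap.coe_coe]
  have hN : IsClosed (N : Set (Lp ℂ 1 m)) := by
    have : (N : Set (Lp ℂ 1 m)) = ⋂ f : A, {y | P f y = 0} := by
      ext y
      simpa only [SetLike.mem_coe, mem_iInter, mem_ofPred_eq] using memN y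
    rw [this]
    exact isClosed_iInter fun f => isClosed_eq (P f).continuous continuous_const
  let V : Submodule ℂ (Lp ℂ 1 m) := (LpToLpRestrictCLM S ℂ ℂ m 1 Zᶜ).ker
  have memV : ∀ y, y ∈ V ↔ ∀ᵐ x ∂m, x ∉ Z → y x = 0 := fun y => by
    rw [← show (∀ᵐ x ∂m.restrict Zᶜ, y x = 0) ↔ ∀ᵐ x ∂m, x ∉ Z → y x = 0 from
      ae_restrict_iff' hZ.compl]
    change LpToLpRestrictCLM S ℂ ℂ m 1 Zᶜ y = 0 ↔ _
    rw [Lp.eq_zero_iff_ae_eq_zero]
    exact ⟨fun h => (LpToLpRestrictCLM_coeFn ℂ Zᶜ y).symm.trans h,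
      fun h => (LpToLpRestrictCLM_coeFn ℂ Zᶜ y).trans h⟩
  have hV : IsClosed (V : Set (Lp ℂ 1 m)) := (LpToLpRestrictCLM S ℂ ℂ m 1 Zᶜ).isClosed_ker
  have toH : ∀ ψ : S → ℂ, Bd ψ → (∀ n ∈ N, ∫ x, ψ x * n x ∂m = 0) →
      InH A m fun x => ψ x * (a x : ℂ)⁻¹ := fun ψ hψ h => by
    refine ⟨hψ.mul bi, fun k hk => ?_⟩
    have i1 := bi.int_mul hk.1
    have := h (i1.toL1 _) ((memN _).2 fun f => by
      rw [hP, ← hk.2 f.1 f.2]
      refine integral_congr_ae (i1.coeFn_toL1.mono fun x hx => ?_)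
      simp only [hx]
      field_simp [an x])
    rw [← this]
    refine integral_congr_ae (i1.coeFn_toL1.mono fun x hx => ?_)
    simp only [hx, mul_assoc]
  have nrm : ∀ (ψ : S → ℂ) (x : S), ‖ψ x * (a x : ℂ)⁻¹‖ * a x = ‖ψ x‖ := fun ψ x => by
    rw [norm_mul, norm_inv, Complex.norm_real, Real.norm_eq_abs, abs_of_pos (ap x),
      inv_mul_cancel_right₀ (ap x).ne']
  have approx : ∀ (k : Lp ℂ 1 m) (ε : ℝ), 0 < ε →
      ∃ v ∈ V, ∃ n ∈ N, ‖v‖ ≤ ‖k‖ ∧ ‖k - (v + n)‖ ≤ ε := fun k ε hε => by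
    let D : Set (Lp ℂ 1 m) := {y | ∃ v ∈ V, ∃ n ∈ N, ‖v‖ ≤ ‖k‖ ∧ y = v + n}
    have hD : Convex ℝ D := by
      rintro _ ⟨v, hv, n, hn, h1, rfl⟩ _ ⟨v', hv', n', hn', h1', rfl⟩ s t hs ht hst
      refine ⟨s • v + t • v', V.add_mem (V.smul_of_tower_mem s hv) (V.smul_of_tower_mem t hv'),
        s • n + t • n', N.add_mem (N.smul_of_tower_mem s hn) (N.smul_of_tower_mem t hn'), ?_, ?_⟩
      · refine (norm_add_le _ _).trans ?_
        rw [norm_smul, norm_smul, Real.norm_of_nonneg hs, Real.norm_of_nonneg ht]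
        calc s * ‖v‖ + t * ‖v'‖ ≤ s * ‖k‖ + t * ‖k‖ := by gcongr
          _ = ‖k‖ := by rw [← add_mul, hst, one_mul]
      · rw [smul_add, smul_add]
        abel
    suffices hk : k ∈ closure D by
      obtain ⟨_, ⟨v, hv, n, hn, h1, rfl⟩, hlt⟩ := Metric.mem_closure_iff.1 hk ε hε
      exact ⟨v, hv, n, hn, h1, by rw [← dist_eq_norm]; exact hlt.le⟩
    by_contra hk
    obtain ⟨Λ, u, h1, h2⟩ := RCLike.geometric_hahn_banach_closed_point (𝕜 := ℂ) hD.closure
      isClosed_closure hk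
    simp only [RCLike.re_to_complex] at h1 h2
    have hu : 0 < u := by
      simpa using h1 0 (subset_closure ⟨0, V.zero_mem, 0, N.zero_mem, by simp, by simp⟩)
    have hk0 : 0 < ‖k‖ := by
      rw [norm_pos_iff]
      rintro rfl
      simp at h2
      linarith
    have hΛN : ∀ n ∈ N, Λ n = 0 := fun n hn => by
      by_contra hne
      have := h1 (((u : ℂ) / Λ n) • n) (subset_closure
        ⟨0, V.zero_mem, _, N.smul_mem _ hn, by simp, (zero_add _).symm⟩)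
      rw [map_smul, smul_eq_mul, div_mul_cancel₀ _ hne, Complex.ofReal_re] at this
      exact lt_irrefl _ this
    have hΛV : ∀ v ∈ V, ‖Λ v‖ ≤ u / ‖k‖ * ‖v‖ := fun v hv => by
      by_cases hz : Λ v = 0
      · rw [hz, norm_zero]
        positivity
      have hv0 : 0 < ‖v‖ := by
        rw [norm_pos_iff]
        rintro rfl
        exact hz (map_zero Λ)
      have hl : 0 < ‖Λ v‖ := norm_pos_iff.2 hz
      have := h1 ((((‖k‖ / ‖v‖ * ‖Λ v‖ : ℝ) : ℂ) / Λ v) • v) (subset_closure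
        ⟨_, V.smul_mem _ hv, 0, N.zero_mem, by
          rw [norm_smul, norm_div, Complex.norm_real, Real.norm_of_nonneg (by positivity)]
          exact le_of_eq (by field_simp), (add_zero _).symm⟩)
      rw [map_smul, smul_eq_mul, div_mul_cancel₀ _ hz, Complex.ofReal_re, div_mul_eq_mul_div,
        div_lt_iff₀ hv0] at this
      rw [div_mul_eq_mul_div, le_div_iff₀ hk0]
      linarith
    obtain ⟨ψ, hψm, hψb, hψ⟩ := l1_dual Λ (norm_nonneg Λ) Λ.le_opNorm
    have bψ : Bd ψ := ⟨hψm, _, hψb⟩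
    have h3 := ae_le_of_test hψm (bψ.memLp m 2) hZ (by positivity : 0 ≤ u / ‖k‖) fun y hy hy0 => by
      have i1 := hy.integrable one_le_two
      have := hΛV (i1.toL1 y) ((memV _).2 (i1.coeFn_toL1.mono fun x hx hz => by
        rw [hx, hy0 x hz]))
      rwa [hψ, L1.norm_of_fun_eq_integral_norm, integral_congr_ae (g := fun t => ψ t * y t)
        (i1.coeFn_toL1.mono fun x hx => by simp only [hx])] at this
    have h4 := hI _ (toH ψ bψ fun n hn => by rw [← hψ, hΛN n hn]) (u / ‖k‖) (by positivity)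
      (h3.mono fun x hx => by rwa [nrm])
    have h5 : ‖Λ k‖ ≤ u / ‖k‖ * ‖k‖ := by
      rw [hψ]
      nth_rewrite 2 [L1.norm_eq_integral_norm]
      rw [← integral_const_mul]
      refine norm_integral_le_of_norm_le ((L1.integrable_coeFn k).norm.const_mul _)
        (h4.mono fun x hx => ?_)
      rw [nrm] at hx
      rw [norm_mul]
      exact mul_le_mul_of_nonneg_right hx (norm_nonneg _)
    rw [div_mul_cancel₀ _ hk0.ne'] at h5
    linarith [Complex.re_le_norm (Λ k)]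
  have i0 := bi.int m
  have hP0 : ∀ f : A, P f (i0.toL1 _) = f.1 s₀ := fun f => by
    rw [hP, ← hm f.1 f.2]
    refine integral_congr_ae (i0.coeFn_toL1.mono fun x hx => ?_)
    simp only [hx]
    field_simp [an x]
  have hd : 1 ≤ ‖N.mkQL (i0.toL1 _)‖ * c := by
    refine le_of_forall_pos_le_add fun ε hε => ?_
    have hε' : 0 < ε / (2 * (c + 1)) := by positivity
    obtain ⟨k, hk, hk1⟩ := Submodule.Quotient.norm_mk_lt (N.mkQL (i0.toL1 _)) hε'
    obtain ⟨v, hv, hv1, hv2⟩ := iterate hV hN approx k hε'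
    have hk2 : k - i0.toL1 _ ∈ N := (Submodule.Quotient.eq N).1 hk
    have hv0 := (memV v).1 hv
    obtain ⟨ν, hν, hν1, hν2, hν3⟩ := trick (m := m.restrict Z) (A := A) (s₀ := s₀)
      (L1.integrable_coeFn v).restrict ha (fun x => (ap x).le) hB fun f hf => by
        rw [setIntegral_eq_integral_of_ae_compl_eq_zero (hv0.mono fun x hx hz => by
          rw [hx hz, mul_zero, mul_zero])]
        have e1 := (memN _).1 hv1 ⟨f, hf⟩
        have e2 := (memN _).1 hk2 ⟨f, hf⟩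
        rw [map_sub, sub_eq_zero] at e1 e2
        rw [← hP0 ⟨f, hf⟩, ← e2, e1, hP]
        simp only [mul_assoc]
    rw [setIntegral_eq_integral_of_ae_compl_eq_zero (hv0.mono fun x hx hz => by
      rw [hx hz, norm_zero]), ← L1.norm_eq_integral_norm] at hν3
    have e3 : ‖v‖ * ∫ x, a x ∂ν ≤ (‖N.mkQL (i0.toL1 _)‖ + ε / (c + 1)) * c := by
      refine mul_le_mul ?_ (hc ν hν hν1 hν2) (integral_nonneg fun x => (ap x).le) (by positivity)
      have : ε / (c + 1) = ε / (2 * (c + 1)) + ε / (2 * (c + 1)) := by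
        field_simp
        ring
      linarith
    have e4 : ε / (c + 1) * c ≤ ε := by
      rw [div_mul_eq_mul_div, div_le_iff₀ (by positivity)]
      nlinarith
    linarith
  obtain ⟨l, hl, hl'⟩ := exists_dual_vector'' ℂ (N.mkQL (i0.toL1 _))
  obtain ⟨ψ, hψm, hψb, hψ⟩ := l1_dual (l.comp N.mkQL) zero_le_one fun y => by
    refine (l.le_opNorm _).trans ?_
    exact mul_le_mul hl (Submodule.Quotient.norm_mk_le N _) (norm_nonneg _) zero_le_one
  refine ⟨_, toH ψ ⟨hψm, 1, hψb⟩ fun n hn => ?_, fun x => by rw [nrm]; exact hψb x, _, ?_, hd⟩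
  · rw [← hψ]
    change l (Submodule.Quotient.mk n) = 0
    rw [(Submodule.Quotient.mk_eq_zero N).2 hn, map_zero]
  · refine Eq.trans ?_ ((hψ (i0.toL1 _)).symm.trans hl')
    exact integral_congr_ae (i0.coeFn_toL1.mono fun x hx => by simp only [hx])

end Pool.Agent.P.MP_dbea21_an.Rep
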