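import Pool.Agent.P.MP_dbea21_an.RMain

/-!
A unique representing measure has no real integrable annihilator.
-/

open MeasureTheory Set Filter Topology

namespace Pool.Agent.P.MP_dbea21_an.Rep

variable {S : Type*} [MeasurableSpace S] [TopologicalSpace S] [CompactSpace S] [BorelSpace S]
  {A : Subalgebra ℂ C(S, ℂ)} {s₀ : S} {μ σ : Measure S}

/-- `σ` is the only representing measure that is absolutely continuous with respect to `σ`. -/
def Uniq (A : Subalgebra ℂ C(S, ℂ)) (s₀ : S) (σ : Measure S) : Prop :=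
  IsRep A s₀ σ ∧ ∀ ν : Measure S, IsProbabilityMeasure ν → ν ≪ σ → IsRep A s₀ ν → ν = σ

theorem Uniq.good [IsProbabilityMeasure σ] (h : Uniq A s₀ σ) {u : S → ℝ} (hu : Measurable u)
    (h1 : ∀ x, |u x| ≤ 1) (h0 : ∫ x, u x ∂σ = 0) : Good A σ u := fun s hs hs1 =>
  lemA h.1 MeasurableSet.univ (a := fun x => Real.exp (s * u x)) (hu.const_mul s).exp
    (Real.exp_pos (-1)) (fun x => (exp_ge h1 hs hs1 x).1) (fun x => (exp_ge h1 hs hs1 x).2)
    (fun G _ r _ hr => by rwa [Measure.restrict_univ] at hr) (by positivity) fun ν hν hν1 hν2 => by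
      rw [Measure.restrict_univ] at hν1
      have e1 := int_exp_le (m := σ) hu h1 hs hs1
      rw [h.2 ν hν hν1 hν2]
      rwa [h0, mul_zero, add_zero] at e1

theorem Good.better [IsProbabilityMeasure σ] (hσ : IsRep A s₀ σ) {u : S → ℝ} (h : Good A σ u)
    {s ε : ℝ} (hs : 0 < s) (hs1 : s ≤ 1) (hε : 0 < ε) : ∃ G, InH A σ G ∧
      (∀ x, ‖G x‖ * Real.exp (s * u x) ≤ 1) ∧ ∃ r : ℝ, ∫ x, G x ∂σ = r ∧ 1 - ε ≤ r := by
  obtain ⟨n, hn⟩ := exists_nat_one_div_lt hε
  obtain ⟨N, hN⟩ : ∃ N : ℝ, N = (n : ℝ) + 1 := ⟨_, rfl⟩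
  have N1 : 1 ≤ N := by rw [hN]; linarith [(Nat.cast_nonneg n : (0 : ℝ) ≤ n)]
  have N0 : 0 < N := by linarith
  have t1 : s / N ≤ 1 / N := by gcongr
  have t2 : 1 / N ≤ 1 := (div_le_one N0).2 N1
  obtain ⟨G, hG, hb, r, hr, hr1⟩ := h (s / N) (by positivity) (t1.trans t2)
  refine ⟨_, hG.pow (n + 1), fun x => ?_, r ^ (n + 1), ?_, ?_⟩
  · have e : s * u x = ((n + 1 : ℕ) : ℝ) * (s / N * u x) := by
      push_cast
      rw [← hN]
      field_simp
    rw [e, Real.exp_nat_mul, norm_pow, ← mul_pow]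
    exact pow_le_one₀ (by positivity) (hb x)
  · rw [hG.integral_pow hσ, hr, Complex.ofReal_pow]
  · have e1 : (s / N) ^ 2 ≤ (1 / N) ^ 2 := by gcongr
    have e2 : (1 / N) ^ 2 ≤ 1 := pow_le_one₀ (by positivity) t2
    have e3 : 1 + -(1 / N) ^ 2 ≤ r := by linarith [r_ge hr1]
    have e4 := one_add_mul_le_pow (a := -(1 / N) ^ 2) (by linarith) (n + 1)
    have e5 : ((n + 1 : ℕ) : ℝ) * -(1 / N) ^ 2 = -(1 / N) := by
      push_cast
      rw [← hN]
      field_simp
    rw [e5] at e4
    rw [← hN] at hn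
    calc 1 - ε ≤ 1 + -(1 / N) := by linarith
      _ ≤ _ := e4
      _ ≤ _ := pow_le_pow_left₀ (by linarith) e3 _

theorem pt_est {z w : ℂ} {t : ℝ} (ht : |t| ≤ 1 / 2) (hz : ‖z‖ * Real.exp t ≤ 1)
    (hw : ‖w‖ * Real.exp (-t) ≤ 1) :
    ‖(starRingEnd ℂ) w - (Real.exp (2 * t) : ℝ) * z‖ ≤ 6 ∧
      ‖(starRingEnd ℂ) w - (Real.exp (2 * t) : ℝ) * z‖ ^ 2 ≤ 3 * (2 - 2 * (w * z).re) := by
  have e0 : 0 < Real.exp t := Real.exp_pos t
  have e1 : Real.exp (2 * t) = Real.exp t ^ 2 := by rw [two_mul, Real.exp_add, sq]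
  have e2 : ‖w‖ ≤ Real.exp t := by simpa using le_exp_neg hw
  have e3 : Real.exp t ≤ 3 := exp_le_three (by linarith)
  have e4 : Real.exp t ^ 2 ≤ 3 := by
    rw [← e1]
    exact exp_le_three (by rw [abs_mul, abs_two]; linarith)
  have e5 : ‖w‖ ^ 2 ≤ Real.exp t ^ 2 := by gcongr
  have e6 : (‖z‖ * Real.exp t) ^ 2 ≤ 1 := pow_le_one₀ (by positivity) hz
  constructor
  · refine (norm_sub_le _ _).trans ?_
    rw [Complex.norm_conj, norm_mul, Complex.norm_real, e1, Real.norm_of_nonneg (by positivity)]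
    nlinarith
  · have e7 : ‖(starRingEnd ℂ) w - (Real.exp (2 * t) : ℝ) * z‖ ^ 2 = ‖w‖ ^ 2
        + Real.exp t ^ 2 * (‖z‖ * Real.exp t) ^ 2 - Real.exp t ^ 2 * (2 * (w * z).re) := by
      rw [e1, mul_pow, Complex.sq_norm, Complex.sq_norm, Complex.sq_norm, Complex.normSq_apply,
        Complex.normSq_apply, Complex.normSq_apply]
      generalize Real.exp t ^ 2 = c
      simp only [Complex.sub_re, Complex.sub_im, Complex.conj_re, Complex.conj_im, Complex.mul_re,
        Complex.mul_im, Complex.ofReal_re, Complex.ofReal_im]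
      ring
    have e8 : (w * z).re ≤ 1 := by
      refine (Complex.re_le_norm _).trans ?_
      rw [norm_mul]
      nlinarith [norm_nonneg z]
    have e9 := mul_le_mul_of_nonneg_left e6 (by positivity : 0 ≤ Real.exp t ^ 2)
    have e10 := mul_le_mul_of_nonneg_right e4 (by linarith : 0 ≤ 2 - 2 * (w * z).re)
    rw [e7]
    linarith

theorem Uniq.int_zero [IsProbabilityMeasure σ] (hU : Uniq A s₀ σ) {h : S → ℝ}
    (hi : Integrable h σ) (hh : Ann A σ fun x => (h x : ℂ)) {u : S → ℝ} (hu : Measurable u)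
    (h1 : ∀ x, |u x| ≤ 1) (h0 : ∫ x, u x ∂σ = 0) : ∫ x, u x * h x ∂σ = 0 := by
  have h2 : ∀ x, |(-u x)| ≤ 1 := fun x => by rw [abs_neg]; exact h1 x
  have g1 := hU.good hu h1 h0
  have g2 := hU.good hu.fun_neg h2 (by rw [integral_neg, h0, neg_zero])
  refine abs_nonpos_iff.1 (le_zero_of (K := 3 + 2 * ∫ x, |h x| ∂σ) fun η hη hη1 => ?_)
  obtain ⟨δ, hδ, hui⟩ := ui hi hη (by norm_num : (0 : ℝ) < 6)
  obtain ⟨s, hs, hs1, hs2⟩ : ∃ s : ℝ, 0 < s ∧ s ≤ η ∧ s ≤ δ / 4 :=
    ⟨min η (δ / 4), by positivity, min_le_left _ _, min_le_right _ _⟩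
  have hs3 : s ≤ 1 / 2 := hs1.trans hη1
  obtain ⟨δ', hδ', hui'⟩ := ui hi (mul_pos hη hs) (by norm_num : (0 : ℝ) < 6)
  obtain ⟨ε, hε, hε1, hε2, hε3⟩ : ∃ ε : ℝ, 0 < ε ∧ ε ≤ δ / 4 ∧ ε ≤ δ' / 12 ∧ ε ≤ 1 / 2 :=
    ⟨min (min (δ / 4) (δ' / 12)) (1 / 2), by positivity, (min_le_left _ _).trans (min_le_left _ _),
      (min_le_left _ _).trans (min_le_right _ _), min_le_right _ _⟩
  obtain ⟨G, hG, hb, r, hr, hr1⟩ := g1.better hU.1 hs (by linarith) hε
  obtain ⟨G', hG', hb', r', hr', hr1'⟩ := g2.better hU.1 hs (by linarith) hε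
  have tb : ∀ x, |s * u x| ≤ 1 / 2 := fun x => (abs_mul_le_one hs (by linarith) (h1 x)).1.trans hs3
  have pe := fun x => pt_est (tb x) (hb x) (by rw [← mul_neg]; exact hb' x)
  have be : Bd fun x => Real.exp (2 * (s * u x)) := by
    simpa only [mul_assoc] using bd_exp hu h1 (by positivity : 0 < 2 * s) (by linarith)
  have bE := hG'.1.conj.sub (be.ofReal.mul hG.1)
  have bG := (bd_const 1).sub hG.1
  obtain ⟨w, hw⟩ : ∃ w : S → ℝ, w = fun x => s⁻¹ * (1 - Real.exp (2 * (s * u x))) := ⟨_, rfl⟩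
  have w1 : ∀ x, |w x + 2 * u x| ≤ 4 * s := fun x => by
    have e := exp_bd (by positivity : 0 < 2 * s) (by linarith) (h1 x)
    have e2 : w x + 2 * u x = -(s⁻¹ * (Real.exp (2 * s * u x) - 1 - 2 * s * u x)) := by
      rw [hw, mul_assoc 2 s]
      field_simp
      ring
    rw [e2, abs_neg, abs_mul, abs_of_pos (inv_pos.2 hs), inv_mul_le_iff₀ hs]
    linarith
  have w2 : ∀ x, |w x| ≤ 4 := fun x => by
    have a1 := abs_le.1 (w1 x)
    have a2 := abs_le.1 (h1 x)
    exact abs_le.2 ⟨by linarith [a1.1, a2.2], by linarith [a1.2, a2.1]⟩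
  have bw : Bd w := ⟨by rw [hw]; exact (measurable_const.sub be.1).const_mul _, 4, w2⟩
  have z1 : ∫ x, G x * h x ∂σ = 0 := hG.2 _ hh
  have z2 : ∫ x, (starRingEnd ℂ) (G' x) * h x ∂σ = 0 := by
    have := congrArg (starRingEnd ℂ) (hG'.2 _ hh)
    rw [← integral_conj, map_zero] at this
    simpa only [map_mul, Complex.conj_ofReal] using this
  have i1 := (bG.mul bw.ofReal).int_mul hh.1
  have i2 := bE.int_mul hh.1
  have i3 := hG.1.int_mul hh.1
  have i4 := hG'.1.conj.int_mul hh.1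
  have i5 : Integrable (fun x => G x * h x - (starRingEnd ℂ) (G' x) * h x) σ := i3.sub i4
  have i6 : Integrable (fun x => (G x * h x - (starRingEnd ℂ) (G' x) * h x)
      + ((starRingEnd ℂ) (G' x) - (Real.exp (2 * (s * u x)) : ℝ) * G x) * h x) σ := i5.add i2
  have id1 : ((∫ x, w x * h x ∂σ : ℝ) : ℂ) = ∫ x, (1 - G x) * w x * h x ∂σ + (s : ℂ)⁻¹ *
      ∫ x, ((starRingEnd ℂ) (G' x) - (Real.exp (2 * (s * u x)) : ℝ) * G x) * h x ∂σ := by
    have e : ∫ x, ((starRingEnd ℂ) (G' x) - (Real.exp (2 * (s * u x)) : ℝ) * G x) * h x ∂σ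
        = ∫ x, ((G x * h x - (starRingEnd ℂ) (G' x) * h x)
          + ((starRingEnd ℂ) (G' x) - (Real.exp (2 * (s * u x)) : ℝ) * G x) * h x) ∂σ := by
      rw [integral_add i5 i2, integral_sub i3 i4, z1, z2, sub_zero, zero_add]
    rw [e, ← integral_const_mul, ← integral_add i1 (i6.const_mul _), ← integral_complex_ofReal]
    refine integral_congr_ae (.of_forall fun x => ?_)
    simp only [hw, Complex.ofReal_mul, Complex.ofReal_inv, Complex.ofReal_sub, Complex.ofReal_one]
    ring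
  have n1 : ‖∫ x, (1 - G x) * w x * h x ∂σ‖ ≤ 4 * η := by
    have e1 := hui (fun x => ‖G x - 1‖) (hG.1.sub (bd_const 1)).1.norm (fun x => by
      rw [abs_norm]
      refine (norm_sub_le _ _).trans ?_
      have := (le_exp_neg (hb x)).trans (exp_le_three (by rw [abs_neg]; linarith [tb x]))
      rw [norm_one]
      linarith) ((int_sub_one hG.1 hu h1 h0 hs hs3 hb hr).trans (by nlinarith))
    refine (norm_integral_le_integral_norm _).trans ?_
    refine le_trans ?_ (mul_le_mul_of_nonneg_left e1 (by norm_num : (0 : ℝ) ≤ 4))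
    rw [← integral_const_mul]
    refine integral_mono i1.norm ?_ fun x => ?_
    · obtain ⟨a, B, b⟩ := hG.1.sub (bd_const 1)
      exact (Bd.int_mul_real ⟨a.norm.abs, B, fun x => by simpa using b x⟩ hi.abs).const_mul 4
    · simp only [norm_mul, Complex.norm_real, Real.norm_eq_abs, abs_norm, norm_sub_rev (1 : ℂ)]
      have := mul_le_mul_of_nonneg_left (w2 x) (mul_nonneg (norm_nonneg (G x - 1)) (abs_nonneg (h x)))
      linarith
  have n2 : ‖∫ x, ((starRingEnd ℂ) (G' x) - (Real.exp (2 * (s * u x)) : ℝ) * G x) * h x ∂σ‖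
      ≤ η * s := by
    have i7 : Integrable (fun x => 2 * (G' x * G x).re) σ :=
      ((hG'.1.mul hG.1).int σ).re.const_mul 2
    have e0 : ∫ x, (G' x * G x).re ∂σ = r' * r := by
      have := integral_re ((hG'.1.mul hG.1).int σ)
      rw [hG'.integral_mul hU.1 hG, hr, hr', ← Complex.ofReal_mul] at this
      exact this
    have e1 := hui' _ bE.1.norm (fun x => by rw [abs_norm]; exact (pe x).1) (by
      have e2 := integral_mono (int_sq (bE.memLp σ 2))
        (((integrable_const (2 : ℝ)).sub i7).const_mul 3) fun x => (pe x).2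
      simp only [Pi.sub_apply] at e2
      rw [integral_const_mul, integral_sub (integrable_const _) i7, integral_const_mul, e0] at e2
      simp only [integral_const, probReal_univ, one_smul] at e2
      have e3 : (1 - ε) * (1 - ε) ≤ r' * r :=
        mul_le_mul hr1' hr1 (by linarith) (by linarith)
      nlinarith [sq_nonneg ε])
    refine (norm_integral_le_integral_norm _).trans (le_trans (le_of_eq ?_) e1)
    simp only [norm_mul, Complex.norm_real, Real.norm_eq_abs, abs_norm]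
  have n3 : |∫ x, w x * h x ∂σ| ≤ 5 * η := by
    rw [← Real.norm_eq_abs, ← Complex.norm_real, id1]
    refine (norm_add_le _ _).trans ?_
    rw [norm_mul, norm_inv, Complex.norm_real, Real.norm_of_nonneg hs.le]
    have := mul_le_mul_of_nonneg_left n2 (inv_pos.2 hs).le
    rw [mul_comm η, inv_mul_cancel_left₀ hs.ne'] at this
    linarith
  have j1 := bw.int_mul_real hi
  have j2 : Integrable (fun x => 2 * (u x * h x)) σ :=
    (Bd.int_mul_real ⟨hu, 1, h1⟩ hi).const_mul 2
  have n4 : |∫ x, (w x * h x + 2 * (u x * h x)) ∂σ| ≤ 4 * s * ∫ x, |h x| ∂σ := by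
    rw [← integral_const_mul, ← Real.norm_eq_abs]
    refine norm_integral_le_of_norm_le (hi.abs.const_mul _) (.of_forall fun x => ?_)
    rw [← mul_assoc, ← add_mul, Real.norm_eq_abs, abs_mul]
    exact mul_le_mul_of_nonneg_right (w1 x) (abs_nonneg _)
  rw [integral_add j1 j2, integral_const_mul] at n4
  have H0 : 0 ≤ ∫ x, |h x| ∂σ := integral_nonneg fun x => abs_nonneg _
  have n5 := mul_le_mul_of_nonneg_right hs1 H0
  have a3 := abs_le.1 n3
  have a4 := abs_le.1 n4
  exact abs_le.2 ⟨by linarith [a3.2, a4.1], by linarith [a3.1, a4.2]⟩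

theorem Uniq.real_zero [IsProbabilityMeasure σ] (hU : Uniq A s₀ σ) {h : S → ℝ}
    (hi : Integrable h σ) (hh : Ann A σ fun x => (h x : ℂ)) : h =ᵐ[σ] 0 := by
  refine hi.ae_eq_zero_of_forall_setIntegral_eq_zero fun E hE _ => ?_
  have bE : Bd (E.indicator fun _ => (1 : ℝ)) := ⟨measurable_const.indicator hE, 1, fun x =>
    (norm_indicator_le_norm_self _ _).trans (by simp)⟩
  have h0 : ∫ x, h x ∂σ = 0 := by
    have := hh.2 1 A.one_mem
    simp only [ContinuousMap.one_apply, one_mul, integral_complex_ofReal] at this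
    exact_mod_cast this
  have a0 : 0 ≤ σ.real E := measureReal_nonneg
  have a1 : σ.real E ≤ 1 := measureReal_le_one
  have := hU.int_zero hi hh (u := fun x => E.indicator (fun _ => (1 : ℝ)) x - σ.real E)
    (bE.1.sub measurable_const) (fun x => by
      by_cases hx : x ∈ E
      · rw [indicator_of_mem hx, abs_le]
        constructor <;> linarith
      · rw [indicator_of_notMem hx, abs_le]
        constructor <;> linarith) (by
      rw [integral_sub (bE.int σ) (integrable_const _), integral_indicator hE]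
      simp)
  simp only [sub_mul] at this
  rw [integral_sub (bE.int_mul_real hi) (hi.const_mul _), integral_const_mul, h0, mul_zero,
    sub_zero] at this
  rw [← this, ← integral_indicator hE]
  refine integral_congr_ae (.of_forall fun x => ?_)
  by_cases hx : x ∈ E
  · simp only [indicator_of_mem hx, one_mul]
  · simp only [indicator_of_notMem hx, zero_mul]

theorem Uniq.zero [IsProbabilityMeasure σ] (hU : Uniq A s₀ σ) {h : S → ℂ} (h1 : Ann A σ h)
    (h2 : ∀ f ∈ A, ∫ x, (starRingEnd ℂ) (f x) * h x ∂σ = 0) : h =ᵐ[σ] 0 := by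
  have ic : Integrable (fun x => (starRingEnd ℂ) (h x)) σ :=
    Complex.conjCLE.toContinuousLinearMap.integrable_comp h1.1
  have h3 : ∀ f ∈ A, ∫ x, f x * (starRingEnd ℂ) (h x) ∂σ = 0 := fun f hf => by
    have := congrArg (starRingEnd ℂ) (h2 f hf)
    rw [← integral_conj, map_zero] at this
    simpa only [map_mul, Complex.conj_conj] using this
  have key : ∀ (k : S → ℝ) (a b : ℂ), Integrable k σ →
      (∀ x, (k x : ℂ) = a * h x + b * (starRingEnd ℂ) (h x)) → k =ᵐ[σ] 0 := fun k a b hk e => by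
    refine hU.real_zero hk ⟨hk.ofReal, fun f hf => ?_⟩
    have i1 := ((bd_cont f).int_mul h1.1).const_mul a
    have i2 := ((bd_cont f).int_mul ic).const_mul b
    have := integral_add i1 i2
    rw [integral_const_mul, integral_const_mul, h1.2 f hf, h3 f hf, mul_zero, mul_zero,
      add_zero] at this
    rw [← this]
    refine integral_congr_ae (.of_forall fun x => ?_)
    simp only [e]
    ring
  have k1 := key (fun x => (h x).re) (1 / 2) (1 / 2) h1.1.re fun x => by
    rw [Complex.re_eq_add_conj]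
    ring
  have k2 := key (fun x => (h x).im) (1 / (2 * Complex.I)) (-(1 / (2 * Complex.I))) h1.1.im
    fun x => by
      rw [Complex.im_eq_sub_conj]
      ring
  filter_upwards [k1, k2] with x e1 e2 using Complex.ext e1 e2

theorem Uniq.dense [IsProbabilityMeasure σ] (hU : Uniq A s₀ σ) :
    WeakStarDense (sumSet A.carrier) σ := by
  intro φ hφ n h hi ε hε
  have hb : ∀ v ∈ sumSet A.carrier, Bd v := by
    rintro _ ⟨f, -, g, -, rfl⟩
    exact bd_cont (f + star g)
  let W : Submodule ℂ (Fin n → ℂ) :=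
    { carrier := {y | ∃ v ∈ sumSet A.carrier, y = fun i => ∫ s, v s * h i s ∂σ}
      zero_mem' := ⟨_, ⟨0, A.zero_mem, 0, A.zero_mem, rfl⟩, by ext i; simp⟩
      add_mem' := by
        rintro _ _ ⟨_, ⟨f, hf, g, hg, rfl⟩, rfl⟩ ⟨_, ⟨f', hf', g', hg', rfl⟩, rfl⟩
        refine ⟨_, ⟨f + f', A.add_mem hf hf', g + g', A.add_mem hg hg', rfl⟩, ?_⟩
        ext i
        rw [Pi.add_apply, ← integral_add ((hb _ ⟨f, hf, g, hg, rfl⟩).int_mul (hi i))
          ((hb _ ⟨f', hf', g', hg', rfl⟩).int_mul (hi i))]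
        refine integral_congr_ae (.of_forall fun x => ?_)
        simp only [ContinuousMap.add_apply, map_add]
        ring
      smul_mem' := by
        rintro c _ ⟨_, ⟨f, hf, g, hg, rfl⟩, rfl⟩
        refine ⟨_, ⟨c • f, A.smul_mem hf c, (starRingEnd ℂ) c • g, A.smul_mem hg _, rfl⟩, ?_⟩
        ext i
        rw [Pi.smul_apply, smul_eq_mul, ← integral_const_mul]
        refine integral_congr_ae (.of_forall fun x => ?_)
        simp only [ContinuousMap.smul_apply, smul_eq_mul, map_mul, Complex.conj_conj]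
        ring }
  have iφ : ∀ i, Integrable (fun s => φ s * h i s) σ := fun i =>
    (hi i).bdd_mul hφ.1 (c := (eLpNorm φ ⊤ σ).toReal) (by
      filter_upwards [ae_le_eLpNormEssSup (f := φ) (μ := σ)] with x hx
      rw [← toReal_enorm]
      exact ENNReal.toReal_mono hφ.2.ne (by rwa [eLpNorm_exponent_top]))
  have hy : (fun i => ∫ s, φ s * h i s ∂σ) ∈ W := by
    by_contra hn
    obtain ⟨l, hl, hl0⟩ := Submodule.exists_dual_map_eq_bot_of_notMem hn inferInstance
    have e : ∀ v : S → ℂ, (∀ i, Integrable (fun s => v s * h i s) σ) →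
        l (fun i => ∫ s, v s * h i s ∂σ)
          = ∫ s, v s * ∑ i, h i s * l (fun j => if i = j then 1 else 0) ∂σ := fun v hv => by
      rw [LinearMap.pi_apply_eq_sum_univ]
      simp only [Finset.mul_sum, ← mul_assoc, smul_eq_mul]
      rw [integral_finsetSum _ fun i _ => (hv i).mul_const _]
      simp only [integral_mul_const]
    have e0 : ∀ v ∈ sumSet A.carrier,
        ∫ s, v s * ∑ i, h i s * l (fun j => if i = j then 1 else 0) ∂σ = 0 := fun v hv => by
      rw [← e v fun i => (hb v hv).int_mul (hi i), ← Submodule.mem_bot ℂ, ← hl0]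
      exact Submodule.mem_map_of_mem ⟨v, hv, rfl⟩
    have hz := hU.zero (h := fun s => ∑ i, h i s * l (fun j => if i = j then 1 else 0))
      ⟨integrable_finsetSum _ fun i _ => (hi i).mul_const _, fun f hf => by
        simpa using e0 _ ⟨f, hf, 0, A.zero_mem, rfl⟩⟩ fun f hf => by
        simpa using e0 _ ⟨0, A.zero_mem, f, hf, rfl⟩
    refine hl ((e φ iφ).trans (integral_eq_zero_of_ae ?_))
    filter_upwards [hz] with x hx
    rw [hx, Pi.zero_apply, mul_zero]
  obtain ⟨v, hv, hvy⟩ := hy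
  refine ⟨v, hv, fun i => ?_⟩
  simp only [sub_mul]
  rw [integral_sub (iφ i) ((hb v hv).int_mul (hi i)), congrFun hvy i, sub_self, norm_zero]
  exact hε

omit [CompactSpace S] [BorelSpace S] in
theorem IsRep.prob {m : Measure S} [IsFiniteMeasure m] (h : IsRep A s₀ m) :
    IsProbabilityMeasure m := by
  have := h 1 A.one_mem
  simp only [ContinuousMap.one_apply, integral_const, Complex.real_smul, mul_one,
    Complex.ofReal_eq_one] at this
  exact ⟨(ENNReal.toReal_eq_one_iff _).1 this⟩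

theorem main [T2Space S] (hsep : ∀ s t : S, (∀ f ∈ A, f s = f t) → s = t)
    (μ σ : FiniteMeasure S) [σ.toMeasure.WeaklyRegular] (hμ : IsRep A s₀ μ.toMeasure)
    (hσ : σ ∈ KSet A.carrier μ)
    (hg : ∀ ν ∈ KSet A.carrier μ, ∀ f ∈ A, logInt ν.toMeasure f ≤ logInt σ.toMeasure f) :
    WeakStarDense (sumSet A.carrier) σ.toMeasure := by
  have hr : IsRep A s₀ σ.toMeasure := fun f hf => by
    have hc : Continuous fun ν : FiniteMeasure S => ∫ x, f x ∂ν.toMeasure :=
      continuous_iff_continuousAt.2 fun ν =>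
        (FiniteMeasure.tendsto_iff_forall_integral_rclike_tendsto ℂ).1 tendsto_id
          (BoundedContinuousFunction.mkOfCompact f)
    exact closure_minimal (fun ν hν => (hν.2 f hf).trans (hμ f hf))
      (isClosed_eq hc continuous_const) hσ
  have := hμ.prob
  have := hr.prob
  have hT : Top A s₀ μ.toMeasure σ.toMeasure := ⟨hμ, hr, fun ν _ h1 h2 => sq_le_of_log
    (hg ⟨ν, inferInstance⟩ (subset_closure ⟨h1, fun f hf => (h2 f hf).trans (hμ f hf).symm⟩)),
    fun c R h => closure_minimal (fun ν hν => by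
      have e : IsRep A s₀ ν.toMeasure := fun f hf => (hν.2 f hf).trans (hμ f hf)
      exact h _ e.prob hν.1 e)
      (isClosed_le (FiniteMeasure.continuous_integral_continuousMap c) continuous_const) hσ⟩
  exact Uniq.dense ⟨hr, fun ν _ h1 h2 => hT.unique hsep h1 h2⟩

end Pool.Agent.P.MP_dbea21_an.Rep
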