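import Pool.Agent.P.MP_dbea21_an.RBasic
import Pool.Agent.P.MP_dbea21_an.RDefs

/-!
The order by logarithms implies the order by squares.
-/

open MeasureTheory Set Filter Topology
open scoped Real ENNReal

namespace Pool.Agent.P.MP_dbea21_an.Rep

/-- The negative part of the logarithm of the modulus. -/
noncomputable def nl (z : ℂ) : ℝ≥0∞ := (-ENNReal.log ‖z‖ₑ).toENNReal

theorem measurable_nl : Measurable nl :=
  ((ENNReal.continuous_log.comp continuous_enorm).neg.ereal_toENNReal).measurable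

theorem nl_eq {z : ℂ} (hz : z ≠ 0) : nl z = ENNReal.ofReal (-Real.log ‖z‖) := by
  rw [nl, ← ofReal_norm, ENNReal.log_ofReal_of_pos (norm_pos_iff.2 hz), ← EReal.coe_neg,
    EReal.real_coe_toENNReal]

theorem circ {w : ℂ} {L : ℝ} (hL : ‖w‖ + 1 ≤ L) :
    ∫⁻ θ in Ioc 0 (2 * π), nl ((L : ℂ)⁻¹ * (w - circleMap 0 1 θ))
      = ENNReal.ofReal (2 * π * (Real.log L - Real.posLog ‖w‖)) := by
  have hL0 : 0 < L := by linarith [norm_nonneg w]
  have hi : IntervalIntegrable (fun θ => Real.log ‖circleMap 0 1 θ - w‖) volume 0 (2 * π) :=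
    circleIntegrable_log_norm_sub_const (a := w) (c := 0) 1
  have hi2 : IntegrableOn (fun θ => Real.log L - Real.log ‖circleMap 0 1 θ - w‖) (Ioc 0 (2 * π)) :=
    (intervalIntegrable_const.sub hi).1
  have hae : ∀ᵐ θ ∂volume.restrict (Ioc 0 (2 * π)), circleMap 0 1 θ ≠ w :=
    ae_restrict_of_ae (compl_mem_ae_iff.2
      (((countable_singleton w).preimage_circleMap 0 one_ne_zero).measure_zero _))
  have h1 : ∫ θ in Ioc 0 (2 * π), (Real.log L - Real.log ‖circleMap 0 1 θ - w‖)
      = 2 * π * (Real.log L - Real.posLog ‖w‖) := by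
    rw [← intervalIntegral.integral_of_le Real.two_pi_pos.le,
      intervalIntegral.integral_sub intervalIntegrable_const hi,
      ← circleAverage_log_norm_sub_const_eq_posLog, Real.circleAverage_def]
    simp only [intervalIntegral.integral_const, smul_eq_mul, sub_zero]
    field_simp
  rw [← h1, ofReal_integral_eq_lintegral_ofReal hi2 (hae.mono fun θ hθ => ?_)]
  · refine lintegral_congr_ae (hae.mono fun θ hθ => ?_)
    have h2 : w - circleMap 0 1 θ ≠ 0 := sub_ne_zero.2 hθ.symm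
    simp only
    rw [nl_eq (mul_ne_zero (inv_ne_zero (Complex.ofReal_ne_zero.2 hL0.ne')) h2), norm_mul, norm_inv,
      Complex.norm_real, Real.norm_of_nonneg hL0.le,
      Real.log_mul (inv_ne_zero hL0.ne') (norm_ne_zero_iff.2 h2), Real.log_inv, norm_sub_rev]
    congr 1
    ring
  · refine sub_nonneg.2 (Real.log_le_log (norm_pos_iff.2 (sub_ne_zero.2 hθ)) ?_)
    refine (norm_sub_le _ _).trans ?_
    rw [norm_circleMap_zero, abs_one]
    linarith

theorem sq_eq {ρ : ℝ} (hρ : 0 ≤ ρ) :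
    ∫⁻ r in Ioi 0, ENNReal.ofReal (4 * r * Real.posLog (r⁻¹ * ρ)) = ENNReal.ofReal (ρ ^ 2) := by
  have hc : Continuous fun r : ℝ => 4 * r * Real.log ρ - 4 * (r * Real.log r) :=
    (by fun_prop : Continuous fun r : ℝ => 4 * r * Real.log ρ).sub
      (Real.continuous_mul_log.const_mul 4)
  have h1 : ∫ r in (0 : ℝ)..ρ, (4 * r * Real.log ρ - 4 * (r * Real.log r)) = ρ ^ 2 := by
    rw [intervalIntegral.integral_eq_sub_of_hasDerivAt_of_le hρ
      (f := fun r => 2 * r ^ 2 * Real.log ρ - 2 * (r * (r * Real.log r)) + r ^ 2) ?_ ?_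
      (hc.intervalIntegrable _ _)]
    · simp
      ring
    · exact (((by fun_prop : Continuous fun r : ℝ => 2 * r ^ 2 * Real.log ρ).sub
        ((continuous_id.mul Real.continuous_mul_log).const_mul 2)).add
        (continuous_pow 2)).continuousOn
    · intro r hr
      have e1 := (((hasDerivAt_pow 2 r).const_mul 2).mul_const (Real.log ρ)).sub
        (((hasDerivAt_id' r).mul (Real.hasDerivAt_mul_log hr.1.ne')).const_mul 2) |>.add
        (hasDerivAt_pow 2 r)
      refine e1.congr_deriv ?_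
      simp
      ring
  have h2 : ∀ r ∈ Ioc 0 ρ, 4 * r * Real.posLog (r⁻¹ * ρ)
      = 4 * r * Real.log ρ - 4 * (r * Real.log r) := fun r hr => by
    have e : 1 ≤ r⁻¹ * ρ := by rw [← div_eq_inv_mul]; exact (one_le_div hr.1).2 hr.2
    rw [Real.posLog_eq_log (e.trans (le_abs_self _)),
      Real.log_mul (inv_ne_zero hr.1.ne') (hr.1.trans_le hr.2).ne', Real.log_inv]
    ring
  rw [← h1, intervalIntegral.integral_of_le hρ, ofReal_integral_eq_lintegral_ofReal
    (hc.integrableOn_Icc.mono_set Ioc_subset_Icc_self)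
    ((ae_restrict_mem measurableSet_Ioc).mono fun r hr => by
      have := hr.1
      simp only [Pi.zero_apply, ← h2 r hr]
      exact mul_nonneg (by positivity) Real.posLog_nonneg),
    ← Ioc_union_Ioi_eq_Ioi hρ, lintegral_union measurableSet_Ioi Ioc_disjoint_Ioi_same,
    setLIntegral_congr_fun measurableSet_Ioc (fun r hr => by rw [h2 r hr]),
    setLIntegral_congr_fun measurableSet_Ioi (g := fun _ => 0) (fun r hr => ?_)]
  · simp
  · have hr0 : 0 < r := hρ.trans_lt hr
    have e : |r⁻¹ * ρ| ≤ 1 := by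
      rw [abs_of_nonneg (by positivity), ← div_eq_inv_mul]
      exact (div_le_one hr0).2 (le_of_lt hr)
    simp only [(Real.posLog_eq_zero_iff _).2 e, mul_zero, ENNReal.ofReal_zero]

variable {S : Type*} [MeasurableSpace S] [TopologicalSpace S] [CompactSpace S] [BorelSpace S]
  {A : Subalgebra ℂ C(S, ℂ)} {ν σ : Measure S}

omit [TopologicalSpace S] [CompactSpace S] [BorelSpace S] in
theorem nl_le {F : S → ℂ} (hF : ∀ x, ‖F x‖ ≤ 1) (h : logInt ν F ≤ logInt σ F) :
    ∫⁻ x, nl (F x) ∂σ ≤ ∫⁻ x, nl (F x) ∂ν := by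
  have h1 : ∀ x, (ENNReal.log ‖F x‖ₑ).toENNReal = 0 := fun x =>
    EReal.toENNReal_of_nonpos (ENNReal.log_le_zero_iff.2 (by
      rw [← ofReal_norm]; exact ENNReal.ofReal_le_one.2 (hF x)))
  simp only [logInt, h1, lintegral_zero, EReal.coe_ennreal_zero, zero_sub, EReal.neg_le_neg_iff,
    EReal.coe_ennreal_le_coe_ennreal_iff] at h
  exact h

theorem posLog_le [IsProbabilityMeasure ν] [IsProbabilityMeasure σ]
    (h : ∀ f ∈ A, logInt ν f ≤ logInt σ f) {g : C(S, ℂ)} (hg : g ∈ A) :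
    ∫ x, Real.posLog ‖g x‖ ∂ν ≤ ∫ x, Real.posLog ‖g x‖ ∂σ := by
  obtain ⟨L, hL⟩ : ∃ L : ℝ, L = ‖g‖ + 1 := ⟨_, rfl⟩
  have hL1 : ∀ x, ‖g x‖ + 1 ≤ L := fun x => by linarith [g.norm_coe_le_norm x]
  have hL0 : 0 < L := by linarith [norm_nonneg g]
  have hm : Measurable fun q : ℝ × S => nl ((L : ℂ)⁻¹ * (g q.2 - circleMap 0 1 q.1)) :=
    measurable_nl.comp (((g.continuous.measurable.comp measurable_snd).sub
      ((continuous_circleMap 0 1).measurable.comp measurable_fst)).const_mul _)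
  have bp : Bd fun x => Real.posLog ‖g x‖ :=
    bd_cont (⟨fun x => Real.posLog ‖g x‖, by fun_prop⟩ : C(S, ℝ))
  have h0 : ∀ x, 0 ≤ 2 * π * (Real.log L - Real.posLog ‖g x‖) := fun x => by
    refine mul_nonneg Real.two_pi_pos.le (sub_nonneg.2 ?_)
    rw [Real.posLog_eq_log_max_one (norm_nonneg _)]
    refine Real.log_le_log (by positivity) (max_le ?_ ?_) <;> linarith [hL1 x, norm_nonneg (g x)]
  have key : ∀ (m : Measure S) [IsProbabilityMeasure m],
      ∫⁻ θ in Ioc 0 (2 * π), ∫⁻ x, nl ((L : ℂ)⁻¹ * (g x - circleMap 0 1 θ)) ∂m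
        = ENNReal.ofReal (2 * π * (Real.log L - ∫ x, Real.posLog ‖g x‖ ∂m)) := fun m _ => by
    rw [lintegral_lintegral_swap hm.aemeasurable]
    simp only [circ (hL1 _)]
    have i1 : Integrable (fun x => 2 * π * (Real.log L - Real.posLog ‖g x‖)) m :=
      ((integrable_const _).sub (bp.int m)).const_mul _
    rw [← ofReal_integral_eq_lintegral_ofReal i1 (.of_forall h0), integral_const_mul,
      integral_sub (integrable_const _) (bp.int m)]
    simp
  have h1 : ∀ θ, ∫⁻ x, nl ((L : ℂ)⁻¹ * (g x - circleMap 0 1 θ)) ∂σ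
      ≤ ∫⁻ x, nl ((L : ℂ)⁻¹ * (g x - circleMap 0 1 θ)) ∂ν := fun θ => by
    refine nl_le (fun x => ?_) (h ((L : ℂ)⁻¹ • (g - algebraMap ℂ _ (circleMap 0 1 θ)))
      (A.smul_mem (A.sub_mem hg (A.algebraMap_mem _)) _))
    rw [norm_mul, norm_inv, Complex.norm_real, Real.norm_of_nonneg hL0.le, ← div_eq_inv_mul,
      div_le_one hL0]
    refine (norm_sub_le _ _).trans ?_
    rw [norm_circleMap_zero, abs_one]
    exact hL1 x
  have h2 := lintegral_mono (μ := volume.restrict (Ioc 0 (2 * π))) h1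
  have h3 : 0 ≤ 2 * π * (Real.log L - ∫ x, Real.posLog ‖g x‖ ∂ν) := by
    have : 0 ≤ ∫ x, 2 * π * (Real.log L - Real.posLog ‖g x‖) ∂ν := integral_nonneg h0
    rw [integral_const_mul, integral_sub (integrable_const _) (bp.int ν)] at this
    simpa using this
  rw [key, key, ENNReal.ofReal_le_ofReal_iff h3] at h2
  have := le_of_mul_le_mul_left h2 Real.two_pi_pos
  linarith

theorem sq_le_of_log [IsProbabilityMeasure ν] [IsProbabilityMeasure σ]
    (h : ∀ f ∈ A, logInt ν f ≤ logInt σ f) (g : C(S, ℂ)) (hg : g ∈ A) :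
    ∫ x, ‖g x‖ ^ 2 ∂ν ≤ ∫ x, ‖g x‖ ^ 2 ∂σ := by
  have hm : Measurable fun q : S × ℝ =>
      ENNReal.ofReal (4 * q.2 * Real.posLog (q.2⁻¹ * ‖g q.1‖)) :=
    ((measurable_snd.const_mul 4).mul (Real.continuous_posLog.measurable.comp
      (measurable_snd.inv.mul (g.continuous.measurable.comp measurable_fst).norm))).ennreal_ofReal
  have key : ∀ (m : Measure S) [IsProbabilityMeasure m], ENNReal.ofReal (∫ x, ‖g x‖ ^ 2 ∂m)
      = ∫⁻ r in Ioi 0, ENNReal.ofReal (4 * r * ∫ x, Real.posLog (r⁻¹ * ‖g x‖) ∂m) :=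
    fun m _ => by
    rw [ofReal_integral_eq_lintegral_ofReal (int_sq ((bd_cont g).memLp m 2))
      (.of_forall fun x => by positivity)]
    simp only [← sq_eq (norm_nonneg (g _))]
    rw [lintegral_lintegral_swap hm.aemeasurable]
    refine setLIntegral_congr_fun measurableSet_Ioi fun r hr => ?_
    have hr0 : 0 < r := hr
    have bp : Bd fun x => Real.posLog (r⁻¹ * ‖g x‖) :=
      bd_cont (⟨fun x => Real.posLog (r⁻¹ * ‖g x‖), by fun_prop⟩ : C(S, ℝ))
    rw [← integral_const_mul, ofReal_integral_eq_lintegral_ofReal ((bp.int m).const_mul _)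
      (.of_forall fun x => mul_nonneg (by positivity) Real.posLog_nonneg)]
  rw [← ENNReal.ofReal_le_ofReal_iff (integral_nonneg fun x => by positivity), key, key]
  refine setLIntegral_mono' measurableSet_Ioi fun r hr => ENNReal.ofReal_le_ofReal ?_
  have hr0 : 0 < r := hr
  refine mul_le_mul_of_nonneg_left ?_ (by positivity)
  have := posLog_le h (A.smul_mem hg ((r⁻¹ : ℝ) : ℂ))
  simpa only [ContinuousMap.smul_apply, smul_eq_mul, norm_mul, Complex.norm_real,
    Real.norm_of_nonneg (inv_pos.2 hr0).le] using this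

end Pool.Agent.P.MP_dbea21_an.Rep
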