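import Pool.Agent.P.MP_dbea21_an.RUniq
import Pool.Agent.P.MP_dbea21_an.RLog

/-!
Weak-star density of `A + conj A` at a greatest representing measure.
-/

open MeasureTheory Set Filter Topology

namespace Pool.Agent.P.MP_dbea21_an.Rep

variable {S : Type*} [MeasurableSpace S] [TopologicalSpace S] [CompactSpace S] [BorelSpace S]
  {A : Subalgebra ℂ C(S, ℂ)} {s₀ : S} {μ σ ν : Measure S}

/-- The consequences of being a greatest element that the proof uses. -/
structure Top (A : Subalgebra ℂ C(S, ℂ)) (s₀ : S) (μ σ : Measure S) : Prop where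
  repμ : IsRep A s₀ μ
  repσ : IsRep A s₀ σ
  sq : ∀ ν : Measure S, IsProbabilityMeasure ν → ν ≪ μ → IsRep A s₀ ν →
    ∀ f ∈ A, ∫ x, ‖f x‖ ^ 2 ∂ν ≤ ∫ x, ‖f x‖ ^ 2 ∂σ
  cl : ∀ (c : C(S, ℝ)) (R : ℝ), (∀ ν : Measure S, IsProbabilityMeasure ν → ν ≪ μ → IsRep A s₀ ν →
    ∫ x, c x ∂ν ≤ R) → ∫ x, c x ∂σ ≤ R

/-- The mean of two measures. -/
noncomputable def mid (μ σ : Measure S) : Measure S := (2⁻¹ : ENNReal) • (μ + σ)

omit [TopologicalSpace S] [CompactSpace S] [BorelSpace S] in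
theorem mid_prob [IsProbabilityMeasure μ] [IsProbabilityMeasure σ] :
    IsProbabilityMeasure (mid μ σ) := ⟨by
  rw [mid, Measure.smul_apply, Measure.add_apply, measure_univ, measure_univ, one_add_one_eq_two,
    smul_eq_mul, ENNReal.inv_mul_cancel two_ne_zero ENNReal.ofNat_ne_top]⟩

omit [TopologicalSpace S] [CompactSpace S] [BorelSpace S] in
theorem integral_mid {E : Type} [NormedAddCommGroup E] [NormedSpace ℝ E] {g : S → E}
    (h1 : Integrable g μ) (h2 : Integrable g σ) :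
    ∫ x, g x ∂(mid μ σ) = (2⁻¹ : ℝ) • (∫ x, g x ∂μ + ∫ x, g x ∂σ) := by
  rw [mid, integral_smul_measure, integral_add_measure h1 h2]
  simp

omit [TopologicalSpace S] [CompactSpace S] [BorelSpace S] in
theorem mid_null {E : Set S} : mid μ σ E = 0 ↔ μ E = 0 ∧ σ E = 0 := by
  simp [mid]

theorem Top.rep_mid [IsProbabilityMeasure μ] [IsProbabilityMeasure σ] (h : Top A s₀ μ σ) :
    IsRep A s₀ (mid μ σ) := fun f hf => by
  rw [integral_mid ((bd_cont f).int μ) ((bd_cont f).int σ), h.repμ f hf, h.repσ f hf, ← two_smul ℝ,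
    smul_smul]
  simp

omit [TopologicalSpace S] [CompactSpace S] [BorelSpace S] in
theorem le_mid [IsProbabilityMeasure μ] [IsProbabilityMeasure σ] (g : S → ℝ) (hg : Bd g)
    (h0 : ∀ x, 0 ≤ g x) : ∫ x, g x ∂σ ≤ 2 * ∫ x, g x ∂(mid μ σ) := by
  have : 0 ≤ ∫ x, g x ∂μ := integral_nonneg h0
  rw [integral_mid (hg.int μ) (hg.int σ), smul_eq_mul]
  linarith

theorem Top.sqb [IsProbabilityMeasure μ] [IsProbabilityMeasure σ] (h : Top A s₀ μ σ) {F : S → ℂ}
    (hF : InH A (mid μ σ) F) (b : C(S, ℝ)) (b0 : ∀ x, 0 ≤ b x) {R : ℝ}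
    (hR : ∀ᵐ x ∂μ, b x * ‖F x‖ ^ 2 ≤ R) : ∫ x, b x * ‖F x‖ ^ 2 ∂σ ≤ R := by
  have := mid_prob (μ := μ) (σ := σ)
  have hB : ∀ x, b x ≤ ‖b‖ := fun x => (le_abs_self _).trans (b.norm_coe_le_norm x)
  have R0 : 0 ≤ R := by
    obtain ⟨x, hx⟩ := hR.exists
    exact (mul_nonneg (b0 x) (by positivity)).trans hx
  refine lim_le (K := 36 * ‖b‖) fun η δ hη h1 hδ => ?_
  obtain ⟨f, hf, e1⟩ := hF.approx hδ
  have hη' : 0 < η / 3 := by positivity
  have hD := hF.sub (InH.of_mem hf)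
  have bs : Bd fun x => ‖F x - f x‖ ^ 2 := by
    obtain ⟨h1, C, h2⟩ := hD.1
    exact ⟨h1.norm.pow_const 2, C ^ 2, fun x => by
      rw [norm_pow, norm_norm]; gcongr; exact h2 x⟩
  have e2 : ∫ x, ‖F x - f x‖ ^ 2 ∂σ ≤ 2 * δ := by
    linarith [le_mid (μ := μ) (σ := σ) _ bs fun x => by positivity]
  have e3 : ∀ t : ℝ, 0 ≤ t → t ≤ 2 * δ → (1 + 1 / (η / 3)) * ‖b‖ * t ≤ 12 * ‖b‖ / η * δ :=
    fun t t0 ht => by
    calc (1 + 1 / (η / 3)) * ‖b‖ * t ≤ 2 / (η / 3) * ‖b‖ * (2 * δ) :=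
          mul_le_mul (mul_le_mul_of_nonneg_right (one_add_le hη' (by linarith)) (norm_nonneg _)) ht
            t0 (by positivity)
      _ = _ := by
          field_simp
          ring
  have e4 : ∫ x, b x * ‖f x‖ ^ 2 ∂σ ≤ (1 + η / 3) * R + 12 * ‖b‖ / η * δ := by
    refine h.cl ⟨fun x => b x * ‖f x‖ ^ 2, by fun_prop⟩ _ fun ν hν hνμ hr => ?_
    refine (sq_le b.continuous.measurable b0 hB (hF.1.memLp ν 2) ((bd_cont f).memLp ν 2)
      hη').trans (add_le_add (mul_le_mul_of_nonneg_left ?_ (by positivity))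
        (e3 _ (integral_nonneg fun x => by positivity) (le_trans ?_ e2)))
    · have := integral_mono_ae ((bd_cont b).int_mul_real (int_sq (hF.1.memLp ν 2)))
        (integrable_const R) (hνμ.ae_le hR)
      simpa using this
    · exact hD.transfer (hνμ.trans fun _ hE => (mid_null.1 hE).1) le_mid (h.sq ν hν hνμ hr)
  have e5 := sq_le (m := σ) b.continuous.measurable b0 hB ((bd_cont f).memLp σ 2)
    (hF.1.memLp σ 2) hη'
  have e6 := e3 (∫ x, ‖f x - F x‖ ^ 2 ∂σ) (integral_nonneg fun x => by positivity)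
    (by simpa only [norm_sub_rev] using e2)
  have e7 := mul_le_mul_of_nonneg_left e4 (by positivity : 0 ≤ 1 + η / 3)
  have e8 : 0 ≤ 12 * ‖b‖ / η * δ := by positivity
  have e9 : 36 * ‖b‖ / η * δ = 3 * (12 * ‖b‖ / η * δ) := by ring
  have e10 : η * η * R ≤ η * R := mul_le_mul_of_nonneg_right (by nlinarith) R0
  have e11 : η * (12 * ‖b‖ / η * δ) ≤ 12 * ‖b‖ / η * δ := mul_le_of_le_one_left e8 h1
  nlinarith [mul_nonneg hη.le R0]

theorem Top.isom [IsProbabilityMeasure μ] [IsProbabilityMeasure σ] (h : Top A s₀ μ σ) {G : S → ℂ}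
    (hG : InH A (mid μ σ) G) (a : C(S, ℝ)) (a0 : ∀ x, 0 ≤ a x) {r : ℝ} (hr : 0 ≤ r)
    (hR : ∀ᵐ x ∂μ, ‖G x‖ * a x ≤ r) : ∀ᵐ x ∂σ, ‖G x‖ * a x ≤ r := by
  have e : ∀ (n : ℕ) (x : S), (a ^ (2 * n)) x * ‖G x ^ n‖ ^ 2 = (‖G x‖ * a x) ^ (2 * n) :=
    fun n x => by
    rw [ContinuousMap.pow_apply, norm_pow]
    ring
  have h1 : ∀ ρ : ℝ, r < ρ → ∀ᵐ x ∂σ, ‖G x‖ * a x < ρ := fun ρ hρ => by
    have ρ0 : 0 < ρ := hr.trans_lt hρ
    have h2 : ∀ n : ℕ, σ.real {x | ρ ≤ ‖G x‖ * a x} ≤ ((r / ρ) ^ 2) ^ n := fun n => by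
      have h3 := h.sqb (hG.pow n) (a ^ (2 * n)) (fun x => pow_nonneg (a0 x) _) (R := r ^ (2 * n))
        (hR.mono fun x hx => by
          rw [e]
          exact pow_le_pow_left₀ (mul_nonneg (norm_nonneg _) (a0 x)) hx _)
      have h4 := mul_meas_ge_le_integral_of_nonneg (μ := σ)
        (f := fun x => (a ^ (2 * n)) x * ‖G x ^ n‖ ^ 2)
        (.of_forall fun x => mul_nonneg (pow_nonneg (a0 x) _) (by positivity))
        ((bd_cont _).int_mul_real (int_sq ((hG.pow n).1.memLp σ 2))) (ρ ^ (2 * n))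
      have h5 : σ.real {x | ρ ≤ ‖G x‖ * a x}
          ≤ σ.real {x | ρ ^ (2 * n) ≤ (a ^ (2 * n)) x * ‖G x ^ n‖ ^ 2} :=
        measureReal_mono fun x hx => by
          rw [mem_ofPred_eq, e]
          exact pow_le_pow_left₀ ρ0.le hx _
      rw [← pow_mul, div_pow, le_div_iff₀ (by positivity), mul_comm]
      exact (mul_le_mul_of_nonneg_left h5 (by positivity)).trans (h4.trans h3)
    have h6 : (r / ρ) ^ 2 < 1 := pow_lt_one₀ (by positivity) ((div_lt_one ρ0).2 hρ) two_ne_zero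
    have h7 := ge_of_tendsto' (tendsto_pow_atTop_nhds_zero_of_lt_one (by positivity) h6) h2
    rw [ae_iff]
    simp only [not_lt]
    exact (measureReal_eq_zero_iff (measure_ne_top _ _)).1 (le_antisymm h7 measureReal_nonneg)
  filter_upwards [ae_all_iff.2 fun k : ℕ => h1 (r + 1 / ((k : ℝ) + 1))
    (lt_add_of_pos_right _ (by positivity))] with x hx
  refine le_of_forall_pos_le_add fun ε hε => ?_
  obtain ⟨k, hk⟩ := exists_nat_one_div_lt hε
  linarith [hx k]

omit [MeasurableSpace S] [TopologicalSpace S] [CompactSpace S] [BorelSpace S] in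
theorem exp_ge {u : S → ℝ} (h1 : ∀ x, |u x| ≤ 1) {s : ℝ} (hs : 0 < s) (hs1 : s ≤ 1) (x : S) :
    Real.exp (-1) ≤ Real.exp (s * u x) ∧ Real.exp (s * u x) ≤ 3 :=
  ⟨Real.exp_le_exp.2 (abs_le.1 (abs_mul_le_one hs hs1 (h1 x)).2).1,
    exp_le_three (abs_mul_le_one hs hs1 (h1 x)).2⟩

theorem Top.good [IsProbabilityMeasure μ] [IsProbabilityMeasure σ] (h : Top A s₀ μ σ)
    (u : C(S, ℝ)) (h1 : ∀ x, |u x| ≤ 1) (h0 : ∀ ν : Measure S, IsProbabilityMeasure ν → ν ≪ μ →
      IsRep A s₀ ν → ∫ x, u x ∂ν ≤ 0) : Good A σ u := fun s hs hs1 => by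
  have := mid_prob (μ := μ) (σ := σ)
  obtain ⟨Z, hZ, hZ1, hZ2⟩ := σ.mutuallySingular_singularPart μ
  have hσ : σ ≪ mid μ σ := fun _ hE => (mid_null.1 hE).2
  have k1 : (mid μ σ).restrict Z ≪ μ := by
    refine Measure.AbsolutelyContinuous.mk fun E hE hE0 => ?_
    have e := measure_mono_null (inter_subset_left (t := Z)) hE0
    rw [Measure.restrict_apply hE, mid_null]
    refine ⟨e, ?_⟩
    rw [σ.haveLebesgueDecomposition_add μ, Measure.add_apply,
      measure_mono_null inter_subset_right hZ1, withDensity_absolutelyContinuous _ _ e, add_zero]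
  have k2 : μ ≪ (mid μ σ).restrict Z := by
    refine Measure.AbsolutelyContinuous.mk fun E hE hE0 => ?_
    rw [Measure.restrict_apply hE, mid_null] at hE0
    rw [← inter_union_compl E Z]
    exact measure_union_null hE0.1 (measure_mono_null inter_subset_right hZ2)
  obtain ⟨G, hG, hb, r, hr, hr1⟩ := lemA h.rep_mid hZ (a := fun x => Real.exp (s * u x))
    (by fun_prop : Continuous fun x => Real.exp (s * u x)).measurable (Real.exp_pos (-1))
    (fun x => (exp_ge h1 hs hs1 x).1) (fun x => (exp_ge h1 hs hs1 x).2)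
    (fun G hG r hr hZr => by
      have e1 := k2.ae_le hZr
      exact mid_null.2 ⟨e1, h.isom hG ⟨fun x => Real.exp (s * u x), by fun_prop⟩
        (fun x => (Real.exp_pos _).le) hr e1⟩)
    (c := 1 + s ^ 2) (by positivity) fun ν hν hν1 hν2 => by
      have e1 := int_exp_le (m := ν) u.continuous.measurable h1 hs hs1
      have e2 := mul_nonpos_of_nonneg_of_nonpos hs.le (h0 ν hν (hν1.trans k1) hν2)
      linarith
  exact ⟨G, hG.mono hσ, hb, r, (hG.integral_eq hσ h.rep_mid h.repσ).trans hr, hr1⟩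

theorem exists_intCLM (m : Measure S) [IsFiniteMeasure m] :
    ∃ I : C(S, ℂ) →L[ℂ] ℂ, ∀ c, I c = ∫ x, c x ∂m := by
  obtain ⟨P, hP⟩ := exists_pair (bd_const (S := S) 1) m
  refine ⟨P.comp (ContinuousMap.toLp 1 m ℂ), fun c => (hP _).trans (integral_congr_ae ?_)⟩
  filter_upwards [ContinuousMap.coeFn_toLp (p := 1) (𝕜 := ℂ) m c] with x hx
  exact (one_mul _).trans hx

theorem eq_of_sq [T2Space S] [IsProbabilityMeasure σ] [IsProbabilityMeasure ν] [σ.WeaklyRegular]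
    (hsep : ∀ s t : S, (∀ f ∈ A, f s = f t) → s = t) (h : ν ≪ σ)
    (heq : ∀ f ∈ A, ∫ x, ‖f x‖ ^ 2 ∂ν = ∫ x, ‖f x‖ ^ 2 ∂σ) : ν = σ := by
  obtain ⟨I, hI⟩ := exists_intCLM ν
  obtain ⟨J, hJ⟩ := exists_intCLM σ
  have h1 : ∀ f ∈ A, (I - J) (f * star f) = 0 := fun f hf => by
    rw [_root_.sub_apply, hI, hJ]
    simp only [ContinuousMap.mul_apply, ContinuousMap.star_apply, Complex.star_def,
      Complex.mul_conj', ← Complex.ofReal_pow, integral_complex_ofReal, heq f hf, sub_self]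
  have h2 : ∀ f ∈ A, ∀ g ∈ A, (I - J) (f * star g) = 0 := fun f hf g hg => by
    have e : (4 : ℂ) • (f * star g) = (f + g) * star (f + g) - (f - g) * star (f - g)
        + Complex.I • ((f + Complex.I • g) * star (f + Complex.I • g))
        - Complex.I • ((f - Complex.I • g) * star (f - Complex.I • g)) := by
      ext x
      simp only [ContinuousMap.smul_apply, ContinuousMap.mul_apply, ContinuousMap.star_apply,
        ContinuousMap.add_apply, ContinuousMap.sub_apply, smul_eq_mul, Complex.star_def, map_add,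
        map_sub, map_mul, Complex.conj_I]
      linear_combination (2 * f x * (starRingEnd ℂ) (g x) - 2 * g x * (starRingEnd ℂ) (f x))
        * Complex.I_mul_I
    have e2 := congrArg (I - J) e
    rw [map_sub, map_add, map_sub, map_smul, map_smul, map_smul, h1 _ (A.add_mem hf hg),
      h1 _ (A.sub_mem hf hg), h1 _ (A.add_mem hf (A.smul_mem hg _)),
      h1 _ (A.sub_mem hf (A.smul_mem hg _))] at e2
    simpa using e2
  have h3 : ∀ c ∈ StarAlgebra.adjoin ℂ (A : Set C(S, ℂ)), ∀ w : C(S, ℂ),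
      (∀ f ∈ A, ∀ g ∈ A, (I - J) (w * (f * star g)) = 0) →
      (∀ f ∈ A, ∀ g ∈ A, (I - J) (c * w * (f * star g)) = 0) ∧
        ∀ f ∈ A, ∀ g ∈ A, (I - J) (star c * w * (f * star g)) = 0 := by
    intro c hc
    induction hc using StarAlgebra.adjoin_induction with
    | mem x hx =>
      refine fun w hw => ⟨fun f hf g hg => ?_, fun f hf g hg => ?_⟩
      · rw [← hw (x * f) (A.mul_mem hx hf) g hg]
        congr 1
        ring
      · rw [← hw f hf (x * g) (A.mul_mem hx hg), star_mul']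
        congr 1
        ring
    | algebraMap r =>
      refine fun w hw => ⟨fun f hf g hg => ?_, fun f hf g hg => ?_⟩
      · rw [mul_assoc, ← Algebra.smul_def, map_smul, hw f hf g hg, smul_zero]
      · rw [← algebraMap_star_comm, mul_assoc, ← Algebra.smul_def, map_smul, hw f hf g hg,
          smul_zero]
    | add x y _ _ hx hy =>
      refine fun w hw => ⟨fun f hf g hg => ?_, fun f hf g hg => ?_⟩
      · rw [add_mul, add_mul, map_add, (hx w hw).1 f hf g hg, (hy w hw).1 f hf g hg, add_zero]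
      · rw [star_add, add_mul, add_mul, map_add, (hx w hw).2 f hf g hg, (hy w hw).2 f hf g hg,
          add_zero]
    | mul x y _ _ hx hy =>
      refine fun w hw => ⟨fun f hf g hg => ?_, fun f hf g hg => ?_⟩
      · rw [mul_assoc x y w]
        exact (hx _ (hy w hw).1).1 f hf g hg
      · rw [star_mul', mul_assoc (star x)]
        exact (hx _ (hy w hw).2).2 f hf g hg
    | star x _ hx => exact fun w hw => ⟨(hx w hw).2, by rw [star_star]; exact (hx w hw).1⟩
  have h4 : ∀ c : C(S, ℂ), (I - J) c = 0 := fun c => by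
    have e := ContinuousMap.starSubalgebra_topologicalClosure_eq_top_of_separatesPoints
      (StarAlgebra.adjoin ℂ (A : Set C(S, ℂ))) fun s t hst => by
        by_contra hn
        refine hst (hsep s t fun f hf => ?_)
        by_contra hne
        exact hn ⟨f, ⟨f, StarAlgebra.subset_adjoin ℂ _ hf, rfl⟩, hne⟩
    have e2 : c ∈ closure (StarAlgebra.adjoin ℂ (A : Set C(S, ℂ)) : Set C(S, ℂ)) := by
      change c ∈ (StarAlgebra.adjoin ℂ (A : Set C(S, ℂ))).topologicalClosure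
      rw [e]
      trivial
    refine closure_minimal (fun x hx => ?_) (isClosed_eq (I - J).continuous continuous_const) e2
    simpa using (h3 x hx 1 fun f hf g hg => by rw [one_mul, h2 f hf g hg]).1 1 A.one_mem 1
      A.one_mem
  have h5 : ∀ c : C(S, ℝ), ∫ x, c x ∂ν = ∫ x, c x ∂σ := fun c => by
    have := h4 ⟨fun x => (c x : ℂ), by fun_prop⟩
    rw [_root_.sub_apply, hI, hJ, sub_eq_zero] at this
    simp only [ContinuousMap.coe_mk, integral_complex_ofReal] at this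
    exact_mod_cast this
  ext E hE
  rw [← measureReal_eq_measureReal_iff (measure_ne_top _ _) (measure_ne_top _ _)]
  refine eq_of_abs_sub_nonpos (le_zero_of (K := 2) fun η hη _ => ?_)
  obtain ⟨δ, hδ, hui⟩ := ui_meas h hη one_pos
  have bE : Bd (E.indicator fun _ => (1 : ℝ)) := ⟨measurable_const.indicator hE, 1, fun x =>
    (norm_indicator_le_norm_self _ _).trans (by simp)⟩
  obtain ⟨g, hg, hgi⟩ := (bE.int σ).exists_boundedContinuous_integral_sub_le (lt_min hδ hη)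
  let c : C(S, ℝ) := ⟨fun x => max 0 (min 1 (g x)), by fun_prop⟩
  have a1 : ∀ x, |E.indicator (fun _ => (1 : ℝ)) x - c x| ≤ 1 ∧
      |E.indicator (fun _ => (1 : ℝ)) x - c x| ≤ ‖E.indicator (fun _ => (1 : ℝ)) x - g x‖ :=
    fun x => by
    have b1 := le_abs_self (E.indicator (fun _ => (1 : ℝ)) x - g x)
    have b2 := neg_abs_le (E.indicator (fun _ => (1 : ℝ)) x - g x)
    have b3 := abs_nonneg (E.indicator (fun _ => (1 : ℝ)) x - g x)
    change |_ - max 0 (min 1 (g x))| ≤ 1 ∧ |_ - max 0 (min 1 (g x))| ≤ |_|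
    simp only [abs_le, max_def, min_def]
    by_cases hx : x ∈ E
    · simp only [indicator_of_mem hx] at b1 b2 b3 ⊢
      split_ifs <;> refine ⟨⟨?_, ?_⟩, ?_, ?_⟩ <;> linarith
    · simp only [indicator_of_notMem hx] at b1 b2 b3 ⊢
      split_ifs <;> refine ⟨⟨?_, ?_⟩, ?_, ?_⟩ <;> linarith
  have br : Bd fun x => E.indicator (fun _ => (1 : ℝ)) x - c x :=
    ⟨bE.1.sub c.continuous.measurable, 1, fun x => (a1 x).1⟩
  have a2 : ∫ x, |E.indicator (fun _ => (1 : ℝ)) x - c x| ∂σ ≤ min δ η :=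
    (integral_mono (br.int σ).abs ((bE.int σ).sub hgi).norm fun x => (a1 x).2).trans hg
  have a3 := hui _ br.1 (fun x => (a1 x).1) (le_trans (integral_mono (br.memLp σ 2).integrable_sq
    (br.int σ).abs fun x => by
      have := (a1 x).1
      simp only
      rw [← sq_abs]
      nlinarith [abs_nonneg (E.indicator (fun _ => (1 : ℝ)) x - c x)]) (a2.trans (min_le_left _ _)))
  have a4 : ∀ (m : Measure S) [IsProbabilityMeasure m], |m.real E - ∫ x, c x ∂m|
      ≤ ∫ x, |E.indicator (fun _ => (1 : ℝ)) x - c x| ∂m := fun m _ => by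
    refine le_trans (le_of_eq ?_) abs_integral_le_integral_abs
    rw [integral_sub (bE.int m) ((bd_cont c).int m), integral_indicator hE]
    simp
  have a5 := abs_le.1 ((a4 ν).trans a3)
  have a6 := abs_le.1 ((a4 σ).trans (a2.trans (min_le_right _ _)))
  rw [h5 c] at a5
  exact abs_le.2 ⟨by linarith [a5.1, a6.2], by linarith [a5.2, a6.1]⟩

theorem Top.unique [T2Space S] [IsProbabilityMeasure μ] [IsProbabilityMeasure σ]
    [IsProbabilityMeasure ν] [σ.WeaklyRegular] (h : Top A s₀ μ σ)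
    (hsep : ∀ s t : S, (∀ f ∈ A, f s = f t) → s = t) (hν : ν ≪ σ) (hr : IsRep A s₀ ν) :
    ν = σ := by
  have key : ∀ f ∈ A, ∃ (u : C(S, ℝ)) (t : ℝ), 0 < t ∧ (∀ x, |u x| ≤ 1) ∧ Good A σ u ∧
      ∀ (m : Measure S) [IsProbabilityMeasure m],
        ∫ x, u x ∂m = t * (∫ x, ‖f x‖ ^ 2 ∂m - ∫ x, ‖f x‖ ^ 2 ∂σ) := fun f hf => by
    have t0 : 0 < (‖f‖ ^ 2 + 1)⁻¹ := by positivity
    have b1 : ∀ x, ‖f x‖ ^ 2 ≤ ‖f‖ ^ 2 := fun x => by gcongr; exact f.norm_coe_le_norm x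
    have b2 : ∫ x, ‖f x‖ ^ 2 ∂σ ≤ ‖f‖ ^ 2 := by
      simpa using integral_mono (int_sq ((bd_cont f).memLp σ 2)) (integrable_const _) b1
    have b3 : 0 ≤ ∫ x, ‖f x‖ ^ 2 ∂σ := integral_nonneg fun x => by positivity
    let u : C(S, ℝ) := ⟨fun x => (‖f‖ ^ 2 + 1)⁻¹ * (‖f x‖ ^ 2 - ∫ x, ‖f x‖ ^ 2 ∂σ), by fun_prop⟩
    have u1 : ∀ x, |u x| ≤ 1 := fun x => by
      change |(‖f‖ ^ 2 + 1)⁻¹ * (‖f x‖ ^ 2 - ∫ x, ‖f x‖ ^ 2 ∂σ)| ≤ 1
      rw [abs_mul, abs_of_pos t0, inv_mul_le_iff₀ (by positivity), abs_le]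
      constructor <;> linarith [b1 x, sq_nonneg ‖f x‖]
    have u2 : ∀ (m : Measure S) [IsProbabilityMeasure m], ∫ x, u x ∂m
        = (‖f‖ ^ 2 + 1)⁻¹ * (∫ x, ‖f x‖ ^ 2 ∂m - ∫ x, ‖f x‖ ^ 2 ∂σ) := fun m _ => by
      change ∫ x, (‖f‖ ^ 2 + 1)⁻¹ * (‖f x‖ ^ 2 - ∫ x, ‖f x‖ ^ 2 ∂σ) ∂m = _
      rw [integral_const_mul, integral_sub (int_sq ((bd_cont f).memLp m 2)) (integrable_const _)]
      simp
    refine ⟨u, _, t0, u1, h.good u u1 fun m hm h1 h2 => ?_, u2⟩
    rw [u2]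
    exact mul_nonpos_of_nonneg_of_nonpos t0.le (sub_nonpos.2 (h.sq m hm h1 h2 f hf))
  have hle : ∀ f ∈ A, ∫ x, ‖f x‖ ^ 2 ∂ν ≤ ∫ x, ‖f x‖ ^ 2 ∂σ := fun f hf => by
    obtain ⟨u, t, t0, u1, hG, u2⟩ := key f hf
    have := hG.le hν h.repσ hr u.continuous.measurable u1
    rw [u2] at this
    exact sub_nonpos.1 (nonpos_of_mul_nonpos_right this t0)
  refine eq_of_sq hsep hν fun f hf => le_antisymm (hle f hf) ?_
  obtain ⟨u, t, t0, u1, hG, u2⟩ := key f hf
  have := hG.ge hν h.repσ hr u.continuous.measurable u1 (by rw [u2, sub_self, mul_zero])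
    fun F hF => hF.transfer hν (fun g _ g0 => by
      have : 0 ≤ ∫ x, g x ∂σ := integral_nonneg g0
      linarith) hle
  rw [u2] at this
  exact sub_nonneg.1 (nonneg_of_mul_nonneg_right this t0)

end Pool.Agent.P.MP_dbea21_an.Rep
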