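import Pool.Agent.P.MP_dbea21_an.RDual

/-!
A greatest representing measure is the only representing measure that it dominates.
-/

open MeasureTheory Set Filter Topology

namespace Pool.Agent.P.MP_dbea21_an.Rep

variable {S : Type*} [MeasurableSpace S]

theorem abs_mul_le_one {s t : ℝ} (hs : 0 < s) (hs1 : s ≤ 1) (ht : |t| ≤ 1) : |s * t| ≤ s ∧
    |s * t| ≤ 1 := by
  have : |s * t| ≤ s := by
    rw [abs_mul, abs_of_pos hs]
    exact mul_le_of_le_one_right hs.le ht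
  exact ⟨this, this.trans hs1⟩

theorem exp_bd {s t : ℝ} (hs : 0 < s) (hs1 : s ≤ 1) (ht : |t| ≤ 1) :
    |Real.exp (s * t) - 1 - s * t| ≤ s ^ 2 := by
  obtain ⟨h1, h2⟩ := abs_mul_le_one hs hs1 ht
  refine (Real.abs_exp_sub_one_sub_id_le h2).trans ?_
  rw [← sq_abs]
  gcongr

theorem exp_le_three {t : ℝ} (ht : |t| ≤ 1) : Real.exp t ≤ 3 := by
  have := exp_bd one_pos le_rfl ht
  rw [one_mul] at this
  linarith [(abs_le.1 this).2, (abs_le.1 ht).2]

theorem bd_exp {u : S → ℝ} (hu : Measurable u) (h1 : ∀ x, |u x| ≤ 1) {s : ℝ} (hs : 0 < s)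
    (hs1 : s ≤ 1) : Bd fun x => Real.exp (s * u x) :=
  ⟨(hu.const_mul s).exp, 3, fun x => by
    rw [Real.norm_of_nonneg (Real.exp_pos _).le]
    exact exp_le_three (abs_mul_le_one hs hs1 (h1 x)).2⟩

theorem int_exp_le {m : Measure S} [IsProbabilityMeasure m] {u : S → ℝ} (hu : Measurable u)
    (h1 : ∀ x, |u x| ≤ 1) {s : ℝ} (hs : 0 < s) (hs1 : s ≤ 1) :
    ∫ x, Real.exp (s * u x) ∂m ≤ 1 + s * ∫ x, u x ∂m + s ^ 2 := by
  have i1 : Integrable (fun x => s * u x) m := (Bd.int ⟨hu, 1, h1⟩ m).const_mul s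
  have h : ∫ x, Real.exp (s * u x) ∂m ≤ ∫ x, ((1 + s ^ 2) + s * u x) ∂m :=
    integral_mono ((bd_exp hu h1 hs hs1).int m) ((integrable_const _).add i1) fun x => by
      have := (abs_le.1 (exp_bd hs hs1 (h1 x))).2
      simp only
      linarith
  rw [integral_add (integrable_const _) i1, integral_const_mul] at h
  simp only [integral_const, probReal_univ, one_smul] at h
  linarith

theorem le_exp_neg {z : ℂ} {t : ℝ} (h : ‖z‖ * Real.exp t ≤ 1) : ‖z‖ ≤ Real.exp (-t) := by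
  rw [Real.exp_neg, ← one_div, le_div_iff₀ (Real.exp_pos t)]
  exact h

theorem r_ge {r s : ℝ} (h : 1 ≤ r * (1 + s ^ 2)) : 1 - s ^ 2 ≤ r := by
  by_contra hlt
  have h1 := mul_lt_mul_of_pos_right (not_le.1 hlt) (by positivity : 0 < 1 + s ^ 2)
  nlinarith [sq_nonneg (s ^ 2)]

theorem le_zero_of {a K : ℝ} (h : ∀ s : ℝ, 0 < s → s ≤ 1 / 2 → a ≤ K * s) : a ≤ 0 := by
  have t : Tendsto (fun s : ℝ => K * s) (𝓝[>] 0) (𝓝 (K * 0)) :=
    (by fun_prop : Continuous fun s : ℝ => K * s).continuousWithinAt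
  rw [mul_zero] at t
  refine ge_of_tendsto t ?_
  filter_upwards [Ioc_mem_nhdsGT (by norm_num : (0 : ℝ) < 1 / 2)] with s hs using h s hs.1 hs.2

theorem int_sub_one {m : Measure S} [IsProbabilityMeasure m] {G : S → ℂ} (hG : Bd G) {u : S → ℝ}
    (hu : Measurable u) (h1 : ∀ x, |u x| ≤ 1) (h0 : ∫ x, u x ∂m = 0) {s : ℝ} (hs : 0 < s)
    (hs1 : s ≤ 1 / 2) (hb : ∀ x, ‖G x‖ * Real.exp (s * u x) ≤ 1) {r : ℝ}
    (hr : ∫ x, G x ∂m = r) : ∫ x, ‖G x - 1‖ ^ 2 ∂m ≤ 2 + 4 * s ^ 2 - 2 * r := by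
  have h2 : ∀ x, |(-u x)| ≤ 1 := fun x => by rw [abs_neg]; exact h1 x
  have e1 := int_exp_le (m := m) hu.fun_neg h2 (by positivity : 0 < 2 * s) (by linarith)
  rw [integral_neg, h0] at e1
  have i1 := (bd_exp hu.fun_neg h2 (by positivity : 0 < 2 * s) (by linarith)).int m
  have i2 : Integrable (fun x => 2 * (G x).re) m := (hG.int m).re.const_mul 2
  have i3 : Integrable (fun x => Real.exp (2 * s * -u x) + 1) m := i1.add (integrable_const _)
  have e2 : ∫ x, ‖G x - 1‖ ^ 2 ∂m ≤ ∫ x, (Real.exp (2 * s * -u x) + 1 - 2 * (G x).re) ∂m := by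
    refine integral_mono (int_sq ((hG.sub (bd_const 1)).memLp m 2)) (i3.sub i2) fun x => ?_
    have e3 : ‖G x‖ ^ 2 ≤ Real.exp (2 * s * -u x) := by
      rw [show 2 * s * -u x = -(s * u x) + -(s * u x) by ring, Real.exp_add, ← sq]
      gcongr
      exact le_exp_neg (hb x)
    rw [Complex.sq_norm, Complex.normSq_apply] at e3
    simp only [Complex.sq_norm, Complex.normSq_apply, Complex.sub_re, Complex.sub_im,
      Complex.one_re, Complex.one_im]
    linarith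
  have e4 : ∫ x, (G x).re ∂m = r := by
    have := integral_re (hG.int m)
    rw [hr] at this
    exact this
  rw [integral_sub i3 i2, integral_add i1 (integrable_const _), integral_const_mul, e4] at e2
  simp only [integral_const, probReal_univ, one_smul] at e2
  linarith

variable [TopologicalSpace S] [CompactSpace S] [BorelSpace S] {A : Subalgebra ℂ C(S, ℂ)} {s₀ : S}
  {μ σ ν : Measure S}

/-- Almost extremal elements of the Hardy algebra below `exp (-s u)`. -/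
def Good (A : Subalgebra ℂ C(S, ℂ)) (σ : Measure S) (u : S → ℝ) : Prop :=
  ∀ s : ℝ, 0 < s → s ≤ 1 → ∃ G, InH A σ G ∧ (∀ x, ‖G x‖ * Real.exp (s * u x) ≤ 1) ∧
    ∃ r : ℝ, ∫ x, G x ∂σ = r ∧ 1 ≤ r * (1 + s ^ 2)

omit [TopologicalSpace S] [CompactSpace S] [BorelSpace S] in
theorem r_le [IsProbabilityMeasure ν] {G : S → ℂ} {u : S → ℝ} (hu : Measurable u)
    (h1 : ∀ x, |u x| ≤ 1) {s : ℝ} (hs : 0 < s) (hs1 : s ≤ 1)
    (hb : ∀ x, ‖G x‖ * Real.exp (s * u x) ≤ 1) {r : ℝ} (hr : ∫ x, G x ∂ν = r) :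
    r ≤ 1 - s * ∫ x, u x ∂ν + s ^ 2 := by
  have h2 : ∀ x, |(-u x)| ≤ 1 := fun x => by rw [abs_neg]; exact h1 x
  have e1 := int_exp_le (m := ν) hu.fun_neg h2 hs hs1
  rw [integral_neg] at e1
  have e2 : ‖∫ x, G x ∂ν‖ ≤ ∫ x, Real.exp (s * -u x) ∂ν :=
    norm_integral_le_of_norm_le ((bd_exp hu.fun_neg h2 hs hs1).int ν) (.of_forall fun x => by
      rw [mul_neg]; exact le_exp_neg (hb x))
  rw [hr, Complex.norm_real] at e2
  linarith [le_abs_self r, Real.norm_eq_abs r]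

theorem Good.le [IsProbabilityMeasure σ] [IsProbabilityMeasure ν] (h : ν ≪ σ)
    (hσ : IsRep A s₀ σ) (hν : IsRep A s₀ ν) {u : S → ℝ} (hu : Measurable u)
    (h1 : ∀ x, |u x| ≤ 1) (hG : Good A σ u) : ∫ x, u x ∂ν ≤ 0 := by
  refine le_zero_of (K := 2) fun s hs hs1 => ?_
  obtain ⟨G, hG, hb, r, hr, hr1⟩ := hG s hs (by linarith)
  have e1 := r_le hu h1 hs (by linarith) hb ((hG.integral_eq h hσ hν).trans hr)
  have e2 := r_ge hr1
  refine le_of_mul_le_mul_left ?_ hs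
  nlinarith

theorem Good.ge [IsProbabilityMeasure σ] [IsProbabilityMeasure ν] (h : ν ≪ σ)
    (hσ : IsRep A s₀ σ) (hν : IsRep A s₀ ν) {u : S → ℝ} (hu : Measurable u)
    (h1 : ∀ x, |u x| ≤ 1) (h0 : ∫ x, u x ∂σ = 0) (hG : Good A σ u)
    (hle : ∀ F, InH A σ F → ∫ x, ‖F x‖ ^ 2 ∂ν ≤ ∫ x, ‖F x‖ ^ 2 ∂σ) : 0 ≤ ∫ x, u x ∂ν := by
  have h2 : ∀ x, |(-u x)| ≤ 1 := fun x => by rw [abs_neg]; exact h1 x
  rw [← neg_nonpos]
  refine le_zero_of (K := 22) fun η hη _ => ?_
  obtain ⟨δ, hδ, hui⟩ := ui_meas h hη (inv_pos.2 hη)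
  obtain ⟨s, hs, hs1, hs2, hs3⟩ : ∃ s : ℝ, 0 < s ∧ s ≤ 1 / 2 ∧ s ≤ η ∧ s ≤ δ * η / 2 :=
    ⟨min (min (1 / 2) η) (δ * η / 2), by positivity, (min_le_left _ _).trans (min_le_left _ _),
      (min_le_left _ _).trans (min_le_right _ _), min_le_right _ _⟩
  have hs' : s ≤ 1 := by linarith
  obtain ⟨G, hG, hb, r, hr, hr1⟩ := hG s hs hs'
  have e2 := r_ge hr1
  have e3 := r_le hu h1 hs hs' hb hr
  rw [h0] at e3
  have be := bd_exp hu.fun_neg h2 hs hs'
  obtain ⟨q, hq⟩ : ∃ q : S → ℝ, q = fun x => s⁻¹ * (Real.exp (s * -u x) - (G x).re) := ⟨_, rfl⟩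
  have q0 : ∀ x, 0 ≤ q x := fun x => by
    rw [hq]
    refine mul_nonneg (inv_pos.2 hs).le (sub_nonneg.2 ((Complex.re_le_norm _).trans ?_))
    rw [mul_neg]
    exact le_exp_neg (hb x)
  have qm : Measurable q := by
    rw [hq]
    exact (be.1.sub (Complex.measurable_re.comp hG.1.1)).const_mul _
  have qi : ∀ (m : Measure S) [IsFiniteMeasure m], MemLp q 2 m := fun m _ => by
    rw [hq]
    exact ((be.memLp m 2).sub (hG.1.memLp m 2).re).const_mul _
  have qe : ∀ (m : Measure S) [IsFiniteMeasure m], ∫ x, G x ∂m = r →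
      ∫ x, q x ∂m = s⁻¹ * (∫ x, Real.exp (s * -u x) ∂m - r) := fun m _ hm => by
    have := integral_re (hG.1.int m)
    rw [hm] at this
    have i2 : Integrable (fun x => (G x).re) m := (hG.1.int m).re
    rw [hq, integral_const_mul, integral_sub (be.int m) i2]
    exact congrArg (fun t => s⁻¹ * (_ - t)) this
  have q1 : ∫ x, q x ∂σ ≤ 2 * s := by
    have := int_exp_le (m := σ) hu.fun_neg h2 hs hs'
    rw [integral_neg, h0] at this
    rw [qe σ hr, inv_mul_le_iff₀ hs]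
    nlinarith
  have q2 : -∫ x, u x ∂ν - s ≤ ∫ x, q x ∂ν := by
    have i1 : Integrable (fun x => s * -u x) ν := (Bd.int ⟨hu.fun_neg, 1, h2⟩ ν).const_mul s
    have e : ∫ x, (s * -u x + 1) ∂ν ≤ ∫ x, Real.exp (s * -u x) ∂ν :=
      integral_mono (i1.add (integrable_const _)) (be.int ν) fun x => Real.add_one_le_exp _
    rw [integral_add i1 (integrable_const _), integral_const_mul, integral_neg] at e
    simp only [integral_const, probReal_univ, one_smul] at e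
    rw [qe ν ((hG.integral_eq h hσ hν).trans hr), le_inv_mul_iff₀ hs]
    nlinarith
  have q3 : ∫ x, q x ^ 2 ∂ν ≤ 20 := by
    have e4 := (hle _ (hG.sub (InH.const 1))).trans (int_sub_one hG.1 hu h1 h0 hs hs1 hb hr)
    have i1 : Integrable (fun x => 2 / s ^ 2 * ‖G x - 1‖ ^ 2) ν :=
      (int_sq ((hG.1.sub (bd_const 1)).memLp ν 2)).const_mul _
    have e5 : ∫ x, q x ^ 2 ∂ν ≤ ∫ x, (8 + 2 / s ^ 2 * ‖G x - 1‖ ^ 2) ∂ν := by
      refine integral_mono (qi ν).integrable_sq ((integrable_const _).add i1) fun x => ?_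
      obtain ⟨a1, a2⟩ := abs_mul_le_one hs hs' (h2 x)
      have a3 := abs_le.1 ((Real.abs_exp_sub_one_le a2).trans (by linarith : _ ≤ 2 * s))
      have a4 := abs_le.1 (Complex.abs_re_le_norm (G x - 1))
      rw [Complex.sub_re, Complex.one_re] at a4
      have a5 : (Real.exp (s * -u x) - (G x).re) ^ 2 ≤ 8 * s ^ 2 + 2 * ‖G x - 1‖ ^ 2 := by
        nlinarith [sq_nonneg (Real.exp (s * -u x) - 1 + ((G x).re - 1))]
      simp only [hq]
      rw [mul_pow, inv_pow, inv_mul_le_iff₀ (by positivity)]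
      refine a5.trans (le_of_eq ?_)
      field_simp
    rw [integral_add (integrable_const _) i1, integral_const_mul] at e5
    simp only [integral_const, probReal_univ, one_smul] at e5
    have e6 : 2 / s ^ 2 * ∫ x, ‖G x - 1‖ ^ 2 ∂ν ≤ 2 / s ^ 2 * (6 * s ^ 2) :=
      mul_le_mul_of_nonneg_left (by linarith) (by positivity)
    have e7 : 2 / s ^ 2 * (6 * s ^ 2) = 12 := by
      field_simp
      norm_num
    linarith
  have tm : Measurable fun x => min (q x) η⁻¹ := qm.min measurable_const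
  have t0 : ∀ x, 0 ≤ min (q x) η⁻¹ := fun x => le_min (q0 x) (inv_pos.2 hη).le
  have tb : ∀ x, |min (q x) η⁻¹| ≤ η⁻¹ := fun x => by
    rw [abs_of_nonneg (t0 x)]; exact min_le_right _ _
  have bt : Bd fun x => min (q x) η⁻¹ := ⟨tm, _, tb⟩
  have q4 := hui _ tm tb (by
    have e : ∫ x, min (q x) η⁻¹ ^ 2 ∂σ ≤ ∫ x, η⁻¹ * q x ∂σ :=
      integral_mono (bt.memLp σ 2).integrable_sq (((qi σ).integrable one_le_two).const_mul _)
        fun x => by
          simp only [sq]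
          exact mul_le_mul (min_le_right _ _) (min_le_left _ _) (t0 x) (inv_pos.2 hη).le
    rw [integral_const_mul] at e
    refine e.trans ?_
    rw [inv_mul_le_iff₀ hη]
    linarith)
  have q5 : ∫ x, q x ∂ν ≤ ∫ x, (|min (q x) η⁻¹| + η * q x ^ 2) ∂ν := by
    refine integral_mono ((qi ν).integrable one_le_two)
      ((bt.int ν).abs.add ((qi ν).integrable_sq.const_mul _)) fun x => ?_
    simp only [abs_of_nonneg (t0 x)]
    rcases le_total (q x) η⁻¹ with a | a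
    · rw [min_eq_left a]
      exact le_add_of_nonneg_right (by positivity)
    · have a1 : 1 ≤ η * q x := by
        have := mul_le_mul_of_nonneg_left a hη.le
        rwa [mul_inv_cancel₀ hη.ne'] at this
      nlinarith [t0 x, mul_le_mul_of_nonneg_right a1 (q0 x)]
  rw [integral_add (bt.int ν).abs ((qi ν).integrable_sq.const_mul _), integral_const_mul] at q5
  nlinarith

end Pool.Agent.P.MP_dbea21_an.Rep
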